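import Pool.Agent.H96.W.Engine2
import Pool.Agent.H96.W.Pack

/-!
# The toric chart machine

Models from one finite family of finite sets and from the sets of the toric engine.
-/

set_option autoImplicit false
set_option linter.unusedSectionVars false

namespace Pool.Agent.H96.Z

open Pool.Agent.H96.VL Pool.Agent.H96.W
open scoped Pointwise

variable {K : Type} [Field K] {ι : Type} [Fintype ι] [DecidableEq ι]

/-- The ring of a chart. -/
noncomputable def cring (V : ValuationSubring K) {υ : Type} (τ : ι → K) (Y : υ → K) (C : Cone ι) :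
    Subring K :=
  vloc V (Algebra.adjoin ℤ (Set.range (Sum.elim (fun j => mon τ (C.b j)) Y)))

/-- The data of a chart at `V`. -/
structure CD (V : ValuationSubring K) (υ : Type) (W : Finset (ι → ℤ)) (base : Finset (Finset K))
    (ss sL : ι → Finset K) where
  τ : ι → K
  T : ι → K
  Y : υ → K
  Bs : Subring K → Prop
  τ0 : ∀ α, τ α ≠ 0
  vτ : ∀ α, V.valuation (τ α) ≤ 1
  loc : ∀ R, Bs R → VLocal V R
  gs : ∀ R, Bs R → ∀ α, Gen R (ss α) (T α * τ α)
  gL : ∀ R, Bs R → ∀ α, Gen R (sL α) (T α)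
  mτ : ∀ R, Bs R → ∀ α, τ α ∈ R
  mY : ∀ R, Bs R → ∀ l, Y l ∈ R
  pb : ∀ R, Bs R → ∀ s ∈ base, Prin R s
  det : ∀ R, VLocal V R → (∀ s ∈ base, Prin R s) → Bs R
  self : Bs V.toSubring
  ch : ∀ C : Cone ι, IsCone C → (∀ j, V.valuation (mon τ (C.b j)) ≤ 1) → (∀ w ∈ W, Sgn C w) →
    Bs (cring V τ Y C) ∧ IsRegularLocalRing (cring V τ Y C)

/-- **Models from charts.** -/
theorem hasCharts_of_cd [DecidableEq K] (W : Finset (ι → ℤ)) (base : Finset (Finset K))
    (ss sL : ι → Finset K) (h0 : ∀ s ∈ base, ∃ g ∈ s, g ≠ 0)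
    (htop : ∀ R : Subring K, (∀ x ∈ R, x ≠ 0 → x⁻¹ ∈ R) → (∀ s ∈ base, Prin R s) → R = ⊤)
    (hcd : ∀ V : ValuationSubring K, ∃ υ : Type, Nonempty (CD V υ W base ss sL)) :
    Pool.Agent.H19.OG.HasCharts K := by
  classical
  obtain ⟨𝒞, Ls, hE, hSgn⟩ := exists_eng W
  have hLs : ∀ S ∈ Ls, S.Nonempty := by
    intro S hS
    obtain ⟨C, hC, h1, h2, h3⟩ := hE.cov Set.univ ⟨fun _ _ _ _ => trivial, fun _ => Or.inl trivial,
      fun _ => trivial⟩
    obtain ⟨u, hu, -⟩ := h3 Set.univ ⟨fun _ h => h, fun _ _ _ _ => trivial, trivial,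
      fun _ => trivial, fun _ _ _ => trivial⟩ (fun _ => trivial) S hS
    exact ⟨u, hu⟩
  set ε : ι → ℤ := fun _ => 1 with hε
  have hε1 : ∀ α, ε α = 1 ∨ ε α = -1 := fun α => Or.inl rfl
  set 𝔖 : Finset (Finset K) := base ∪ Ls.toFinset.image (eset ss sL ε) with h𝔖
  have hm1 : ∀ s ∈ base, s ∈ 𝔖 := fun s hs => Finset.mem_union_left _ hs
  have hm3 : ∀ S ∈ Ls, eset ss sL ε S ∈ 𝔖 := fun S hS => Finset.mem_union_right _
    (Finset.mem_image_of_mem _ (List.mem_toFinset.mpr hS))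
  have hcase : ∀ s ∈ 𝔖, s ∈ base ∨ ∃ S ∈ Ls, s = eset ss sL ε S := by
    intro s hs
    rcases Finset.mem_union.mp hs with hs | hs
    · exact Or.inl hs
    · obtain ⟨S, hS, rfl⟩ := Finset.mem_image.mp hs
      exact Or.inr ⟨S, List.mem_toFinset.mp hS, rfl⟩
  have hne : ∀ {R : Subring K} {s : Finset K} {T : K}, Gen R s T → ∃ g ∈ s, g ≠ 0 := by
    intro R s T h
    obtain ⟨g, hg, -, h0⟩ := h.ex
    exact ⟨g, hg, h0⟩
  obtain ⟨υ₀, ⟨D₀⟩⟩ := hcd ⊤
  have hgs1 : ∀ {V : ValuationSubring K} {υ : Type} (D : CD V υ W base ss sL) (R : Subring K),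
      D.Bs R → ∀ α, Gen R (ss α) (D.T α * D.τ α ^ ε α) := by
    intro V υ D R hR α
    have h1 := D.gs R hR α
    rwa [← zpow_one (D.τ α)] at h1
  refine hasCharts_of_sets 𝔖 ?_ ?_ ?_
  · intro s hs
    rcases hcase s hs with hs | ⟨S, hS, rfl⟩
    · exact h0 s hs
    · exact eset_ne (fun α => hne (D₀.gs _ D₀.self α)) (fun α => hne (D₀.gL _ D₀.self α))
        (hLs S hS)
  · intro R hinv hs
    exact htop R hinv fun s hs' => hs _ (hm1 s hs')
  · intro V
    obtain ⟨υ, ⟨D⟩⟩ := hcd V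
    obtain ⟨C, hC𝒞, hCb, hCdet, hCprin⟩ := hE.cov _ (tot_of_val D.τ0 D.vτ)
    have hC := hE.cone C hC𝒞
    obtain ⟨hbase, hreg⟩ := D.ch C hC hCb fun w hw => hSgn C hC𝒞 w hw
    refine ⟨_, D.loc _ hbase, ?_, ?_, hreg⟩
    · intro s hs
      rcases hcase s hs with hs | ⟨S', hS', rfl⟩
      · exact D.pb _ hbase s hs
      · rw [prin_eset_iff hε1 D.τ0 (hgs1 D _ hbase) (D.gL _ hbase)]
        exact hCprin _ (loc_of_vlocal D.τ0 (D.loc _ hbase) (D.mτ _ hbase))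
          (fun j => subset_vloc (Algebra.subset_adjoin ⟨Sum.inl j, rfl⟩)) S' hS'
    · intro R' hR' hs
      have hbase' := D.det R' hR' fun s hs' => hs _ (hm1 s hs')
      apply vloc_le hR'
      apply adjoin_le_of
      rintro _ ⟨j | l, rfl⟩
      · exact hCdet _ (loc_of_vlocal D.τ0 hR' (D.mτ _ hbase')) (fun S' hS' => by
          rw [← prin_eset_iff hε1 D.τ0 (hgs1 D _ hbase') (D.gL _ hbase')]
          exact hs _ (hm3 S' hS')) j
      · exact D.mY _ hbase' l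

end Pool.Agent.H96.Z
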