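import Mathlib

/-!
# The second order expansion of a product
-/

set_option autoImplicit false
set_option linter.unusedSectionVars false

namespace Pool.Agent.H96.Z

open MvPolynomial

section Exp

variable {υ A ι : Type} [CommRing A]

/-- The expansion of a product to the second order. -/
theorem exD (s : Finset ι) (σ : MvPolynomial υ A) (a : ι → MvPolynomial υ A) :
    ∃ D : MvPolynomial υ A, ∏ i ∈ s, (1 + σ * a i) = 1 + σ * ∑ i ∈ s, a i + σ ^ 2 * D ∧
      ∀ (B : Type) [CommRing B] (ev : MvPolynomial υ A →+* B), ev σ = 0 →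
        2 * ev D = (∑ i ∈ s, ev (a i)) ^ 2 - ∑ i ∈ s, ev (a i) ^ 2 ∧
        ∀ l, pderiv l σ = 0 → ev (pderiv l D) =
          (∑ i ∈ s, ev (pderiv l (a i))) * (∑ i ∈ s, ev (a i)) -
            ∑ i ∈ s, ev (a i) * ev (pderiv l (a i)) := by
  classical
  induction s using Finset.induction_on with
  | empty =>
    refine ⟨0, by simp, fun B _ ev _ => ⟨by simp, fun l _ => by simp⟩⟩
  | insert j s hj ih =>
    obtain ⟨D, h1, h2⟩ := ih
    refine ⟨D + a j * ∑ i ∈ s, a i + σ * (a j * D), ?_, fun B _ ev hσ => ⟨?_, fun l hl => ?_⟩⟩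
    · rw [Finset.prod_insert hj, Finset.sum_insert hj, h1]; ring
    · have h3 := (h2 B ev hσ).1
      rw [Finset.sum_insert hj, Finset.sum_insert hj, map_add, map_add, map_mul, map_mul, hσ,
        map_sum]
      linear_combination h3
    · have h3 := (h2 B ev hσ).2 l hl
      rw [Finset.sum_insert hj, Finset.sum_insert hj, Finset.sum_insert hj]
      rw [map_add, map_add, map_add, map_add, Derivation.leibniz, Derivation.leibniz, hl, h3]
      simp only [smul_eq_mul, map_add, map_mul, map_sum, mul_zero, map_zero, add_zero, hσ, zero_mul]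
      ring

end Exp

section Circuit

variable {υ : Type} {p R : ℕ} [Fact p.Prime]

/-- The factors. -/
noncomputable def ya (lam : Fin R → ℤ) (b : Fin R → υ) (i : Fin R) : MvPolynomial υ (ZMod p) :=
  X (b i) * MvPolynomial.C ((lam i : ZMod p)⁻¹)

theorem sum_sig {β : Type} [CommRing β] (n : Fin R → ℕ) (g : Fin R → β) :
    ∑ x : (Σ i, Fin (n i)), g x.1 = ∑ i, (n i : β) * g i := by
  rw [Fintype.sum_sigma]
  refine Finset.sum_congr rfl fun i _ => ?_
  show ∑ _y : Fin (n i), g i = _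
  rw [Finset.sum_const, Finset.card_univ, Fintype.card_fin, nsmul_eq_mul]

theorem prod_sig {β : Type} [CommRing β] (n : Fin R → ℕ) (g : Fin R → β) :
    ∏ x : (Σ i, Fin (n i)), g x.1 = ∏ i, g i ^ n i := by
  rw [Fintype.prod_sigma]
  refine Finset.prod_congr rfl fun i _ => ?_
  show ∏ _y : Fin (n i), g i = _
  rw [Finset.prod_const, Finset.card_univ, Fintype.card_fin]

theorem toNat_sub (B : Type) [CommRing B] (x : ℤ) :
    ((x.toNat : ℕ) : B) - (((-x).toNat : ℕ) : B) = (x : B) := by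
  have h1 : ((x.toNat : ℕ) : ℤ) - (((-x).toNat : ℕ) : ℤ) = x := by omega
  rw [← Int.cast_natCast (x.toNat), ← Int.cast_natCast ((-x).toNat), ← Int.cast_sub, h1]

/-- The polynomial of the second order, and the denominator. -/
theorem exists_circuit (lam : Fin R → ℤ) (hlam : ∀ i, ¬ (p : ℤ) ∣ lam i) (a : υ) (b : Fin R → υ)
    (hb : Function.Injective b) (hab : ∀ i, b i ≠ a) :
    ∃ Q P : MvPolynomial υ (ZMod p),
      (∀ (B : Type) [Field B] [Algebra (ZMod p) B] (Y : υ → B), ∑ i, Y (b i) = 0 →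
        Y a ^ 2 * aeval Y Q = ∏ i, (1 + Y a * Y (b i) * (lam i : B)⁻¹) ^ (lam i).toNat -
          ∏ i, (1 + Y a * Y (b i) * (lam i : B)⁻¹) ^ (-lam i).toNat ∧
        aeval Y P = ∏ i, (1 + Y a * Y (b i) * (lam i : B)⁻¹) ^ (-lam i).toNat) ∧
      ∀ (B : Type) [Field B] [Algebra (ZMod p) B] (Y : υ → B), Y a = 0 → ∑ i, Y (b i) = 0 →
        2 * aeval Y Q = - ∑ i, Y (b i) ^ 2 * (lam i : B)⁻¹ ∧
        (∃ E : B, ∀ i, aeval Y (pderiv (b i) Q) = E - Y (b i) * (lam i : B)⁻¹) ∧
        aeval Y P = 1 ∧ ∀ l, l ≠ a → aeval Y (pderiv l P) = 0 := by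
  classical
  have hp0 : ∀ (B : Type) [Field B] [Algebra (ZMod p) B] (i : Fin R), (lam i : B) ≠ 0 := by
    intro B _ _ i
    have : CharP B p := charP_of_injective_algebraMap (algebraMap (ZMod p) B).injective p
    rw [Ne, CharP.intCast_eq_zero_iff B p]
    exact hlam i
  have hcast : ∀ (B : Type) [Field B] [Algebra (ZMod p) B] (i : Fin R),
      algebraMap (ZMod p) B ((lam i : ZMod p)⁻¹) = (lam i : B)⁻¹ := by
    intro B _ _ i
    rw [map_inv₀, map_intCast]
  have hev : ∀ (B : Type) [Field B] [Algebra (ZMod p) B] (Y : υ → B) (i : Fin R),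
      aeval Y (ya (p := p) lam b i) = Y (b i) * (lam i : B)⁻¹ := by
    intro B _ _ Y i
    rw [ya, map_mul, aeval_X, aeval_C, hcast]
  obtain ⟨D₁, h1, h1'⟩ := exD (Finset.univ : Finset (Σ i, Fin ((lam i).toNat)))
    (X a : MvPolynomial υ (ZMod p)) (fun x => ya lam b x.1)
  obtain ⟨D₂, h2, h2'⟩ := exD (Finset.univ : Finset (Σ i, Fin ((-lam i).toNat)))
    (X a : MvPolynomial υ (ZMod p)) (fun x => ya lam b x.1)
  rw [prod_sig (fun i => (lam i).toNat) (fun i => 1 + X a * ya lam b i),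
    sum_sig (fun i => (lam i).toNat) (fun i => ya lam b i)] at h1
  rw [prod_sig (fun i => (-lam i).toNat) (fun i => 1 + X a * ya lam b i),
    sum_sig (fun i => (-lam i).toNat) (fun i => ya lam b i)] at h2
  have hlin : ∀ (B : Type) [Field B] [Algebra (ZMod p) B] (g : Fin R → B),
      ∑ i, (((lam i).toNat : ℕ) : B) * (g i * (lam i : B)⁻¹) -
        ∑ i, (((-lam i).toNat : ℕ) : B) * (g i * (lam i : B)⁻¹) = ∑ i, g i := by
    intro B _ _ g
    rw [← Finset.sum_sub_distrib]
    refine Finset.sum_congr rfl fun i _ => ?_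
    rw [← sub_mul, toNat_sub, mul_comm (g i), ← mul_assoc, mul_inv_cancel₀ (hp0 B i), one_mul]
  have hprod : ∀ (B : Type) [Field B] [Algebra (ZMod p) B] (Y : υ → B) (n : Fin R → ℕ),
      aeval Y (∏ i, (1 + X a * ya (p := p) lam b i) ^ n i) =
        ∏ i, (1 + Y a * Y (b i) * (lam i : B)⁻¹) ^ n i := by
    intro B _ _ Y n
    rw [map_prod]
    refine Finset.prod_congr rfl fun i _ => ?_
    rw [map_pow, map_add, map_one, map_mul, aeval_X, hev, mul_assoc]
  refine ⟨D₁ - D₂, ∏ i, (1 + X a * ya lam b i) ^ (-lam i).toNat,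
    fun B _ _ Y hY => ⟨?_, hprod B Y _⟩, fun B _ _ Y ha hY => ⟨?_, ?_, ?_, ?_⟩⟩
  · have h3 := congrArg (aeval Y) h1
    have h4 := congrArg (aeval Y) h2
    rw [hprod, map_add, map_add, map_one, map_mul, map_mul, map_pow, aeval_X, map_sum] at h3 h4
    simp only [map_mul, hev, map_natCast] at h3 h4
    have h5 := hlin B fun i => Y (b i)
    rw [hY] at h5
    rw [h3, h4, map_sub]
    linear_combination (-Y a) * h5
  · have h3 := (h1' B (aeval Y).toRingHom (by
      show aeval Y (X a) = 0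
      rw [aeval_X, ha])).1
    have h4 := (h2' B (aeval Y).toRingHom (by
      show aeval Y (X a) = 0
      rw [aeval_X, ha])).1
    have h6 : ∀ i, (aeval Y).toRingHom (ya (p := p) lam b i) = Y (b i) * (lam i : B)⁻¹ :=
      fun i => hev B Y i
    simp only [h6] at h3 h4
    rw [sum_sig (fun i => (lam i).toNat) (fun i => Y (b i) * (lam i : B)⁻¹),
      sum_sig (fun i => (lam i).toNat) (fun i => (Y (b i) * (lam i : B)⁻¹) ^ 2)] at h3
    rw [sum_sig (fun i => (-lam i).toNat) (fun i => Y (b i) * (lam i : B)⁻¹),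
      sum_sig (fun i => (-lam i).toNat) (fun i => (Y (b i) * (lam i : B)⁻¹) ^ 2)] at h4
    have h5 := hlin B fun i => Y (b i)
    have h7 := hlin B fun i => Y (b i) ^ 2 * (lam i : B)⁻¹
    rw [hY] at h5
    have h8 : ∀ i, (Y (b i) * (lam i : B)⁻¹) ^ 2 = Y (b i) ^ 2 * (lam i : B)⁻¹ * (lam i : B)⁻¹ :=
      fun i => by ring
    simp only [h8] at h3 h4
    have h9 : ∀ q : MvPolynomial υ (ZMod p), (aeval Y).toRingHom q = aeval Y q := fun q => rfl
    rw [h9] at h3 h4
    rw [map_sub, mul_sub, h3, h4, ← h7]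
    linear_combination (∑ i, (((lam i).toNat : ℕ) : B) * (Y (b i) * (lam i : B)⁻¹) +
        ∑ i, (((-lam i).toNat : ℕ) : B) * (Y (b i) * (lam i : B)⁻¹)) * h5
  · refine ⟨∑ i, (((lam i).toNat : ℕ) : B) * (Y (b i) * (lam i : B)⁻¹), fun i => ?_⟩
    have hX : pderiv (b i) (X a : MvPolynomial υ (ZMod p)) = 0 := by
      rw [pderiv_X, Pi.single_eq_of_ne (Ne.symm (hab i))]
    have h3 := (h1' B (aeval Y).toRingHom (by
      show aeval Y (X a) = 0
      rw [aeval_X, ha])).2 (b i) hX
    have h4 := (h2' B (aeval Y).toRingHom (by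
      show aeval Y (X a) = 0
      rw [aeval_X, ha])).2 (b i) hX
    have h9 : ∀ q : MvPolynomial υ (ZMod p), (aeval Y).toRingHom q = aeval Y q := fun q => rfl
    simp only [h9] at h3 h4
    have hd : ∀ j, aeval Y (pderiv (b i) (ya (p := p) lam b j)) =
        (if j = i then (1 : B) else 0) * (lam j : B)⁻¹ := by
      intro j
      rw [ya, Derivation.leibniz, pderiv_C, smul_zero, zero_add, pderiv_X, smul_eq_mul, map_mul,
        aeval_C, hcast, mul_comm]
      congr 1
      by_cases hj : j = i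
      · rw [if_pos hj, hj, Pi.single_eq_same, map_one]
      · rw [if_neg hj, Pi.single_eq_of_ne (fun h => hj (hb h)), map_zero]
    simp only [hd, hev] at h3 h4
    have hs : ∀ n : Fin R → ℕ, ∑ x : (Σ i, Fin (n i)), (if x.1 = i then (1 : B) else 0) *
        (lam x.1 : B)⁻¹ = ∑ j, (n j : B) * ((if j = i then (1 : B) else 0) * (lam j : B)⁻¹) :=
      fun n => sum_sig n fun j => (if j = i then (1 : B) else 0) * (lam j : B)⁻¹
    have hs' : ∀ n : Fin R → ℕ, ∑ x : (Σ i, Fin (n i)), Y (b x.1) * (lam x.1 : B)⁻¹ *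
        ((if x.1 = i then (1 : B) else 0) * (lam x.1 : B)⁻¹) = ∑ j, (n j : B) *
          (Y (b j) * (lam j : B)⁻¹ * ((if j = i then (1 : B) else 0) * (lam j : B)⁻¹)) :=
      fun n => sum_sig n fun j => Y (b j) * (lam j : B)⁻¹ *
        ((if j = i then (1 : B) else 0) * (lam j : B)⁻¹)
    have hs'' : ∀ n : Fin R → ℕ, ∑ x : (Σ i, Fin (n i)), Y (b x.1) * (lam x.1 : B)⁻¹ =
        ∑ j, (n j : B) * (Y (b j) * (lam j : B)⁻¹) :=
      fun n => sum_sig n fun j => Y (b j) * (lam j : B)⁻¹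
    rw [hs, hs', hs''] at h3 h4
    have h5 := hlin B fun j => Y (b j)
    have h6 := hlin B fun j => if j = i then (1 : B) else 0
    have h7 := hlin B fun j => Y (b j) * (lam j : B)⁻¹ * (if j = i then (1 : B) else 0)
    rw [hY] at h5
    rw [Finset.sum_ite_eq' Finset.univ i, if_pos (Finset.mem_univ i)] at h6
    have h8 : ∑ j, Y (b j) * (lam j : B)⁻¹ * (if j = i then (1 : B) else 0) =
        Y (b i) * (lam i : B)⁻¹ := by
      rw [Finset.sum_eq_single i]
      · rw [if_pos rfl, mul_one]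
      · intro j _ hj
        rw [if_neg hj, mul_zero]
      · intro h; exact absurd (Finset.mem_univ _) h
    rw [h8] at h7
    simp only [mul_assoc] at h3 h4 h5 h6 h7 ⊢
    rw [map_sub, map_sub, h3, h4]
    linear_combination (∑ i, (((lam i).toNat : ℕ) : B) * (Y (b i) * (lam i : B)⁻¹)) * h6 +
      (∑ j, (((-lam j).toNat : ℕ) : B) * ((if j = i then (1 : B) else 0) * (lam j : B)⁻¹)) * h5 - h7
  · rw [hprod]
    refine Finset.prod_eq_one fun i _ => ?_
    rw [ha, zero_mul, zero_mul, add_zero, one_pow]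
  · intro l hl
    have h3 : ∀ s : Finset (Fin R), ∃ q, ∏ i ∈ s, (1 + X a * ya (p := p) lam b i) ^ (-lam i).toNat =
        1 + X a * q := by
      intro s
      refine Finset.induction_on s ⟨0, by simp⟩ fun i s hi ih => ?_
      obtain ⟨q, hq⟩ := ih
      rw [Finset.prod_insert hi, hq]
      have h4 : ∀ n : ℕ, ∃ q', (1 + X a * ya (p := p) lam b i) ^ n = 1 + X a * q' := by
        intro n
        induction n with
        | zero => exact ⟨0, by simp⟩
        | succ n ih' =>
          obtain ⟨q', hq'⟩ := ih'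
          exact ⟨q' + ya lam b i + X a * q' * ya lam b i, by rw [pow_succ, hq']; ring⟩
      obtain ⟨q', hq'⟩ := h4 (-lam i).toNat
      exact ⟨q + q' + X a * q' * q, by rw [hq']; ring⟩
    obtain ⟨q, hq⟩ := h3 Finset.univ
    rw [hq, map_add, Derivation.leibniz, pderiv_X, Pi.single_eq_of_ne (Ne.symm hl), smul_zero,
      add_zero, smul_eq_mul, ← MvPolynomial.C_1, pderiv_C, zero_add, map_mul, aeval_X, ha, zero_mul]

end Circuit

end Pool.Agent.H96.Z
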