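import Pool.Agent.H96.Z.LE
import Pool.Agent.H96.S.GA

/-!
# The global data of a circuit variety
-/

set_option autoImplicit false
set_option linter.unusedSectionVars false

namespace Pool.Agent.H96.Z

open MvPolynomial IsLocalRing Pool.Agent.H96.Reg Pool.Agent.H96.VL Pool.Agent.H96.W
open Pool.Agent.H96.S (Va Ndg FL FD cond_t cond_f gen_map mon_map aeval_am)

/-- The global data. -/
structure GD (p : ℕ) (K F : Type) [Field K] [Algebra (ZMod p) K] [Field F] [Algebra (ZMod p) F]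
    [Algebra F K] (A J : Type) [Fintype A] [DecidableEq A] (d rh : ℕ) {R N : ℕ}
    (lam : Fin (R + 1) → ℤ) (Nw : Fin N → ℕ) (ew : Fin N → Fin (R + 1) → ℤ) (M : ℕ) where
  on : Bool
  f : F
  h : Fin rh → F
  fd : FD p false on F A J d rh M f h
  z : Fin (R + 1) → K
  z0 : ∀ i, z i ≠ 0
  zs : ∑ i, z i = 0
  lamp : ∀ i, ¬ (p : ℤ) ∣ lam i
  lams : ∑ i, lam i = 0
  lamM : ∀ i, |lam i| ≤ M
  ic : Fin rh
  eqc : mon z lam = algebraMap F K (h ic)
  dn : Bool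
  idl : Fin rh
  eqd : mon z lam = (∏ i, (lam i : K) ^ lam i) * (1 + cond dn (algebraMap F K (h idl)) 0)
  w : Fin N → K
  w0 : ∀ c, w c ≠ 0
  Nw0 : ∀ c, ¬ p ∣ Nw c
  iw : Fin N → Fin rh
  KM : ∀ c, w c ^ Nw c = algebraMap F K (h (iw c)) * mon z (ew c)
  eM : ∀ c i, |ew c i| ≤ M
  eS : ∀ c, ∑ i, ew c i = 0
  sne : ∃ i : Fin R, (lam 0 : K) * z i.succ - lam i.succ * z 0 ≠ 0
  gen : ∀ R : Subring K, (∀ x ∈ R, x ≠ 0 → x⁻¹ ∈ R) → (∀ w : F, algebraMap F K w ∈ R) →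
    (∀ i j, z i / z j ∈ R) → (∀ c, w c ∈ R) → R = ⊤

theorem mon_div {Λ : Type} [Fintype Λ] {K : Type} [Field K] (f : Λ → K) (a : K) (e : Λ → ℤ)
    (ha : a ≠ 0) (he : ∑ μ, e μ = 0) : mon (fun μ => f μ / a) e = mon f e := by
  rw [mon, mon]
  have h1 : ∏ μ, (f μ / a) ^ e μ = (∏ μ, f μ ^ e μ) / ∏ μ, a ^ e μ := by
    rw [← Finset.prod_div_distrib]
    exact Finset.prod_congr rfl fun μ _ => div_zpow _ _ _
  have h2 : ∏ μ, a ^ e μ = a ^ ∑ μ, e μ := by
    classical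
    refine Finset.induction_on (Finset.univ : Finset Λ) (by simp) fun μ s hμ ih => ?_
    rw [Finset.prod_insert hμ, Finset.sum_insert hμ, ih, zpow_add₀ ha]
  rw [h1, h2, he, zpow_zero, div_one]

variable {p : ℕ} [Fact p.Prime] {K F : Type} [Field K] [Algebra (ZMod p) K] [Field F]
  [Algebra (ZMod p) F] [Algebra F K] [IsScalarTower (ZMod p) F K] {A J : Type} [Fintype A]
  [DecidableEq A] {d rh R N : ℕ} {lam : Fin (R + 1) → ℤ} {Nw : Fin N → ℕ}
  {ew : Fin N → Fin (R + 1) → ℤ} {M : ℕ}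

namespace GD

/-- The forms which measure the distance to the critical point. -/
def sf (G : GD p K F A J d rh lam Nw ew M) (i : Fin R) : K :=
  (lam 0 : K) * G.z i.succ - lam i.succ * G.z 0

/-- The local choices at a valuation. -/
structure Lc (G : GD p K F A J d rh lam Nw ew M) (V : ValuationSubring K) where
  fl : FL p false G.on d rh M G.f G.h G.fd.c G.fd.q G.fd.T G.fd.S (WV V F)
  m : Fin (R + 1)
  maxz : ∀ i, V.valuation (G.z i) ≤ V.valuation (G.z m)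
  i0 : Fin R
  maxs : ∀ i, V.valuation (G.sf i) ≤ V.valuation (G.sf i0)
  s0 : G.sf i0 ≠ 0

/-- The local data. -/
noncomputable def toLD (G : GD p K F A J d rh lam Nw ew M) {V : ValuationSubring K}
    (D : G.Lc V) : LD p V A d lam Nw ew M where
  n := D.fl.n
  y := fun s => algebraMap F K (D.fl.y s)
  G := D.fl.G
  D := D.fl.D
  l := D.fl.l
  t := fun a => algebraMap F K (D.fl.t a)
  vy := fun s => wv_le_one.mp (D.fl.loc.le _ (D.fl.yR s))
  rel := fun j => by rw [aeval_am, D.fl.rel, map_zero]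
  vD := by rw [aeval_am]; exact wv_eq_one.mp D.fl.vD
  ndg := D.fl.ndg
  l0 := fun a h => by rw [D.fl.l0 a h, map_one]
  l1 := fun a x h => by
    obtain ⟨h1, h2, h3⟩ := D.fl.l1 a x h
    exact ⟨wv_lt_one.mp h1, (map_ne_zero _).mpr h2, by rw [h3]⟩
  linj := D.fl.linj
  lamp := G.lamp
  lams := G.lams
  lamM := G.lamM
  ζ := fun i => G.z i / G.z D.m
  ζ0 := fun i => div_ne_zero (G.z0 i) (G.z0 _)
  vζ := fun i => by
    rw [map_div₀]
    exact div_le_one_of_le₀ (D.maxz i) zero_le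
  m := D.m
  ζm := div_self (G.z0 _)
  ζs := by rw [← Finset.sum_div, G.zs, zero_div]
  qc := D.fl.qv G.ic
  κc := D.fl.κ G.ic
  vqc := wv_eq_one.mp (D.fl.vq _)
  κcM := D.fl.κM _
  eqc := by
    rw [mon_div _ _ _ (G.z0 _) G.lams, G.eqc, mon_map, ← map_mul, ← D.fl.eqh]
  σ := G.sf D.i0 / G.z D.m
  σ0 := div_ne_zero D.s0 (G.z0 _)
  i0 := D.i0
  η := fun i => G.sf i / G.sf D.i0
  ηi0 := div_self D.s0
  vη := fun i => by
    rw [map_div₀]
    exact div_le_one_of_le₀ (D.maxs i) zero_le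
  eqη := fun i => by
    have h1 := D.s0
    have h2 := G.z0 D.m
    have h3 : (lam 0 : K) * G.z i.succ - lam i.succ * G.z 0 = G.sf i := rfl
    field_simp
    exact h3
  dn := G.dn
  qd := D.fl.qv G.idl
  κd := D.fl.κ G.idl
  vqd := wv_eq_one.mp (D.fl.vq _)
  κdM := D.fl.κM _
  eqd := by
    rw [mon_div _ _ _ (G.z0 _) G.lams, G.eqd, mon_map, ← map_mul, ← D.fl.eqh]
  w := G.w
  w0 := G.w0
  Nw0 := G.Nw0
  qw := fun c => D.fl.qv (G.iw c)
  κw := fun c => D.fl.κ (G.iw c)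
  vqw := fun c => wv_eq_one.mp (D.fl.vq _)
  κwM := fun c => D.fl.κM _
  KM := fun c => by
    rw [mon_div _ _ _ (G.z0 _) (G.eS c), G.KM, mon_map, ← map_mul, ← D.fl.eqh]
  eM := G.eM

end GD

end Pool.Agent.H96.Z
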