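import Pool.Agent.H96.Z.GA
import Pool.Agent.H96.S.GB

/-!
# The finite sets attached to the global data
-/

set_option autoImplicit false
set_option linter.unusedSectionVars false

namespace Pool.Agent.H96.Z

open MvPolynomial IsLocalRing Pool.Agent.H96.Reg Pool.Agent.H96.VL Pool.Agent.H96.W
open Pool.Agent.H96.S (Va Ndg FL FD cond_t cond_f gen_map mon_map aeval_am)
open scoped Pointwise

variable {p : ℕ} [Fact p.Prime] {K F : Type} [Field K] [Algebra (ZMod p) K] [Field F]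
  [Algebra (ZMod p) F] [Algebra F K] [IsScalarTower (ZMod p) F K] {A J : Type} [Fintype A]
  [DecidableEq A] {d rh R N : ℕ} {lam : Fin (R + 1) → ℤ} {Nw : Fin N → ℕ}
  {ew : Fin N → Fin (R + 1) → ℤ} {M : ℕ}

namespace GD

variable (G : GD p K F A J d rh lam Nw ew M)

section Sets

variable [DecidableEq K]

/-- The set of the twists. -/
noncomputable def sJ [Fintype J] : Finset K := Finset.univ.image fun j => algebraMap F K (G.fd.c j)

/-- The set of the forms. -/
noncomputable def sz : Finset K := Finset.univ.image G.z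

/-- The set of the differences. -/
noncomputable def sS : Finset K := Finset.univ.image G.sf

/-- The sets of the coordinates. -/
noncomputable def ss : Ix A R N → Finset K :=
  Sum.elim (fun a => (G.fd.T a).image (algebraMap F K)) (Sum.elim (fun i => {G.z i})
    (Sum.elim (fun _ => G.sS) fun c => {G.w c} *
      ((∏ a, (G.fd.T a).image (algebraMap F K) ^ M) * ∏ i, {G.z i} ^ M)))

/-- The denominators. -/
noncomputable def sL [Fintype J] : Ix A R N → Finset K :=
  Sum.elim (fun _ => G.sJ) (Sum.elim (fun _ => G.sz) (Sum.elim (fun _ => G.sz)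
    fun _ => G.sJ ^ (Fintype.card A * M) * G.sz ^ ((R + 1) * M)))

/-- The sets which detect the base. -/
noncomputable def base [Fintype J] : Finset (Finset K) :=
  G.fd.base.image (fun s => s.image (algebraMap F K)) ∪
    ({G.sz} ∪ ({G.sS} ∪ Finset.univ.image fun c =>
      G.ss (Sum.inr (Sum.inr (Sum.inr c))) ∪ G.sL (Sum.inr (Sum.inr (Sum.inr c)))))

end Sets

variable {G} {V : ValuationSubring K}

/-- The twist of the Kummer coordinates. -/
noncomputable def tw (D : G.Lc V) : K :=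
  algebraMap F K (G.fd.c D.fl.j) ^ (Fintype.card A * M) * G.z D.m ^ ((R + 1) * M)

theorem tw_ne (D : G.Lc V) : tw D ≠ 0 :=
  mul_ne_zero (pow_ne_zero _ ((map_ne_zero _).mpr (G.fd.c0 _))) (pow_ne_zero _ (G.z0 _))

/-- The twists of the coordinates. -/
noncomputable def TT (D : G.Lc V) : Ix A R N → K :=
  Sum.elim (fun _ => algebraMap F K (G.fd.c D.fl.j)) (Sum.elim (fun _ => G.z D.m)
    (Sum.elim (fun _ => G.z D.m) fun _ => tw D))

/-- The subring contains the ring of the factor and the normalized elements. -/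
structure Bs (D : G.Lc V) (R' : Subring K) : Prop where
  loc : VLocal V R'
  b1 : ∀ w ∈ D.fl.R, algebraMap F K w ∈ R'
  bz : ∀ i, G.z i / G.z D.m ∈ R'
  bs : ∀ i, G.sf i / G.sf D.i0 ∈ R'
  bw : ∀ c, G.w c * (G.toLD D).pt ∈ R'

variable {D : G.Lc V} {R' : Subring K}

theorem sf_div_mem (hz : ∀ i, G.z i / G.z D.m ∈ R') (i : Fin R) : G.sf i / G.z D.m ∈ R' := by
  have h1 : G.sf i / G.z D.m = (lam 0 : K) * (G.z i.succ / G.z D.m) -
      lam i.succ * (G.z 0 / G.z D.m) := by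
    rw [sf]; ring
  rw [h1]
  exact R'.sub_mem (R'.mul_mem (intCast_mem _ _) (hz _)) (R'.mul_mem (intCast_mem _ _) (hz _))

theorem Bs.τ_mem (h : Bs D R') (α : Ix A R N) : (G.toLD D).τ α ∈ R' := by
  rcases α with a | l | c | c
  · exact h.b1 _ (D.fl.tR a)
  · exact h.bz l
  · exact sf_div_mem h.bz D.i0
  · exact h.bw c

theorem Bs.y_mem (h : Bs D R') (s : Va D.fl.n d) : (G.toLD D).y s ∈ R' := h.b1 _ (D.fl.yR s)

theorem bs_self (D : G.Lc V) : Bs D V.toSubring where
  loc := ⟨fun x hx => (V.valuation_le_one_iff x).mpr hx, fun x hx h1 => by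
    have h2 : V.valuation x⁻¹ = 1 := by rw [map_inv₀, h1, inv_one]
    exact (V.valuation_le_one_iff _).mp h2.le⟩
  b1 := fun w hw => (V.valuation_le_one_iff _).mp (wv_le_one.mp (D.fl.loc.le _ hw))
  bz := fun l => (V.valuation_le_one_iff _).mp ((G.toLD D).vζ l)
  bs := fun l => (V.valuation_le_one_iff _).mp ((G.toLD D).vη l)
  bw := fun c => (V.valuation_le_one_iff _).mp ((G.toLD D).vτw c)

section Gens

variable [DecidableEq K]

theorem gen_sz (h : ∀ i, G.z i / G.z D.m ∈ R') : Gen R' G.sz (G.z D.m) := by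
  refine ⟨G.z0 _, fun g hg => ?_, _, Finset.mem_image_of_mem _ (Finset.mem_univ D.m),
    by rw [div_self (G.z0 _)]; exact R'.one_mem, G.z0 _⟩
  obtain ⟨l, -, rfl⟩ := Finset.mem_image.mp hg
  exact h l

theorem gen_sS (h : ∀ i, G.sf i / G.sf D.i0 ∈ R') : Gen R' G.sS (G.sf D.i0) := by
  refine ⟨D.s0, fun g hg => ?_, _, Finset.mem_image_of_mem _ (Finset.mem_univ D.i0),
    by rw [div_self D.s0]; exact R'.one_mem, D.s0⟩
  obtain ⟨l, -, rfl⟩ := Finset.mem_image.mp hg
  exact h l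

theorem gen_sJ [Fintype J] (b1 : ∀ w ∈ D.fl.R, algebraMap F K w ∈ R') :
    Gen R' G.sJ (algebraMap F K (G.fd.c D.fl.j)) := by
  have h0 : algebraMap F K (G.fd.c D.fl.j) ≠ 0 := (map_ne_zero _).mpr (G.fd.c0 _)
  refine ⟨h0, fun g hg => ?_, _, Finset.mem_image_of_mem _ (Finset.mem_univ D.fl.j),
    by rw [div_self h0]; exact R'.one_mem, h0⟩
  obtain ⟨l, -, rfl⟩ := Finset.mem_image.mp hg
  rw [← map_div₀]
  exact b1 _ (D.fl.crat l)

theorem gen_sT (b1 : ∀ w ∈ D.fl.R, algebraMap F K w ∈ R') (a : A) :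
    Gen R' ((G.fd.T a).image (algebraMap F K))
      (algebraMap F K (D.fl.t a) * algebraMap F K (G.fd.c D.fl.j)) := by
  have h1 := gen_map b1 (D.fl.gT a)
  rwa [map_mul] at h1

theorem gen_ss_w (b1 : ∀ w ∈ D.fl.R, algebraMap F K w ∈ R') (c : Fin N) :
    Gen R' (G.ss (Sum.inr (Sum.inr (Sum.inr c)))) (tw D * (G.w c * (G.toLD D).pt)) := by
  have h1 := (Gen.singleton (R := R') (G.w0 c)).mul
    ((Gen.prod (R := R') Finset.univ (s := fun a => (G.fd.T a).image (algebraMap F K) ^ M)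
      (T := fun a => (algebraMap F K (D.fl.t a) * algebraMap F K (G.fd.c D.fl.j)) ^ M)
      fun a _ => (gen_sT b1 a).pow M).mul (Gen.prod (R := R') Finset.univ
        (s := fun i => ({G.z i} : Finset K) ^ M) (T := fun i => G.z i ^ M)
        fun i _ => (Gen.singleton (G.z0 i)).pow M))
  have h3 : ∏ i, G.z i ^ M = G.z D.m ^ ((R + 1) * M) * mon (G.toLD D).ζ fun _ => (M : ℤ) := by
    have h4 : G.z D.m ^ ((R + 1) * M) = ∏ _i : Fin (R + 1), G.z D.m ^ M := by
      rw [Finset.prod_const, Finset.card_univ, Fintype.card_fin, ← pow_mul, mul_comm]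
    rw [h4, mon, ← Finset.prod_mul_distrib]
    refine Finset.prod_congr rfl fun i _ => ?_
    have h5 : (G.toLD D).ζ i = G.z i / G.z D.m := rfl
    rw [h5, zpow_natCast, ← mul_pow, mul_div_cancel₀ _ (G.z0 D.m)]
  have h4 : ∏ a, (algebraMap F K (D.fl.t a) * algebraMap F K (G.fd.c D.fl.j)) ^ M =
      algebraMap F K (G.fd.c D.fl.j) ^ (Fintype.card A * M) *
        mon (G.toLD D).t fun _ => (M : ℤ) := by
    have h4 : algebraMap F K (G.fd.c D.fl.j) ^ (Fintype.card A * M) =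
        ∏ _a : A, algebraMap F K (G.fd.c D.fl.j) ^ M := by
      rw [Finset.prod_const, Finset.card_univ, ← pow_mul, mul_comm]
    rw [h4, mon, ← Finset.prod_mul_distrib]
    refine Finset.prod_congr rfl fun a _ => ?_
    have h5 : (G.toLD D).t a = algebraMap F K (D.fl.t a) := rfl
    rw [h5, zpow_natCast, mul_pow, mul_comm]
  have h2 : G.w c * ((∏ a, (algebraMap F K (D.fl.t a) * algebraMap F K (G.fd.c D.fl.j)) ^ M) *
      ∏ i, G.z i ^ M) = tw D * (G.w c * (G.toLD D).pt) := by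
    rw [h3, h4, tw, LD.pt]; ring
  rw [h2] at h1
  exact h1

variable [Fintype J]

theorem gen_sL_w (b1 : ∀ w ∈ D.fl.R, algebraMap F K w ∈ R')
    (h : ∀ i, G.z i / G.z D.m ∈ R') (c : Fin N) :
    Gen R' (G.sL (Sum.inr (Sum.inr (Sum.inr c)))) (tw D) :=
  ((gen_sJ b1).pow _).mul ((gen_sz h).pow _)

theorem Bs.gen_ss (h : Bs D R') (α : Ix A R N) :
    Gen R' (G.ss α) (TT D α * (G.toLD D).τ α) := by
  rcases α with a | l | c | c
  · have h1 := gen_sT h.b1 a
    rw [mul_comm] at h1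
    exact h1
  · show Gen R' {G.z l} (G.z D.m * (G.z l / G.z D.m))
    rw [mul_div_cancel₀ _ (G.z0 D.m)]
    exact Gen.singleton (G.z0 l)
  · show Gen R' G.sS (G.z D.m * (G.sf D.i0 / G.z D.m))
    rw [mul_div_cancel₀ _ (G.z0 D.m)]
    exact gen_sS h.bs
  · exact gen_ss_w h.b1 c

theorem Bs.gen_sL (h : Bs D R') (α : Ix A R N) : Gen R' (G.sL α) (TT D α) := by
  rcases α with a | l | c | c
  · exact gen_sJ h.b1
  · exact gen_sz h.bz
  · exact gen_sz h.bz
  · exact gen_sL_w h.b1 h.bz c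

theorem Bs.prin (h : Bs D R') (hp : ∀ s ∈ G.fd.base, Prin D.fl.R s) (s : Finset K)
    (hs : s ∈ G.base) : Prin R' s := by
  rcases Finset.mem_union.mp hs with hs | hs
  · obtain ⟨s', hs', rfl⟩ := Finset.mem_image.mp hs
    obtain ⟨T, hT⟩ := hp s' hs'
    exact ⟨_, gen_map h.b1 hT⟩
  rcases Finset.mem_union.mp hs with hs | hs
  · rw [Finset.mem_singleton.mp hs]
    exact ⟨_, gen_sz h.bz⟩
  rcases Finset.mem_union.mp hs with hs | hs
  · rw [Finset.mem_singleton.mp hs]
    exact ⟨_, gen_sS h.bs⟩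
  · obtain ⟨c, -, rfl⟩ := Finset.mem_image.mp hs
    refine (h.gen_ss (Sum.inr (Sum.inr (Sum.inr c)))).prin_union
      (h.gen_sL (Sum.inr (Sum.inr (Sum.inr c)))) (Or.inl ?_)
    have h0 : TT D (Sum.inr (Sum.inr (Sum.inr c))) ≠ 0 := tw_ne D
    rw [mul_div_cancel_left₀ _ h0]
    exact h.bw c

/-- Detection. -/
theorem bs_of_prin (D : G.Lc V) (hR : VLocal V R')
    (hmin : ∀ R₁ : Subring F, VLocal (WV V F) R₁ → (∀ s ∈ G.fd.base, Prin R₁ s) → D.fl.R ≤ R₁)
    (hs : ∀ s ∈ G.base, Prin R' s) : Bs D R' := by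
  classical
  have b1 : ∀ w ∈ D.fl.R, algebraMap F K w ∈ R' := fun w hw =>
    hmin (R'.comap (algebraMap F K)) (vlocal_comap hR) (fun s hs' => prin_comap
      (hs _ (Finset.mem_union_left _ (Finset.mem_image_of_mem _ hs')))) hw
  have bz : ∀ i, G.z i / G.z D.m ∈ R' := by
    obtain ⟨T, hT⟩ := hs G.sz (Finset.mem_union_right _ (Finset.mem_union_left _
      (Finset.mem_singleton_self _)))
    have h1 : Gen R' G.sz (G.z D.m) := hT.of_max hR
      (Finset.mem_image_of_mem _ (Finset.mem_univ D.m)) fun g hg => by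
        obtain ⟨l, -, rfl⟩ := Finset.mem_image.mp hg
        exact D.maxz l
    exact fun l => h1.mem _ (Finset.mem_image_of_mem _ (Finset.mem_univ l))
  have bs : ∀ i, G.sf i / G.sf D.i0 ∈ R' := by
    obtain ⟨T, hT⟩ := hs G.sS (Finset.mem_union_right _ (Finset.mem_union_right _
      (Finset.mem_union_left _ (Finset.mem_singleton_self _))))
    have h1 : Gen R' G.sS (G.sf D.i0) := hT.of_max hR
      (Finset.mem_image_of_mem _ (Finset.mem_univ D.i0)) fun g hg => by
        obtain ⟨l, -, rfl⟩ := Finset.mem_image.mp hg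
        exact D.maxs l
    exact fun l => h1.mem _ (Finset.mem_image_of_mem _ (Finset.mem_univ l))
  refine ⟨hR, b1, bz, bs, fun c => ?_⟩
  have h1 := gen_ss_w (D := D) b1 c
  have h2 := gen_sL_w (D := D) b1 bz c
  have h3 := tw_ne D
  have h4 := h1.div_mem_of_prin hR h2
    (u := G.ss (Sum.inr (Sum.inr (Sum.inr c))) ∪ G.sL (Sum.inr (Sum.inr (Sum.inr c))))
    Finset.subset_union_left Finset.subset_union_right (fun g hg => by
      rcases Finset.mem_union.mp hg with hg | hg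
      · refine (h1.val_le hR hg).trans ?_
        rw [map_mul]
        exact mul_le_of_le_one_right' ((G.toLD D).vτw c)
      · exact h2.val_le hR hg)
    (hs _ (Finset.mem_union_right _ (Finset.mem_union_right _ (Finset.mem_union_right _
      (Finset.mem_image.mpr ⟨c, Finset.mem_univ _, rfl⟩)))))
  rwa [mul_div_cancel_left₀ _ h3] at h4

/-- The local choices exist. -/
theorem exists_lc (G : GD p K F A J d rh lam Nw ew M) (V : ValuationSubring K) :
    ∃ D : G.Lc V, (∀ s ∈ G.fd.base, Prin D.fl.R s) ∧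
      ∀ R₁ : Subring F, VLocal (WV V F) R₁ → (∀ s ∈ G.fd.base, Prin R₁ s) → D.fl.R ≤ R₁ := by
  classical
  obtain ⟨L, h1, h2⟩ := G.fd.loc (WV V F)
  obtain ⟨m, -, hm⟩ := Finset.exists_max_image Finset.univ (fun i => V.valuation (G.z i))
    ⟨0, Finset.mem_univ _⟩
  obtain ⟨i1, hi1⟩ := G.sne
  obtain ⟨i0, -, hi0⟩ := Finset.exists_max_image Finset.univ (fun i => V.valuation (G.sf i))
    ⟨i1, Finset.mem_univ _⟩
  refine ⟨⟨L, m, fun i => hm i (Finset.mem_univ _), i0, fun i => hi0 i (Finset.mem_univ _),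
    fun h => ?_⟩, h1, h2⟩
  have h3 := hi0 i1 (Finset.mem_univ _)
  rw [h, map_zero] at h3
  exact hi1 ((Valuation.zero_iff _).mp (le_antisymm h3 zero_le))

theorem base_ne (G : GD p K F A J d rh lam Nw ew M) (s : Finset K)
    (hs : s ∈ G.base) : ∃ g ∈ s, g ≠ 0 := by
  obtain ⟨D, -, -⟩ := exists_lc G ⊤
  rcases Finset.mem_union.mp hs with hs | hs
  · obtain ⟨s', hs', rfl⟩ := Finset.mem_image.mp hs
    obtain ⟨g, hg, hg0⟩ := G.fd.base0 s' hs'
    exact ⟨_, Finset.mem_image_of_mem _ hg, (map_ne_zero _).mpr hg0⟩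
  rcases Finset.mem_union.mp hs with hs | hs
  · rw [Finset.mem_singleton.mp hs]
    exact ⟨_, Finset.mem_image_of_mem _ (Finset.mem_univ D.m), G.z0 _⟩
  rcases Finset.mem_union.mp hs with hs | hs
  · rw [Finset.mem_singleton.mp hs]
    exact ⟨_, Finset.mem_image_of_mem _ (Finset.mem_univ D.i0), D.s0⟩
  · obtain ⟨c, -, rfl⟩ := Finset.mem_image.mp hs
    obtain ⟨g, hg, -, h0⟩ := (gen_ss_w (bs_self D).b1 c).ex
    exact ⟨g, Finset.mem_union_left _ hg, h0⟩

end Gens

/-- The field of the factor. -/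
theorem F_mem (D : G.Lc V) {E : Subring K} (hinv : ∀ x ∈ E, x ≠ 0 → x⁻¹ ∈ E)
    (h : ∀ w ∈ D.fl.R, algebraMap F K w ∈ E) (w : F) : algebraMap F K w ∈ E := by
  obtain ⟨a, ha, s, hs, hs0, rfl⟩ := D.fl.fr w
  rw [map_div₀, div_eq_mul_inv]
  exact E.mul_mem (h a ha) (hinv _ (h s hs) ((map_ne_zero _).mpr hs0))

/-- A subfield which contains the coordinates and the ring of the factor is everything. -/
theorem top_of_mem (D : G.Lc V) {E : Subring K} (hinv : ∀ x ∈ E, x ≠ 0 → x⁻¹ ∈ E)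
    (h : ∀ w ∈ D.fl.R, algebraMap F K w ∈ E) (hz : ∀ i, G.z i / G.z D.m ∈ E)
    (hw : ∀ c, G.w c * (G.toLD D).pt ∈ E) : E = ⊤ := by
  have hpt : (G.toLD D).pt⁻¹ ∈ E := by
    refine hinv _ (Subring.mul_mem _ (Subring.prod_mem _ fun a _ => ?_)
      (Subring.prod_mem _ fun i _ => ?_)) (G.toLD D).pt_ne_zero
    · show algebraMap F K (D.fl.t a) ^ (M : ℤ) ∈ E
      rw [zpow_natCast]
      exact E.pow_mem (h _ (D.fl.tR a)) _
    · show (G.z i / G.z D.m) ^ (M : ℤ) ∈ E
      rw [zpow_natCast]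
      exact E.pow_mem (hz i) _
  refine G.gen E hinv (F_mem D hinv h) (fun i j => ?_) fun c => ?_
  · have h1 := E.mul_mem (hz i) (hinv _ (hz j) (div_ne_zero (G.z0 _) (G.z0 _)))
    have h2 : G.z i / G.z D.m * (G.z j / G.z D.m)⁻¹ = G.z i / G.z j := by
      have h3 := G.z0 D.m
      have h4 := G.z0 j
      field_simp
    rwa [h2] at h1
  · have h3 := E.mul_mem (hw c) hpt
    rwa [mul_assoc, mul_inv_cancel₀ (G.toLD D).pt_ne_zero, mul_one] at h3

end GD

end Pool.Agent.H96.Z
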