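import Pool.Agent.H96.Z.GB
import Pool.Agent.H96.W2.Reg

/-!
# Models of circuit varieties
-/

set_option autoImplicit false
set_option linter.unusedSectionVars false

namespace Pool.Agent.H96.Z

open MvPolynomial IsLocalRing Pool.Agent.H96.Reg Pool.Agent.H96.VL Pool.Agent.H96.W
open Pool.Agent.H96.W2 (resK)
open Pool.Agent.H96.W2 (BX mem_BX zero_mem_BX single_mem_BX single_one_mem_BX neg_mem_BX)
open Pool.Agent.H96.S (Va Ndg FL FD cond_t cond_f gen_map mon_map aeval_am)
open scoped Pointwise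

variable {p : ℕ} [Fact p.Prime] {K F : Type} [Field K] [Algebra (ZMod p) K] [Field F]
  [Algebra (ZMod p) F] [Algebra F K] [IsScalarTower (ZMod p) F K] {A J : Type} [Fintype A]
  [DecidableEq A] {d rh R N : ℕ} {lam : Fin (R + 1) → ℤ} {Nw : Fin N → ℕ}
  {ew : Fin N → Fin (R + 1) → ℤ} {M : ℕ} {Θ : Type}

namespace GD

variable {G : GD p K F A J d rh lam Nw ew M} {V : ValuationSubring K}

/-- The ring of the chart. -/
theorem cring_facts (D : G.Lc V) {Y : Θ → K} (hY : ∀ θ, V.valuation (Y θ) ≤ 1)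
    {C : Cone (Ix A R N)} (hC : IsCone C)
    (hb : ∀ j, V.valuation (mon (G.toLD D).τ (C.b j)) ≤ 1) :
    VLocal V (cring V (G.toLD D).τ (Sum.elim (G.toLD D).y Y) C) ∧
    (∀ w ∈ D.fl.R, algebraMap F K w ∈ cring V (G.toLD D).τ (Sum.elim (G.toLD D).y Y) C) ∧
    (∀ α, (G.toLD D).τ α ∈ cring V (G.toLD D).τ (Sum.elim (G.toLD D).y Y) C) ∧
    ∀ θ, Y θ ∈ cring V (G.toLD D).τ (Sum.elim (G.toLD D).y Y) C := by
  set L := G.toLD D with hL
  set Q := cring V L.τ (Sum.elim L.y Y) C with hQ
  have hR : VLocal V Q := by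
    apply vlocal_vloc
    apply adjoin_val_le
    rintro _ ⟨j | l | θ, rfl⟩
    · exact hb j
    · exact L.vy l
    · exact hY θ
  have hbR : ∀ j, mon L.τ (C.b j) ∈ Q := fun j =>
    subset_vloc (Algebra.subset_adjoin ⟨Sum.inl j, rfl⟩)
  have hYR : ∀ l, L.y l ∈ Q := fun l =>
    subset_vloc (Algebra.subset_adjoin ⟨Sum.inr (Sum.inl l), rfl⟩)
  have hk : ∀ c : ZMod p, algebraMap (ZMod p) K c ∈ Q := by
    intro c
    obtain ⟨n, rfl⟩ := ZMod.intCast_surjective c
    rw [map_intCast]
    exact intCast_mem _ n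
  have hpoly : ∀ (P : MvPolynomial (Va L.n d) (ZMod p)), aeval L.y P ∈ Q := by
    intro P
    induction P using MvPolynomial.induction_on with
    | C a => rw [aeval_C]; exact hk a
    | add P Q hP hQ => rw [map_add]; exact Subring.add_mem _ hP hQ
    | mul_X P b hP => rw [map_mul, aeval_X]; exact Subring.mul_mem _ hP (hYR b)
  refine ⟨hR, fun w hw => ?_, fun α => ?_, fun θ =>
    subset_vloc (Algebra.subset_adjoin ⟨Sum.inr (Sum.inr θ), rfl⟩)⟩
  · obtain ⟨a, s, h1, h2⟩ := D.fl.gen w hw
    have h3 : algebraMap F K w = aeval L.y a / aeval L.y s := by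
      rw [h2, map_div₀, ← aeval_am, ← aeval_am]
      rfl
    rw [h3]
    refine hR.div_mem (hpoly a) (hpoly s) ?_
    show V.valuation (aeval (fun s => algebraMap F K (D.fl.y s)) s) = 1
    rw [aeval_am]
    exact wv_eq_one.mp h1
  · rw [← mon_single (τ := L.τ) α]
    refine hC.mem (Q := {u | mon L.τ u ∈ Q}) (fun u hu v hv => ?_) ?_ hbR (fun j => ?_)
    · show mon L.τ (u + v) ∈ Q
      rw [mon_add L.τ_ne_zero]
      exact Subring.mul_mem _ hu hv
    · show mon L.τ 0 ∈ Q
      rw [mon_zero]; exact Subring.one_mem _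
    · rw [dotProduct_single_one]
      exact hC.pos _ _

theorem bs_cring_N (D : G.Lc V) (hσ : V.valuation (G.toLD D).σ = 1) {C : Cone (Ix A R N)}
    (hC : IsCone C) (hb : ∀ j, V.valuation (mon (G.toLD D).τ (C.b j)) ≤ 1) :
    Bs D (cring V (G.toLD D).τ (Sum.elim (G.toLD D).y YN) C) := by
  obtain ⟨h1, h2, h3, -⟩ := cring_facts D (Y := YN) (fun θ => θ.elim) hC hb
  have hz : ∀ i, G.z i / G.z D.m ∈ cring V (G.toLD D).τ (Sum.elim (G.toLD D).y YN) C :=
    fun i => h3 (Sum.inr (Sum.inl i))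
  refine ⟨h1, h2, hz, fun i => ?_, fun c => h3 (Sum.inr (Sum.inr (Sum.inr c)))⟩
  have h4 := h1.div_mem (sf_div_mem hz i) (h3 (Sum.inr (Sum.inr (Sum.inl ())))) hσ
  have h5 : G.sf i / G.z D.m / (G.toLD D).τ (Sum.inr (Sum.inr (Sum.inl ()))) =
      G.sf i / G.sf D.i0 := by
    show G.sf i / G.z D.m / (G.sf D.i0 / G.z D.m) = _
    have h6 := D.s0
    have h7 := G.z0 D.m
    field_simp
  rwa [h5] at h4

theorem bs_cring_C [Algebra (ZMod p) (ResidueField V)] (D : G.Lc V)
    (hσ : V.valuation (G.toLD D).σ < 1) {C : Cone (Ix A R N)}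
    (hC : IsCone C) (hb : ∀ j, V.valuation (mon (G.toLD D).τ (C.b j)) ≤ 1) :
    Bs D (cring V (G.toLD D).τ (Sum.elim (G.toLD D).y (G.toLD D).YC) C) := by
  obtain ⟨h1, h2, h3, h4⟩ := cring_facts D (vYC _ hσ) hC hb
  exact ⟨h1, h2, fun i => h3 (Sum.inr (Sum.inl i)), fun i => h4 (Sum.inr i),
    fun c => h3 (Sum.inr (Sum.inr (Sum.inr c)))⟩

/-- The field is generated by the chart. -/
theorem isAlgebraic_chart (D : G.Lc V) {Y : Θ → K} {C : Cone (Ix A R N)} (hC : IsCone C) :
    Algebra.IsAlgebraic (Algebra.adjoin (ZMod p)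
      (Set.range (Sum.elim (fun j => mon (G.toLD D).τ (C.b j))
        (Sum.elim (G.toLD D).y Y)))) K := by
  set L := G.toLD D with hL
  set X := Set.range (Sum.elim (fun j => mon L.τ (C.b j)) (Sum.elim L.y Y)) with hX
  set E := (Subfield.closure X) with hE
  have hbR : ∀ j, mon L.τ (C.b j) ∈ E := fun j => Subfield.subset_closure ⟨Sum.inl j, rfl⟩
  have hYR : ∀ l, L.y l ∈ E := fun l => Subfield.subset_closure ⟨Sum.inr (Sum.inl l), rfl⟩
  have hk : ∀ a : ZMod p, algebraMap (ZMod p) K a ∈ E := by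
    intro c
    obtain ⟨n, rfl⟩ := ZMod.intCast_surjective c
    rw [map_intCast]
    exact intCast_mem _ n
  have hpoly : ∀ (P : MvPolynomial (Va L.n d) (ZMod p)), aeval L.y P ∈ E := by
    intro P
    induction P using MvPolynomial.induction_on with
    | C a => rw [aeval_C]; exact hk a
    | add P Q hP hQ => rw [map_add]; exact E.add_mem hP hQ
    | mul_X P b hP => rw [map_mul, aeval_X]; exact E.mul_mem hP (hYR b)
  have hF1 : ∀ w ∈ D.fl.R, algebraMap F K w ∈ E.toSubring := by
    intro w hw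
    obtain ⟨a, s, -, h2⟩ := D.fl.gen w hw
    have h3 : algebraMap F K w = aeval L.y a / aeval L.y s := by
      rw [h2, map_div₀, ← aeval_am, ← aeval_am]
      rfl
    rw [h3]
    exact E.div_mem (hpoly a) (hpoly s)
  have hτ : ∀ α, L.τ α ∈ E.toSubring := by
    intro α
    rw [← mon_single (τ := L.τ) α]
    refine hC.mem (Q := {u | mon L.τ u ∈ E.toSubring}) (fun u hu v hv => ?_) ?_ hbR (fun j => ?_)
    · show mon L.τ (u + v) ∈ E
      rw [mon_add L.τ_ne_zero]
      exact E.mul_mem hu hv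
    · show mon L.τ 0 ∈ E
      rw [mon_zero]; exact E.one_mem
    · rw [dotProduct_single_one]
      exact hC.pos _ _
  have htop := top_of_mem (E := E.toSubring) D (fun x hx _ => E.inv_mem hx) hF1
    (fun l => hτ (Sum.inr (Sum.inl l))) fun c => hτ (Sum.inr (Sum.inr (Sum.inr c)))
  have hE' : E = ⊤ := by
    rw [eq_top_iff]
    intro x _
    have : x ∈ E.toSubring := by rw [htop]; trivial
    exact this
  have hcl : Subfield.closure (Algebra.adjoin ℤ X : Set K) = ⊤ := by
    rw [eq_top_iff, ← hE', hE]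
    exact Subfield.closure_mono Algebra.subset_adjoin
  have hfr := isFractionRing_of_closure _ hcl
  have halg : Algebra.IsAlgebraic (Algebra.adjoin ℤ X) K :=
    IsLocalization.isAlgebraic K (nonZeroDivisors (Algebra.adjoin ℤ X))
  have hle : ∀ x ∈ Algebra.adjoin ℤ X, x ∈ Algebra.adjoin (ZMod p) X := by
    intro x hx
    exact adjoin_le_of (R := (Algebra.adjoin (ZMod p) X).toSubring)
      (fun x hx => Algebra.subset_adjoin hx) x hx
  let j : Algebra.adjoin ℤ X →+* Algebra.adjoin (ZMod p) X :=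
    { toFun := fun x => ⟨x, hle _ x.2⟩
      map_one' := rfl
      map_mul' := fun _ _ => rfl
      map_zero' := rfl
      map_add' := fun _ _ => rfl }
  let i1 : Algebra (Algebra.adjoin ℤ X) (Algebra.adjoin (ZMod p) X) := j.toAlgebra
  have i2 : IsScalarTower (Algebra.adjoin ℤ X) (Algebra.adjoin (ZMod p) X) K :=
    IsScalarTower.of_algebraMap_eq fun x => rfl
  exact Algebra.IsAlgebraic.extendScalars (R := Algebra.adjoin ℤ X) (fun x y hxy =>
    Subtype.ext (congrArg (fun z : Algebra.adjoin (ZMod p) X => (z : K)) hxy))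

/-- The critical coordinates are in the rings. -/
theorem YC_mem [Algebra (ZMod p) (ResidueField V)] (D : G.Lc V)
    (hσ : V.valuation (G.toLD D).σ < 1) {R' : Subring K} (h : Bs D R') (θ : Tc R) :
    (G.toLD D).YC θ ∈ R' := by
  rcases θ with θ | i
  · exact h.loc.div_mem (h.τ_mem (Sum.inr (Sum.inr (Sum.inl ())))) (h.τ_mem (Sum.inr (Sum.inl 0)))
      (vζ_zero _ hσ)
  · exact h.bs i

/-- **Models of circuit varieties.** -/
theorem hasCharts [Finite J] (G : GD p K F A J d rh lam Nw ew M) (hR : 2 ≤ R)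
    (htr : ((d + (R - 2) : ℕ) : Cardinal.{0}) ≤ Algebra.trdeg (ZMod p) K) :
    Pool.Agent.H19.OG.HasCharts K := by
  classical
  let _ : Fintype J := Fintype.ofFinite J
  set M' : ℕ := max 2 (max M (Finset.univ.sup fun c => max (Nw c) (Nw c * M))) with hM'
  refine hasCharts_of_cd (Finset.image₂ (fun u v => u - v) (BX (Ix A R N) M') (BX (Ix A R N) M'))
    G.base G.ss G.sL (base_ne G) ?_ ?_
  · intro R' hinv hs
    obtain ⟨D, -, hmin⟩ := exists_lc G ⊤
    have hall : ∀ x : K, (⊤ : ValuationSubring K).valuation x ≤ 1 := fun x =>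
      (ValuationSubring.valuation_le_one_iff _ _).mpr trivial
    have hR' : VLocal (⊤ : ValuationSubring K) R' := ⟨fun x _ => hall x, fun x hx h1 =>
      hinv x hx (by
        rintro rfl
        rw [map_zero] at h1
        exact zero_ne_one h1)⟩
    have hb := bs_of_prin D hR' hmin hs
    exact top_of_mem D hinv hb.b1 hb.bz hb.bw
  · intro V
    obtain ⟨D, hp, hmin⟩ := exists_lc G V
    have hcst : ∀ c : ZMod p, V.valuation (algebraMap (ZMod p) K c) ≤ 1 := by
      intro c
      obtain ⟨n, rfl⟩ := ZMod.intCast_surjective c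
      rw [map_intCast]
      exact (V.valuation_le_one_iff _).mpr (intCast_mem _ n)
    let _ : Algebra (ZMod p) (ResidueField V) := (resK (ZMod p) V hcst).toAlgebra
    have hCx : ∀ C : Cone (Ix A R N), IsCone C →
        (∀ j, V.valuation (mon (G.toLD D).τ (C.b j)) ≤ 1) →
        (∀ w ∈ Finset.image₂ (fun u v => u - v) (BX (Ix A R N) M') (BX (Ix A R N) M'), Sgn C w) →
        Cx (G.toLD D) M' C := fun C hC hb hW =>
      ⟨hC, hb, fun u hu u' hu' => hW _ (Finset.mem_image₂_of_mem hu hu'), le_max_left _ _,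
          (le_max_left _ _).trans (le_max_right _ _), fun c => by
            have h1 : max (Nw c) (Nw c * M) ≤ M' := ((Finset.le_sup
              (f := fun c => max (Nw c) (Nw c * M)) (Finset.mem_univ c)).trans
              (le_max_right _ _)).trans (le_max_right _ _)
            exact ⟨(le_max_left _ _).trans h1, (le_max_right _ _).trans h1⟩⟩
    rcases (G.toLD D).vσ.lt_or_eq with hσ | hσ
    · obtain ⟨ci⟩ := exists_ci (G.toLD D)
      exact ⟨Va D.fl.n d ⊕ Tc R, ⟨{
        τ := (G.toLD D).τ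
        T := TT D
        Y := Sum.elim (G.toLD D).y (G.toLD D).YC
        Bs := Bs D
        τ0 := (G.toLD D).τ_ne_zero
        vτ := (G.toLD D).vτ
        loc := fun _ h => h.loc
        gs := fun _ h => h.gen_ss
        gL := fun _ h => h.gen_sL
        mτ := fun _ h => h.τ_mem
        mY := fun _ h l => by
          rcases l with l | θ
          · exact h.y_mem l
          · exact YC_mem D hσ h θ
        pb := fun _ h => h.prin hp
        det := fun R hR hs => bs_of_prin D hR hmin hs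
        self := bs_self D
        ch := fun C hC hb hW => ⟨bs_cring_C D hσ hC hb, isRegular_C ci (hCx C hC hb hW) hσ hR
          (isAlgebraic_chart D hC) htr⟩ }⟩⟩
    · exact ⟨Va D.fl.n d ⊕ Empty, ⟨{
        τ := (G.toLD D).τ
        T := TT D
        Y := Sum.elim (G.toLD D).y YN
        Bs := Bs D
        τ0 := (G.toLD D).τ_ne_zero
        vτ := (G.toLD D).vτ
        loc := fun _ h => h.loc
        gs := fun _ h => h.gen_ss
        gL := fun _ h => h.gen_sL
        mτ := fun _ h => h.τ_mem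
        mY := fun _ h l => by
          rcases l with l | θ
          · exact h.y_mem l
          · exact θ.elim
        pb := fun _ h => h.prin hp
        det := fun R hR hs => bs_of_prin D hR hmin hs
        self := bs_self D
        ch := fun C hC hb hW => ⟨bs_cring_N D hσ hC hb, isRegular_N (hCx C hC hb hW) hσ hR
          (isAlgebraic_chart D hC) htr⟩ }⟩⟩

end GD

end Pool.Agent.H96.Z
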