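import Pool.Agent.H96.Z.Rl
import Pool.Agent.H96.Z.Alg

/-!
# The local data at a valuation of a circuit variety
-/

set_option autoImplicit false
set_option linter.unusedSectionVars false

namespace Pool.Agent.H96.Z

open MvPolynomial IsLocalRing Pool.Agent.H96.Reg Pool.Agent.H96.VL Pool.Agent.H96.W
open Pool.Agent.H96.W2 (BX mem_BX zero_mem_BX single_mem_BX single_one_mem_BX neg_mem_BX)
open Pool.Agent.H96.S (Va Ndg cond_t cond_f zc0 zc_ne resv_aevalp sum_single_eq sum_zero_eq)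

/-- The local data at `V`. -/
structure LD (p : ℕ) {K : Type} [Field K] [Algebra (ZMod p) K] (V : ValuationSubring K)
    (A : Type) [Fintype A] [DecidableEq A] (d : ℕ) {R N : ℕ} (lam : Fin (R + 1) → ℤ)
    (Nw : Fin N → ℕ) (ew : Fin N → Fin (R + 1) → ℤ) (M : ℕ) where
  n : ℕ
  y : Va n d → K
  G : Fin n → MvPolynomial (Va n d) (ZMod p)
  D : MvPolynomial (Va n d) (ZMod p)
  l : A → Option (Fin d)
  t : A → K
  vy : ∀ s, V.valuation (y s) ≤ 1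
  rel : ∀ j, aeval y (G j) = 0
  vD : V.valuation (aeval y D) = 1
  ndg : Ndg G D
  l0 : ∀ a, l a = none → t a = 1
  l1 : ∀ a c, l a = some c → V.valuation (t a) < 1 ∧ t a ≠ 0 ∧ y (Sum.inr c) = t a
  linj : ∀ a a' c, l a = some c → l a' = some c → a = a'
  lamp : ∀ i, ¬ (p : ℤ) ∣ lam i
  lams : ∑ i, lam i = 0
  lamM : ∀ i, |lam i| ≤ M
  ζ : Fin (R + 1) → K
  ζ0 : ∀ i, ζ i ≠ 0
  vζ : ∀ i, V.valuation (ζ i) ≤ 1
  m : Fin (R + 1)
  ζm : ζ m = 1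
  ζs : ∑ i, ζ i = 0
  qc : Va n d
  κc : A → ℤ
  vqc : V.valuation (y qc) = 1
  κcM : ∀ a, |κc a| ≤ M
  eqc : mon ζ lam = y qc * mon t κc
  σ : K
  σ0 : σ ≠ 0
  i0 : Fin R
  η : Fin R → K
  ηi0 : η i0 = 1
  vη : ∀ i, V.valuation (η i) ≤ 1
  eqη : ∀ i, (lam 0 : K) * ζ i.succ - lam i.succ * ζ 0 = σ * η i
  dn : Bool
  qd : Va n d
  κd : A → ℤ
  vqd : V.valuation (y qd) = 1
  κdM : ∀ a, |κd a| ≤ M
  eqd : mon ζ lam = (∏ i, (lam i : K) ^ lam i) * (1 + cond dn (y qd * mon t κd) 0)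
  w : Fin N → K
  w0 : ∀ c, w c ≠ 0
  Nw0 : ∀ c, ¬ p ∣ Nw c
  qw : Fin N → Va n d
  κw : Fin N → A → ℤ
  vqw : ∀ c, V.valuation (y (qw c)) = 1
  κwM : ∀ c a, |κw c a| ≤ M
  KM : ∀ c, w c ^ Nw c = y (qw c) * mon t (κw c) * mon ζ (ew c)
  eM : ∀ c i, |ew c i| ≤ M

/-- The index set of the coordinates. -/
abbrev Ix (A : Type) (R N : ℕ) : Type := A ⊕ (Fin (R + 1) ⊕ (Unit ⊕ Fin N))

/-- The exponents. -/
def EV {A : Type} {R N : ℕ} (e1 : A → ℤ) (e2 : Fin (R + 1) → ℤ) (e3 : ℤ) (e4 : Fin N → ℤ) :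
    Ix A R N → ℤ := Sum.elim e1 (Sum.elim e2 (Sum.elim (fun _ => e3) e4))

section EV

variable {A : Type} {R N : ℕ} [Fintype A] [DecidableEq A] (e1 : A → ℤ) (e2 : Fin (R + 1) → ℤ)
  (e3 : ℤ) (e4 : Fin N → ℤ)

theorem EV_a (a : A) : EV e1 e2 e3 e4 (Sum.inl a) = e1 a := rfl

theorem EV_z (i : Fin (R + 1)) : EV e1 e2 e3 e4 (Sum.inr (Sum.inl i)) = e2 i := rfl

theorem EV_s : EV e1 e2 e3 e4 (Sum.inr (Sum.inr (Sum.inl ()))) = e3 := rfl

theorem EV_w (c : Fin N) : EV e1 e2 e3 e4 (Sum.inr (Sum.inr (Sum.inr c))) = e4 c := rfl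

variable {e1 e2 e3 e4} in
theorem EV_mem {M' : ℕ} (h1 : ∀ a, |e1 a| ≤ M') (h2 : ∀ i, |e2 i| ≤ M') (h3 : |e3| ≤ M')
    (h4 : ∀ c, |e4 c| ≤ M') : EV e1 e2 e3 e4 ∈ BX (Ix A R N) M' := by
  rw [mem_BX]
  rintro (a | i | c | c)
  exacts [h1 a, h2 i, h3, h4 c]

theorem abs_single {β : Type} [DecidableEq β] {M' : ℕ} {x : ℤ} (hx : |x| ≤ M') (i j : β) :
    |(Pi.single i x : β → ℤ) j| ≤ M' := by
  rw [Pi.single_apply]
  split_ifs
  · exact hx
  · rw [abs_zero]; positivity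

theorem abs_zero_le {M' : ℕ} : |(0 : ℤ)| ≤ (M' : ℤ) := by rw [abs_zero]; positivity

theorem abs_fz_le {β : Type} {M' : ℕ} (i : β) : |(0 : β → ℤ) i| ≤ (M' : ℤ) := abs_zero_le

end EV

namespace LD

variable {p : ℕ} [Fact p.Prime] {K : Type} [Field K] [Algebra (ZMod p) K]
  {V : ValuationSubring K} {A : Type} [Fintype A] [DecidableEq A] {d R N : ℕ}
  {lam : Fin (R + 1) → ℤ} {Nw : Fin N → ℕ} {ew : Fin N → Fin (R + 1) → ℤ} {M : ℕ}
  (L : LD p V A d lam Nw ew M)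

theorem t_ne_zero (a : A) : L.t a ≠ 0 := by
  cases h : L.l a with
  | none => rw [L.l0 a h]; exact one_ne_zero
  | some c => exact (L.l1 a c h).2.1

theorem vt (a : A) : V.valuation (L.t a) ≤ 1 := by
  cases h : L.l a with
  | none => rw [L.l0 a h, map_one]
  | some c => exact (L.l1 a c h).1.le

theorem vmon {ι : Type} [Fintype ι] {τ : ι → K} (hτ : ∀ i, V.valuation (τ i) ≤ 1) {e : ι → ℤ}
    (he : ∀ μ, 0 ≤ e μ) : V.valuation (mon τ e) ≤ 1 := by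
  rw [mon, map_prod]
  refine Finset.prod_le_one' fun μ _ => ?_
  obtain ⟨k, hk⟩ := Int.eq_ofNat_of_zero_le (he μ)
  rw [hk, zpow_natCast, map_pow]
  exact pow_le_one' (hτ μ) k

/-- The monomial which makes the `w c` integral. -/
def pt : K := mon L.t (fun _ => (M : ℤ)) * mon L.ζ fun _ => (M : ℤ)

theorem pt_ne_zero : L.pt ≠ 0 :=
  mul_ne_zero (mon_ne_zero L.t_ne_zero _) (mon_ne_zero L.ζ0 _)

/-- The coordinates. -/
noncomputable def τ : Ix A R N → K :=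
  Sum.elim L.t (Sum.elim L.ζ (Sum.elim (fun _ => L.σ) fun c => L.w c * L.pt))

theorem τ_a (a : A) : L.τ (Sum.inl a) = L.t a := rfl

theorem τ_ne_zero (α : Ix A R N) : L.τ α ≠ 0 := by
  rcases α with a | i | c | c
  · exact L.t_ne_zero a
  · exact L.ζ0 i
  · exact L.σ0
  · exact mul_ne_zero (L.w0 c) L.pt_ne_zero

include L in
theorem Nw_ne_zero (c : Fin N) : Nw c ≠ 0 := by
  intro h
  apply L.Nw0 c
  rw [h]
  exact dvd_zero p

theorem vτw (c : Fin N) : V.valuation (L.w c * L.pt) ≤ 1 := by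
  have h0 := L.Nw_ne_zero c
  have hle : ∀ x : ℤ, |x| ≤ M → 0 ≤ x + (Nw c : ℤ) * (M : ℤ) := by
    intro x hx
    have h2 := (abs_le.mp hx).1
    have h3 : (M : ℤ) ≤ (Nw c : ℤ) * (M : ℤ) := by
      exact_mod_cast Nat.le_mul_of_pos_left M (Nat.pos_of_ne_zero h0)
    linarith
  have h1 : V.valuation ((L.w c * L.pt) ^ Nw c) ≤ 1 := by
    have h2 : (L.w c * L.pt) ^ Nw c = L.y (L.qw c) *
        mon L.t (L.κw c + (Nw c : ℤ) • fun _ => (M : ℤ)) *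
        mon L.ζ (ew c + (Nw c : ℤ) • fun _ => (M : ℤ)) := by
      rw [mul_pow, L.KM, pt, mon_add L.t_ne_zero, mon_add L.ζ0, mon_smul, mon_smul, zpow_natCast,
        zpow_natCast, mul_pow]
      ring
    rw [h2, map_mul, map_mul, L.vqw, one_mul]
    exact mul_le_one' (vmon L.vt fun a => hle _ (L.κwM c a)) (vmon L.vζ fun i => hle _ (L.eM c i))
  by_contra hcon
  rw [map_pow] at h1
  exact absurd h1 (not_le.mpr (one_lt_pow₀ (not_le.mp hcon) h0))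

theorem vint (x : ℤ) : V.valuation (x : K) ≤ 1 :=
  (V.valuation_le_one_iff _).mpr (intCast_mem _ x)

theorem vσ : V.valuation L.σ ≤ 1 := by
  have h1 := L.eqη L.i0
  rw [L.ηi0, mul_one] at h1
  rw [← h1]
  refine (Valuation.map_sub _ _ _).trans (max_le ?_ ?_)
  · rw [map_mul]
    exact mul_le_one' (vint _) (L.vζ _)
  · rw [map_mul]
    exact mul_le_one' (vint _) (L.vζ _)

theorem vτ (α : Ix A R N) : V.valuation (L.τ α) ≤ 1 := by
  rcases α with a | i | c | c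
  · exact L.vt a
  · exact L.vζ i
  · exact L.vσ
  · exact L.vτw c

theorem mon_EV (e1 : A → ℤ) (e2 : Fin (R + 1) → ℤ) (e3 : ℤ) (e4 : Fin N → ℤ) :
    mon L.τ (EV e1 e2 e3 e4) = mon L.t e1 * (mon L.ζ e2 * (L.σ ^ e3 *
      mon (fun c => L.w c * L.pt) e4)) := by
  rw [mon, Fintype.prod_sum_type, Fintype.prod_sum_type, Fintype.prod_sum_type]
  have h1 : ∀ g : Unit → K, ∏ u, g u = g () := fun g => by
    rw [Finset.univ_unique, Finset.prod_singleton]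
  rw [h1]
  rfl

theorem mon_z (e : Fin (R + 1) → ℤ) : mon L.τ (EV 0 e 0 0) = mon L.ζ e := by
  rw [L.mon_EV, mon_zero', mon_zero', zpow_zero, one_mul, mul_one, mul_one]

theorem mon_zi (i : Fin (R + 1)) : mon L.τ (EV 0 (Pi.single i 1) 0 0) = L.ζ i := by
  rw [L.mon_z, mon_single]

theorem mon_t (e : A → ℤ) : mon L.τ (EV e 0 0 0) = mon L.t e := by
  rw [L.mon_EV, mon_zero', mon_zero', zpow_zero, one_mul, mul_one, mul_one]

theorem mon_s : mon L.τ (EV 0 0 1 0) = L.σ := by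
  rw [L.mon_EV, mon_zero', mon_zero', mon_zero', zpow_one, one_mul, mul_one, one_mul]

theorem mon_sz (k : ℤ) : mon L.τ (EV 0 (Pi.single 0 (-k)) k 0) = (L.σ / L.ζ 0) ^ k := by
  have h1 : (Pi.single 0 (-k) : Fin (R + 1) → ℤ) = (-k) • Pi.single 0 1 := by
    rw [← Pi.single_smul, smul_eq_mul, mul_one]
  rw [L.mon_EV, h1, mon_smul, mon_single, mon_zero', mon_zero', one_mul, mul_one, zpow_neg,
    div_zpow, div_eq_mul_inv, mul_comm]

/-- The exponent of `w c ^ Nw c`. -/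
def Ew (_L : LD p V A d lam Nw ew M) (c : Fin N) : Ix A R N → ℤ :=
  EV (fun _ => -((Nw c : ℤ) * M)) (fun _ => -((Nw c : ℤ) * M)) 0 (Pi.single c (Nw c : ℤ))

theorem mon_Ew (c : Fin N) : mon L.τ (L.Ew c) = L.w c ^ Nw c := by
  have h1 : (fun _ => -((Nw c : ℤ) * M) : A → ℤ) = (-(Nw c : ℤ)) • fun _ => (M : ℤ) := by
    funext a
    rw [Pi.smul_apply, smul_eq_mul]; ring
  have h2 : (fun _ => -((Nw c : ℤ) * M) : Fin (R + 1) → ℤ) = (-(Nw c : ℤ)) • fun _ => (M : ℤ) := by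
    funext a
    rw [Pi.smul_apply, smul_eq_mul]; ring
  have h3 : (Pi.single c (Nw c : ℤ) : Fin N → ℤ) = (Nw c : ℤ) • Pi.single c 1 := by
    rw [← Pi.single_smul, smul_eq_mul, mul_one]
  rw [Ew, L.mon_EV, h1, h2, h3, mon_smul, mon_smul, mon_smul, mon_single, zpow_zero, one_mul,
    zpow_neg, zpow_neg, zpow_natCast, zpow_natCast, zpow_natCast, mul_pow, pt, mul_pow]
  have h4 := pow_ne_zero (Nw c) (mon_ne_zero L.t_ne_zero (fun _ => (M : ℤ)))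
  have h5 := pow_ne_zero (Nw c) (mon_ne_zero L.ζ0 (fun _ => (M : ℤ)))
  field_simp

/-- The exponent of the right side of a Kummer relation. -/
def Er (L : LD p V A d lam Nw ew M) (c : Fin N) : Ix A R N → ℤ := EV (L.κw c) (ew c) 0 0

theorem mon_Er (c : Fin N) : mon L.τ (L.Er c) = mon L.t (L.κw c) * mon L.ζ (ew c) := by
  rw [Er, L.mon_EV, mon_zero', zpow_zero, mul_one, mul_one]

end LD

/-- The chart. -/
structure Cx {p : ℕ} [Fact p.Prime] {K : Type} [Field K] [Algebra (ZMod p) K]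
    {V : ValuationSubring K} {A : Type} [Fintype A] [DecidableEq A] {d R N : ℕ}
    {lam : Fin (R + 1) → ℤ} {Nw : Fin N → ℕ} {ew : Fin N → Fin (R + 1) → ℤ} {M : ℕ}
    (L : LD p V A d lam Nw ew M) (M' : ℕ) (C : Cone (Ix A R N)) : Prop where
  hC : IsCone C
  hb : ∀ j, V.valuation (mon L.τ (C.b j)) ≤ 1
  hS : ∀ u ∈ BX (Ix A R N) M', ∀ u' ∈ BX (Ix A R N) M', Sgn C (u - u')
  h2 : 2 ≤ M'
  hM : M ≤ M'
  hN : ∀ c, Nw c ≤ M' ∧ Nw c * M ≤ M'

end Pool.Agent.H96.Z
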