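import Pool.Agent.H96.Z.LA

/-!
# The common relations of the charts of a circuit variety
-/

set_option autoImplicit false
set_option linter.unusedSectionVars false

namespace Pool.Agent.H96.Z

open MvPolynomial IsLocalRing Pool.Agent.H96.Reg Pool.Agent.H96.VL Pool.Agent.H96.W
open Pool.Agent.H96.W2 (BX mem_BX zero_mem_BX single_mem_BX single_one_mem_BX neg_mem_BX)
open Pool.Agent.H96.S (Va Ndg cond_t cond_f zc0 zc_ne resv_aevalp sum_single_eq sum_zero_eq)

variable {p : ℕ} [Fact p.Prime] {K : Type} [Field K] [Algebra (ZMod p) K]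
  {V : ValuationSubring K} {A : Type} [Fintype A] [DecidableEq A] {d R N : ℕ}
  {lam : Fin (R + 1) → ℤ} {Nw : Fin N → ℕ} {ew : Fin N → Fin (R + 1) → ℤ} {M M' : ℕ}
  {L : LD p V A d lam Nw ew M} {Θ : Type} [Fintype Θ] [DecidableEq Θ]

/-- The index set of the terms. -/
abbrev Tx (R : ℕ) : Type := Fin (R + 1) ⊕ Bool

/-- The polynomial ring of the variables. -/
abbrev LD.Po (L : LD p V A d lam Nw ew M) (Θ : Type) : Type :=
  MvPolynomial (Va L.n d ⊕ Θ) (ZMod p)

section Defs

variable (L) (Θ)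

/-- The index set of the common relations. -/
abbrev LD.Cm (L : LD p V A d lam Nw ew M) : Type := A ⊕ (Fin L.n ⊕ (Unit ⊕ Fin N))

/-- The coefficients of the common relations. -/
noncomputable def LD.cc : L.Cm → Tx R → L.Po Θ :=
  Sum.elim (fun a => c2 _ 1 ((L.l a).elim (-1) fun x => -X (Sum.inl (Sum.inr x))))
    (Sum.elim (fun j => c2 _ (rename Sum.inl (L.G j)) 0)
      (Sum.elim (fun _ => c2 _ 1 (-1)) fun c => c2 _ 1 (-X (Sum.inl (L.qw c)))))

/-- The exponents of the common relations. -/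
def LD.cx : L.Cm → Tx R → Ix A R N → ℤ :=
  Sum.elim (fun a => x2 _ (EV (Pi.single a 1) 0 0 0) 0)
    (Sum.elim (fun _ => x2 _ 0 0)
      (Sum.elim (fun _ => x2 _ (EV 0 (Pi.single L.m 1) 0 0) 0) fun c => x2 _ (L.Ew c) (L.Er c)))

/-- The leading terms of the common relations. -/
def LD.cs : L.Cm → Tx R :=
  Sum.elim (fun a => Sum.inr (L.l a).isNone) fun _ => Sum.inr true

end Defs

theorem mon_sa (a : A) : mon L.τ (EV (Pi.single a 1) 0 0 0) = L.t a := by
  rw [L.mon_t, mon_single]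

theorem cc_rel (Y : Θ → K) (j : L.Cm) :
    ∑ s, aeval (Sum.elim L.y Y) (L.cc Θ j s) * mon L.τ (L.cx j s) = 0 := by
  rcases j with a | j | j | c
  · refine (rel_two (y := Sum.elim L.y Y) _ _ _ _).trans ?_
    rw [mon_sa, mon_zero', map_one, mul_one, one_mul]
    cases h : L.l a with
    | none =>
      show L.t a + aeval _ (-1 : L.Po Θ) = 0
      rw [L.l0 _ h, map_neg, map_one]; ring
    | some x =>
      show L.t a + aeval _ (-X (Sum.inl (Sum.inr x)) : L.Po Θ) = 0
      rw [map_neg, aeval_X, Sum.elim_inl, (L.l1 _ _ h).2.2]; ring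
  · refine (rel_two (y := Sum.elim L.y Y) _ _ _ _).trans ?_
    rw [aeval_rename, map_zero, zero_mul, add_zero]
    show aeval L.y (L.G j) * _ = 0
    rw [L.rel j, zero_mul]
  · refine (rel_two (y := Sum.elim L.y Y) _ _ _ _).trans ?_
    rw [L.mon_zi, L.ζm, mon_zero', map_neg, map_one]; ring
  · refine (rel_two (y := Sum.elim L.y Y) _ _ _ _).trans ?_
    rw [L.mon_Ew, L.mon_Er, L.KM, map_neg, map_one, aeval_X, Sum.elim_inl]; ring

theorem cx_mem {C : Cone (Ix A R N)} (h : Cx L M' C) (j : L.Cm) (s : Tx R) :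
    L.cx j s ∈ BX (Ix A R N) M' := by
  have h1 : |(1 : ℤ)| ≤ (M' : ℤ) := by
    rw [abs_one]
    exact_mod_cast (show 1 ≤ M' from (by decide : 1 ≤ 2).trans h.h2)
  have h3 : ∀ x : ℤ, |x| ≤ M → |x| ≤ M' := fun x hx => hx.trans (by exact_mod_cast h.hM)
  rcases j with a | j | j | c <;> rcases s with s | _ | _
  · exact zero_mem_BX
  · exact zero_mem_BX
  · exact EV_mem (abs_single h1 _) abs_fz_le abs_zero_le abs_fz_le
  · exact zero_mem_BX
  · exact zero_mem_BX
  · exact zero_mem_BX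
  · exact zero_mem_BX
  · exact zero_mem_BX
  · exact EV_mem abs_fz_le (abs_single h1 _) abs_zero_le abs_fz_le
  · exact zero_mem_BX
  · exact EV_mem (fun a => h3 _ (L.κwM c a)) (fun a => h3 _ (L.eM c a)) abs_zero_le abs_fz_le
  · obtain ⟨h4, h5⟩ := h.hN c
    have h6 : |-((Nw c : ℤ) * M)| ≤ M' := by
      rw [abs_neg, ← Nat.cast_mul, Nat.abs_cast]
      exact_mod_cast h5
    refine EV_mem (fun _ => h6) (fun _ => h6) abs_zero_le (abs_single ?_ _)
    rw [Nat.abs_cast]
    exact_mod_cast h4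

theorem cs_ok (j : L.Cm) : L.cc Θ j (L.cs j) ≠ 0 ∨ ∀ s, L.cc Θ j s = 0 := by
  rcases j with a | j | j | c
  · left
    show c2 (Fin (R + 1)) (1 : L.Po Θ) _ (Sum.inr (L.l a).isNone) ≠ 0
    cases h : L.l a with
    | none => exact one_ne_zero
    | some x => exact neg_ne_zero.mpr (X_ne_zero _)
  · by_cases h : rename Sum.inl (L.G j) = (0 : L.Po Θ)
    · right
      rintro (s | _ | _)
      · rfl
      · rfl
      · exact h
    · exact Or.inl h
  · exact Or.inl one_ne_zero
  · exact Or.inl one_ne_zero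

theorem vt_lt {a : A} {x : Fin d} (ha : L.l a = some x) : V.valuation (L.t a) < 1 :=
  (L.l1 a x ha).1

theorem c2_inl {υ A' I : Type} [CommRing A'] {P Q : MvPolynomial υ A'} {i : I}
    (h : c2 I P Q (Sum.inl i) ≠ 0) : False := h rfl

theorem cs_dom (j : L.Cm) (s : Tx R) (hs : L.cc Θ j s ≠ 0) :
    V.valuation (mon L.τ (L.cx j s)) ≤ V.valuation (mon L.τ (L.cx j (L.cs j))) := by
  rcases j with a | j | j | c
  · cases h : L.l a with
    | none =>
      have h1 : mon L.τ (L.cx (Sum.inl a) (L.cs (Sum.inl a))) = 1 := by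
        show mon L.τ (x2 (Fin (R + 1)) (EV (Pi.single a 1) 0 0 0) 0 (Sum.inr (L.l a).isNone)) = 1
        rw [h]
        show mon L.τ (EV (Pi.single a 1) 0 0 0) = 1
        rw [mon_sa, L.l0 a h]
      rw [h1]
      rcases s with s | _ | _
      · exact absurd rfl hs
      · show V.valuation (mon L.τ 0) ≤ _
        rw [mon_zero']
      · show V.valuation (mon L.τ (EV (Pi.single a 1) 0 0 0)) ≤ _
        rw [mon_sa, L.l0 a h]
    | some x =>
      have h1 : mon L.τ (L.cx (Sum.inl a) (L.cs (Sum.inl a))) = 1 := by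
        show mon L.τ (x2 (Fin (R + 1)) (EV (Pi.single a 1) 0 0 0) 0 (Sum.inr (L.l a).isNone)) = 1
        rw [h]
        exact mon_zero' _
      rw [h1, map_one]
      rcases s with s | _ | _
      · exact absurd rfl hs
      · show V.valuation (mon L.τ 0) ≤ _
        rw [mon_zero', map_one]
      · show V.valuation (mon L.τ (EV (Pi.single a 1) 0 0 0)) ≤ _
        rw [mon_sa]
        exact L.vt a
  · rcases s with s | _ | _
    · exact absurd rfl hs
    · exact absurd rfl hs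
    · exact le_rfl
  · rcases s with s | _ | _
    · exact absurd rfl hs
    · show V.valuation (mon L.τ 0) ≤ V.valuation (mon L.τ (EV 0 (Pi.single L.m 1) 0 0))
      rw [mon_zero', L.mon_zi, L.ζm]
    · exact le_rfl
  · rcases s with s | _ | _
    · exact absurd rfl hs
    · show V.valuation (mon L.τ (L.Er c)) ≤ V.valuation (mon L.τ (L.Ew c))
      rw [L.mon_Er, L.mon_Ew, L.KM, map_mul, map_mul, map_mul, L.vqw, one_mul]
    · exact le_rfl

section Diff

variable [Algebra (ZMod p) (ResidueField V)] {Y : Θ → K}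

theorem Ls_a (a : A) (α : Ix A R N) :
    Ls V L.τ (Sum.elim L.y Y) (L.cc Θ (Sum.inl a)) (L.cx (Sum.inl a)) (L.cs (Sum.inl a)) α =
      if L.l a = none ∧ α = Sum.inl a then 1 else 0 := by
  cases h : L.l a with
  | none =>
    have h1 : L.cc Θ (Sum.inl a) = c2 _ 1 (-1) := by
      show c2 _ 1 ((L.l a).elim (-1) fun x => -X (Sum.inl (Sum.inr x))) = _
      rw [h]; rfl
    have h2 : L.cs (Sum.inl a) = Sum.inr true := by
      show Sum.inr (L.l a).isNone = _
      rw [h]; rfl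
    rw [h1, h2]
    refine (Ls_U L.τ_ne_zero α).trans ?_
    by_cases hα : α = Sum.inl a
    · rw [if_pos ⟨rfl, hα⟩, hα, EV_a, Pi.single_eq_same, Int.cast_one]
    · rw [if_neg (fun h => hα h.2)]
      rcases α with b | i | c | c
      · rw [EV_a, Pi.single_eq_of_ne (fun h => hα (by rw [h])), Int.cast_zero]
      · exact zc0 V
      · exact zc0 V
      · exact zc0 V
  | some x =>
    have h1 : L.cc Θ (Sum.inl a) = c2 _ 1 (-X (Sum.inl (Sum.inr x))) := by
      show c2 _ 1 ((L.l a).elim (-1) fun x => -X (Sum.inl (Sum.inr x))) = _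
      rw [h]; rfl
    have h2 : L.cs (Sum.inl a) = Sum.inr false := by
      show Sum.inr (L.l a).isNone = _
      rw [h]; rfl
    rw [h1, h2, if_neg (fun h' => Option.some_ne_none x h'.1)]
    exact Ls_V (by rw [mon_sa]; exact vt_lt h) _ α

theorem Ds_a (a : A) (l : Va L.n d ⊕ Θ) :
    Ds V L.τ (Sum.elim L.y Y) (L.cc Θ (Sum.inl a)) (L.cx (Sum.inl a)) (L.cs (Sum.inl a)) l =
      if ∃ x, L.l a = some x ∧ l = Sum.inl (Sum.inr x) then -1 else 0 := by
  cases h : L.l a with
  | none =>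
    have h1 : L.cc Θ (Sum.inl a) = c2 _ 1 (-1) := by
      show c2 _ 1 ((L.l a).elim (-1) fun x => -X (Sum.inl (Sum.inr x))) = _
      rw [h]; rfl
    have h2 : L.cs (Sum.inl a) = Sum.inr true := by
      show Sum.inr (L.l a).isNone = _
      rw [h]; rfl
    rw [h1, h2, if_neg]
    · exact Ds_U L.τ_ne_zero l
    · rintro ⟨x, hx, -⟩
      exact Option.some_ne_none x hx.symm
  | some x =>
    have h1 : L.cc Θ (Sum.inl a) = c2 _ 1 (-X (Sum.inl (Sum.inr x))) := by
      show c2 _ 1 ((L.l a).elim (-1) fun x => -X (Sum.inl (Sum.inr x))) = _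
      rw [h]; rfl
    have h2 : L.cs (Sum.inl a) = Sum.inr false := by
      show Sum.inr (L.l a).isNone = _
      rw [h]; rfl
    rw [h1, h2]
    refine (Ds_V _ l).trans ?_
    by_cases hl : l = Sum.inl (Sum.inr x)
    · rw [if_pos hl, if_pos ⟨x, rfl, hl⟩]
    · rw [if_neg hl, if_neg]
      rintro ⟨x', hx, hx'⟩
      rw [← Option.some_injective _ hx] at hx'
      exact hl hx'

theorem Ls_g (j : Fin L.n) (α : Ix A R N) :
    Ls V L.τ (Sum.elim L.y Y) (L.cc Θ (Sum.inr (Sum.inl j))) (L.cx (Sum.inr (Sum.inl j)))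
      (L.cs (Sum.inr (Sum.inl j))) α = 0 := Ls_G _ _ α

theorem elim_resv (Y : Θ → K) : (fun l : Va L.n d ⊕ Θ => resv V (Sum.elim L.y Y l)) ∘ Sum.inl =
    fun l => resv V (L.y l) := rfl

theorem Ds_g (j : Fin L.n) (l : Va L.n d) :
    Ds V L.τ (Sum.elim L.y Y) (L.cc Θ (Sum.inr (Sum.inl j))) (L.cx (Sum.inr (Sum.inl j)))
      (L.cs (Sum.inr (Sum.inl j))) (Sum.inl l) =
      aeval (fun l => resv V (L.y l)) (pderiv l (L.G j)) := by
  refine (Ds_G _ _).trans ?_
  rw [← elim_resv Y, ← aeval_rename]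
  congr 1
  exact pderiv_rename Sum.inl_injective l (L.G j)

theorem Ds_gΘ (j : Fin L.n) (θ : Θ) :
    Ds V L.τ (Sum.elim L.y Y) (L.cc Θ (Sum.inr (Sum.inl j))) (L.cx (Sum.inr (Sum.inl j)))
      (L.cs (Sum.inr (Sum.inl j))) (Sum.inr θ) = 0 := by
  refine (Ds_G _ _).trans ?_
  have h1 : pderiv (Sum.inr θ) (rename Sum.inl (L.G j) : L.Po Θ) = 0 := by
    apply pderiv_eq_zero_of_notMem_vars
    intro h
    have h2 := vars_rename (Sum.inl : Va L.n d → Va L.n d ⊕ Θ) (L.G j) h
    obtain ⟨x, -, hx⟩ := Finset.mem_image.mp h2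
    exact Sum.inl_ne_inr hx
  rw [h1, map_zero]

theorem Ls_T (α : Ix A R N) :
    Ls V L.τ (Sum.elim L.y Y) (L.cc Θ (Sum.inr (Sum.inr (Sum.inl ()))))
      (L.cx (Sum.inr (Sum.inr (Sum.inl ())))) (L.cs (Sum.inr (Sum.inr (Sum.inl ())))) α =
      if α = Sum.inr (Sum.inl L.m) then 1 else 0 := by
  refine (Ls_U L.τ_ne_zero α).trans ?_
  by_cases hα : α = Sum.inr (Sum.inl L.m)
  · rw [if_pos hα, hα, EV_z, Pi.single_eq_same, Int.cast_one]
  · rw [if_neg hα]
    rcases α with b | i | c | c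
    · exact zc0 V
    · rw [EV_z, Pi.single_eq_of_ne (fun h => hα (by rw [h])), Int.cast_zero]
    · exact zc0 V
    · exact zc0 V

theorem Ds_T (l : Va L.n d ⊕ Θ) :
    Ds V L.τ (Sum.elim L.y Y) (L.cc Θ (Sum.inr (Sum.inr (Sum.inl ()))))
      (L.cx (Sum.inr (Sum.inr (Sum.inl ())))) (L.cs (Sum.inr (Sum.inr (Sum.inl ())))) l = 0 :=
  Ds_U L.τ_ne_zero l

theorem Ls_w (c : Fin N) (α : Ix A R N) :
    Ls V L.τ (Sum.elim L.y Y) (L.cc Θ (Sum.inr (Sum.inr (Sum.inr c))))
      (L.cx (Sum.inr (Sum.inr (Sum.inr c)))) (L.cs (Sum.inr (Sum.inr (Sum.inr c)))) α =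
      ((L.Ew c α : ℤ) : ResidueField V) +
        aeval (fun l => resv V (Sum.elim L.y Y l)) (-X (Sum.inl (L.qw c)) : L.Po Θ) *
          resv V (mon L.τ (L.Er c) / mon L.τ (L.Ew c)) * ((L.Er c α : ℤ) : ResidueField V) := by
  refine (Ls_tt L.τ_ne_zero _ _ _ _ α).trans ?_
  rw [map_one, one_mul]

theorem Ls_ww (c c' : Fin N) :
    Ls V L.τ (Sum.elim L.y Y) (L.cc Θ (Sum.inr (Sum.inr (Sum.inr c))))
      (L.cx (Sum.inr (Sum.inr (Sum.inr c)))) (L.cs (Sum.inr (Sum.inr (Sum.inr c))))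
      (Sum.inr (Sum.inr (Sum.inr c'))) = if c' = c then (Nw c : ResidueField V) else 0 := by
  rw [Ls_w, LD.Er, EV_w, Pi.zero_apply, Int.cast_zero, mul_zero, add_zero, LD.Ew, EV_w,
    Pi.single_apply]
  split_ifs
  · rw [Int.cast_natCast]
  · exact zc0 V

end Diff

theorem sum_Cm {β : Type} [AddCommMonoid β] (f : L.Cm → β) : ∑ j, f j =
    ∑ s, f (Sum.inl s) + (∑ s, f (Sum.inr (Sum.inl s)) + (f (Sum.inr (Sum.inr (Sum.inl ()))) +
        ∑ c, f (Sum.inr (Sum.inr (Sum.inr c))))) := by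
  have h1 : ∀ g : Unit → β, ∑ u, g u = g () := fun g => by
    rw [Finset.univ_unique, Finset.sum_singleton]
  rw [Fintype.sum_sum_type, Fintype.sum_sum_type, Fintype.sum_sum_type, h1]

theorem D_ne (L : LD p V A d lam Nw ew M) [Algebra (ZMod p) (ResidueField V)] :
    aeval (fun s => resv V (L.y s)) L.D ≠ 0 := by
  have h3 := resv_aevalp V L.y L.vy L.D
  rw [← h3.2, resv_ne_zero_iff h3.1]
  exact L.vD

/-- **Local regularity from the special relations.** -/
theorem isRegular_common [Algebra (ZMod p) (ResidueField V)] {C : Cone (Ix A R N)}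
    (h : Cx L M' C) {Y : Θ → K} (hY : ∀ θ, V.valuation (Y θ) ≤ 1)
    {S : Type} [Fintype S] (c : S → Tx R → L.Po Θ) (x : S → Tx R → Ix A R N → ℤ) (s₀ : S → Tx R)
    (hmem : ∀ j s, x j s ∈ BX (Ix A R N) M')
    (hrel : ∀ j, ∑ s, aeval (Sum.elim L.y Y) (c j s) * mon L.τ (x j s) = 0)
    (hs₀ : ∀ j, c j (s₀ j) ≠ 0 ∨ ∀ s, c j s = 0)
    (hdom : ∀ j s, c j s ≠ 0 →
      V.valuation (mon L.τ (x j s)) ≤ V.valuation (mon L.τ (x j (s₀ j))))
    (hw : ∀ j c', Ls V L.τ (Sum.elim L.y Y) (c j) (x j) (s₀ j) (Sum.inr (Sum.inr (Sum.inr c'))) = 0)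
    (hind : ∀ (aT : ResidueField V) (a : S → ResidueField V),
      (∀ i, aT * (if i = L.m then 1 else 0) +
        ∑ j, a j * Ls V L.τ (Sum.elim L.y Y) (c j) (x j) (s₀ j) (Sum.inr (Sum.inl i)) = 0) →
      (∑ j, a j * Ls V L.τ (Sum.elim L.y Y) (c j) (x j) (s₀ j)
        (Sum.inr (Sum.inr (Sum.inl ()))) = 0) →
      (∀ θ, ∑ j, a j * Ds V L.τ (Sum.elim L.y Y) (c j) (x j) (s₀ j) (Sum.inr θ) = 0) →
      aT = 0 ∧ ∀ j, a j = 0)
    (hcard : R + 1 + Fintype.card Θ = (R - 2) + Fintype.card S) (hR : 2 ≤ R)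
    (halg : Algebra.IsAlgebraic (Algebra.adjoin (ZMod p)
      (Set.range (Sum.elim (fun j => mon L.τ (C.b j)) (Sum.elim L.y Y)))) K)
    (htr : ((d + (R - 2) : ℕ) : Cardinal.{0}) ≤ Algebra.trdeg (ZMod p) K) :
    IsRegularLocalRing (cring V L.τ (Sum.elim L.y Y) C) := by
  classical
  refine isRegular_of_terms (ZMod.ringHom_surjective (Int.castRingHom (ZMod p))) V L.τ_ne_zero
    h.hC h.hb (y := Sum.elim L.y Y) (fun l => ?_) halg (Sum.elim (L.cc Θ) c) (Sum.elim L.cx x)
    (Sum.elim L.cs s₀) ?_ ?_ ?_ ?_ ?_ ?_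
  · rcases l with l | θ
    · exact L.vy l
    · exact hY θ
  · rintro (j | j) s s'
    · exact h.hS _ (cx_mem h j s) _ (cx_mem h j s')
    · exact h.hS _ (hmem j s) _ (hmem j s')
  · rintro (j | j)
    · exact cc_rel Y j
    · exact hrel j
  · rintro (j | j)
    · exact cs_ok j
    · exact hs₀ j
  · rintro (j | j) s hs
    · exact cs_dom j s hs
    · exact hdom j s hs
  · have h5 : Fintype.card (Ix A R N) = Fintype.card A + (R + 1 + (1 + N)) := by
      rw [Fintype.card_sum, Fintype.card_sum, Fintype.card_sum, Fintype.card_fin,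
        Fintype.card_fin, Fintype.card_unit]
    have h6 : Fintype.card (Va L.n d ⊕ Θ) = L.n + d + Fintype.card Θ := by
      rw [Fintype.card_sum, Fintype.card_sum, Fintype.card_fin, Fintype.card_fin]
    have h7 : Fintype.card (L.Cm ⊕ S) = Fintype.card A + (L.n + (1 + N)) + Fintype.card S := by
      rw [Fintype.card_sum, Fintype.card_sum, Fintype.card_sum, Fintype.card_sum,
        Fintype.card_fin, Fintype.card_fin, Fintype.card_unit]
    have h1 : Fintype.card (Ix A R N) + Fintype.card (Va L.n d ⊕ Θ) =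
        (d + (R - 2)) + Fintype.card (L.Cm ⊕ S) := by
      rw [h5, h6, h7]
      omega
    calc ((Fintype.card (Ix A R N) : Cardinal.{0}) + Fintype.card (Va L.n d ⊕ Θ)) =
          ((Fintype.card (Ix A R N) + Fintype.card (Va L.n d ⊕ Θ) : ℕ) : Cardinal.{0}) := by
            push_cast; rfl
      _ = (((d + (R - 2)) + Fintype.card (L.Cm ⊕ S) : ℕ) : Cardinal.{0}) := by rw [h1]
      _ = ((d + (R - 2) : ℕ) : Cardinal.{0}) + Fintype.card (L.Cm ⊕ S) := by push_cast; rfl
      _ ≤ _ := by gcongr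
  · intro a hLα hTl
    obtain ⟨aI, haI⟩ : ∃ f : A → ResidueField V, f = fun i => a (Sum.inl (Sum.inl i)) := ⟨_, rfl⟩
    obtain ⟨aG, haG⟩ : ∃ f : Fin L.n → ResidueField V,
      f = fun s => a (Sum.inl (Sum.inr (Sum.inl s))) := ⟨_, rfl⟩
    obtain ⟨aP, haP⟩ : ∃ f : ResidueField V,
      f = a (Sum.inl (Sum.inr (Sum.inr (Sum.inl ())))) := ⟨_, rfl⟩
    obtain ⟨aW, haW⟩ : ∃ f : Fin N → ResidueField V,
      f = fun s => a (Sum.inl (Sum.inr (Sum.inr (Sum.inr s)))) := ⟨_, rfl⟩
    obtain ⟨aS, haS⟩ : ∃ f : S → ResidueField V, f = fun s => a (Sum.inr s) := ⟨_, rfl⟩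
    have hL : ∀ α, ∑ i, aI i * (if L.l i = none ∧ α = Sum.inl i then 1 else 0) +
        (aP * (if α = Sum.inr (Sum.inl L.m) then 1 else 0) +
          ∑ c, aW c * Ls V L.τ (Sum.elim L.y Y) (L.cc Θ (Sum.inr (Sum.inr (Sum.inr c))))
            (L.cx (Sum.inr (Sum.inr (Sum.inr c)))) (L.cs (Sum.inr (Sum.inr (Sum.inr c)))) α) +
        ∑ j, aS j * Ls V L.τ (Sum.elim L.y Y) (c j) (x j) (s₀ j) α = 0 := by
      intro α
      have h1 := hLα α
      rw [Fintype.sum_sum_type, sum_Cm] at h1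
      simp only [Sum.elim_inl, Sum.elim_inr, Ls_a, Ls_g, Ls_T, mul_zero, Finset.sum_const_zero,
        zero_add] at h1
      rw [haI, haP, haW, haS]
      exact h1
    have hD : ∀ l, ∑ i, aI i * (if ∃ x, L.l i = some x ∧ l = Sum.inl (Sum.inr x) then -1 else 0) +
        (∑ j, aG j * Ds V L.τ (Sum.elim L.y Y) (L.cc Θ (Sum.inr (Sum.inl j)))
          (L.cx (Sum.inr (Sum.inl j))) (L.cs (Sum.inr (Sum.inl j))) l +
          ∑ c, aW c * Ds V L.τ (Sum.elim L.y Y) (L.cc Θ (Sum.inr (Sum.inr (Sum.inr c))))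
            (L.cx (Sum.inr (Sum.inr (Sum.inr c)))) (L.cs (Sum.inr (Sum.inr (Sum.inr c)))) l) +
        ∑ j, aS j * Ds V L.τ (Sum.elim L.y Y) (c j) (x j) (s₀ j) l = 0 := by
      intro l
      have h1 := hTl l
      rw [Fintype.sum_sum_type, sum_Cm] at h1
      simp only [Sum.elim_inl, Sum.elim_inr, Ds_a, Ds_T, mul_zero, zero_add] at h1
      rw [haI, haG, haW, haS]
      exact h1
    suffices hall : (∀ i, aI i = 0) ∧ (∀ s, aG s = 0) ∧ aP = 0 ∧ (∀ μ, aW μ = 0) ∧
        (∀ c, aS c = 0) by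
      obtain ⟨h1, h2, h3, h4, h5⟩ := hall
      rw [haI] at h1
      rw [haG] at h2
      rw [haP] at h3
      rw [haW] at h4
      rw [haS] at h5
      rintro ((i | s | c | μ) | j)
      exacts [h1 i, h2 s, h3, h4 μ, h5 j]
    clear haI haG haP haW haS hLα hTl
    have hW : ∀ c, aW c = 0 := by
      intro c
      have h1 := hL (Sum.inr (Sum.inr (Sum.inr c)))
      rw [sum_zero_eq _ (fun i => by rw [if_neg (fun h => Sum.inr_ne_inl h.2), mul_zero]),
        if_neg (fun h => Sum.inr_ne_inl (Sum.inr_injective h)), mul_zero, zero_add, zero_add,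
        sum_zero_eq (fun j => aS j * _) (fun j => by rw [hw, mul_zero]), add_zero] at h1
      simp only [Ls_ww] at h1
      rw [sum_single_eq _ c fun c' hc => by rw [if_neg (Ne.symm hc), mul_zero], if_pos rfl] at h1
      exact (mul_eq_zero.mp h1).resolve_right (natCast_ne V (L.Nw0 c))
    have hW' : ∀ f : Fin N → ResidueField V, ∑ c, aW c * f c = 0 := fun f =>
      sum_zero_eq _ fun c => by rw [hW, zero_mul]
    have hTS : aP = 0 ∧ ∀ j, aS j = 0 := by
      refine hind aP aS (fun i => ?_) ?_ fun θ => ?_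
      · have h1 := hL (Sum.inr (Sum.inl i))
        rw [sum_zero_eq _ (fun i => by rw [if_neg (fun h => Sum.inr_ne_inl h.2), mul_zero]),
          hW', add_zero, zero_add] at h1
        by_cases hi : i = L.m
        · rw [if_pos (by rw [hi])] at h1
          rw [if_pos hi]
          exact h1
        · rw [if_neg (fun h => hi (Sum.inl_injective (Sum.inr_injective h)))] at h1
          rw [if_neg hi]
          exact h1
      · have h1 := hL (Sum.inr (Sum.inr (Sum.inl ())))
        rwa [sum_zero_eq _ (fun i => by rw [if_neg (fun h => Sum.inr_ne_inl h.2), mul_zero]),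
          hW', add_zero, zero_add, if_neg (fun h => Sum.inr_ne_inl (Sum.inr_injective h)),
          mul_zero, zero_add] at h1
      · have h1 := hD (Sum.inr θ)
        rwa [sum_zero_eq _ (fun i => by rw [if_neg (by
            rintro ⟨x, -, hx⟩
            exact Sum.inr_ne_inl hx), mul_zero]),
          hW', add_zero, zero_add, sum_zero_eq (fun j => aG j * _) (fun j => by
            rw [Ds_gΘ, mul_zero]), zero_add] at h1
    obtain ⟨hP, hS⟩ := hTS
    have hS' : ∀ f : S → ResidueField V, ∑ c, aS c * f c = 0 := fun f =>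
      sum_zero_eq _ fun c => by rw [hS, zero_mul]
    have hG : ∀ s, aG s = 0 := by
      refine L.ndg _ (fun s => resv V (L.y s)) (D_ne L) aG fun j => ?_
      have h1 := hD (Sum.inl (Sum.inl j))
      rw [sum_zero_eq _ (fun s => by
          rw [if_neg (by
            rintro ⟨x, -, hx⟩
            exact Sum.inl_ne_inr (Sum.inl_injective hx)), mul_zero]), hW', hS', zero_add,
          add_zero, add_zero] at h1
      rw [← h1]
      exact Finset.sum_congr rfl fun k _ => by rw [Ds_g]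
    have hG' : ∀ f : Fin L.n → ResidueField V, ∑ c, aG c * f c = 0 := fun f =>
      sum_zero_eq _ fun c => by rw [hG, zero_mul]
    refine ⟨fun s => ?_, hG, hP, hW, hS⟩
    cases hs : L.l s with
    | none =>
      have h1 := hL (Sum.inl s)
      rw [hW', hS', add_zero, add_zero, hP, zero_mul, add_zero,
        sum_single_eq _ s fun s' hne => by
          rw [if_neg (fun h' => hne (Sum.inl_injective h'.2).symm), mul_zero],
        if_pos ⟨hs, rfl⟩, mul_one] at h1
      exact h1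
    | some x =>
      have h1 := hD (Sum.inl (Sum.inr x))
      rw [hW', hS', hG', add_zero, add_zero, add_zero,
        sum_single_eq _ s fun s' hne => by
          rw [if_neg (by
            rintro ⟨x', hx', h'⟩
            apply hne
            rw [← Sum.inr_injective (Sum.inl_injective h')] at hx'
            exact L.linj s' s x hx' hs), mul_zero],
        if_pos ⟨x, hs, rfl⟩, mul_neg, mul_one] at h1
      exact neg_eq_zero.mp h1

end Pool.Agent.H96.Z
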