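import Pool.Agent.H96.Z.LN

/-!
# The charts at the critical point: the relations
-/

set_option autoImplicit false
set_option linter.unusedSectionVars false

namespace Pool.Agent.H96.Z

open MvPolynomial IsLocalRing Pool.Agent.H96.Reg Pool.Agent.H96.VL Pool.Agent.H96.W
open Pool.Agent.H96.W2 (BX mem_BX zero_mem_BX single_mem_BX single_one_mem_BX neg_mem_BX)
open Pool.Agent.H96.S (Va Ndg cond_t cond_f zc0 zc_ne resv_aevalp sum_single_eq sum_zero_eq)

section Field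

variable {B : Type} [Field B] {R : ℕ}

theorem prod_zpow_const (x : B) (hx : x ≠ 0) (e : Fin R → ℤ) : ∏ i, x ^ e i = x ^ ∑ i, e i := by
  classical
  refine Finset.induction_on (Finset.univ : Finset (Fin R)) (by simp) fun μ s hμ ih => ?_
  rw [Finset.prod_insert hμ, Finset.sum_insert hμ, ih, zpow_add₀ hx]

/-- The value of the circuit monomial. -/
theorem mon_circuit (lam : Fin (R + 1) → ℤ) (ζ : Fin (R + 1) → B) (u : Fin R → B)
    (hl : ∀ i, (lam i : B) ≠ 0) (h0 : ζ 0 ≠ 0) (hu : ∀ i, u i ≠ 0) (hs : ∑ i, lam i = 0)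
    (h : ∀ i, (lam 0 : B) * ζ i.succ = ζ 0 * (lam i.succ * u i)) :
    mon ζ lam * ∏ i, u i ^ (-lam i.succ).toNat = (∏ i, (lam i : B) ^ lam i) *
      ∏ i, u i ^ (lam i.succ).toNat := by
  have h1 : ∀ i : Fin R, ζ i.succ ^ lam i.succ = (ζ 0 ^ lam i.succ / (lam 0 : B) ^ lam i.succ) *
      ((lam i.succ : B) ^ lam i.succ * u i ^ lam i.succ) := by
    intro i
    have h2 : ζ i.succ = ζ 0 / lam 0 * (lam i.succ * u i) := by
      have h3 := h i
      have h4 := hl 0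
      field_simp
      linear_combination h3
    rw [h2, mul_zpow, mul_zpow, div_zpow]
  have h2 : ∀ i : Fin R, u i ^ lam i.succ * u i ^ (-lam i.succ).toNat =
      u i ^ (lam i.succ).toNat := by
    intro i
    rw [← zpow_natCast, ← zpow_natCast, ← zpow_add₀ (hu i)]
    congr 1
    omega
  have hs' : ∑ i : Fin R, lam i.succ = -lam 0 := by
    have := hs
    rw [Fin.sum_univ_succ] at this
    linarith
  rw [mon, Fin.prod_univ_succ, Fin.prod_univ_succ, Finset.prod_congr rfl fun i _ => h1 i,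
    Finset.prod_mul_distrib, Finset.prod_mul_distrib, Finset.prod_div_distrib,
    prod_zpow_const _ h0, prod_zpow_const _ (hl 0), hs']
  rw [← Finset.prod_congr rfl fun i _ => h2 i, Finset.prod_mul_distrib]
  rw [zpow_neg, zpow_neg]
  have h3 := zpow_ne_zero (lam 0) h0
  have h4 := zpow_ne_zero (lam 0) (hl 0)
  field_simp

end Field

variable {p : ℕ} [Fact p.Prime] {K : Type} [Field K] [Algebra (ZMod p) K]
  {V : ValuationSubring K} {A : Type} [Fintype A] [DecidableEq A] {d R N : ℕ}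
  {lam : Fin (R + 1) → ℤ} {Nw : Fin N → ℕ} {ew : Fin N → Fin (R + 1) → ℤ} {M M' : ℕ}
  {L : LD p V A d lam Nw ew M}

/-- The index set of the additional variables. -/
abbrev Tc (R : ℕ) : Type := Unit ⊕ Fin R

/-- The index set of the special relations. -/
abbrev Sc (R : ℕ) : Type := Fin R ⊕ (Unit ⊕ (Unit ⊕ (Unit ⊕ Unit)))

/-- The polynomials of the second order. -/
structure LD.Ci (L : LD p V A d lam Nw ew M) where
  Q : L.Po (Tc R)
  P : L.Po (Tc R)
  g : ∀ (B : Type) [Field B] [Algebra (ZMod p) B] (Y : Va L.n d ⊕ Tc R → B),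
    ∑ i, Y (Sum.inr (Sum.inr i)) = 0 →
    Y (Sum.inr (Sum.inl ())) ^ 2 * aeval Y Q =
      ∏ i, (1 + Y (Sum.inr (Sum.inl ())) * Y (Sum.inr (Sum.inr i)) * (lam (Fin.succ i) : B)⁻¹) ^
        (lam (Fin.succ i)).toNat -
      ∏ i, (1 + Y (Sum.inr (Sum.inl ())) * Y (Sum.inr (Sum.inr i)) * (lam (Fin.succ i) : B)⁻¹) ^
        (-lam (Fin.succ i)).toNat ∧
    aeval Y P = ∏ i, (1 + Y (Sum.inr (Sum.inl ())) * Y (Sum.inr (Sum.inr i)) *
      (lam (Fin.succ i) : B)⁻¹) ^ (-lam (Fin.succ i)).toNat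
  s : ∀ (B : Type) [Field B] [Algebra (ZMod p) B] (Y : Va L.n d ⊕ Tc R → B),
    Y (Sum.inr (Sum.inl ())) = 0 → ∑ i, Y (Sum.inr (Sum.inr i)) = 0 →
    2 * aeval Y Q = - ∑ i, Y (Sum.inr (Sum.inr i)) ^ 2 * (lam (Fin.succ i) : B)⁻¹ ∧
    (∃ E : B, ∀ i, aeval Y (pderiv (Sum.inr (Sum.inr i)) Q) =
      E - Y (Sum.inr (Sum.inr i)) * (lam (Fin.succ i) : B)⁻¹) ∧
    aeval Y P = 1 ∧ ∀ l, l ≠ Sum.inr (Sum.inl ()) → aeval Y (pderiv l P) = 0

theorem exists_ci (L : LD p V A d lam Nw ew M) : Nonempty L.Ci := by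
  obtain ⟨Q, P, h1, h2⟩ := exists_circuit (p := p) (fun i : Fin R => lam i.succ)
    (fun i => L.lamp i.succ) (Sum.inr (Sum.inl ()) : Va L.n d ⊕ Tc R)
    (fun i => Sum.inr (Sum.inr i)) (fun i j h => Sum.inr_injective (Sum.inr_injective h))
    fun i h => Sum.inr_ne_inl (Sum.inr_injective h)
  exact ⟨⟨Q, P, h1, h2⟩⟩

/-- The variables. -/
def LD.YC (L : LD p V A d lam Nw ew M) : Tc R → K :=
  Sum.elim (fun _ => L.σ / L.ζ 0) L.η

section Defs

variable (L) (c : L.Ci)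

/-- The coefficients of the special relations. -/
noncomputable def LD.kc : Sc R → Tx R → L.Po (Tc R) :=
  Sum.elim (fun i => c2 _ (MvPolynomial.C (lam 0 : ZMod p))
      (-(MvPolynomial.C (lam (Fin.succ i) : ZMod p) +
        X (Sum.inr (Sum.inl ())) * X (Sum.inr (Sum.inr i)))))
    (Sum.elim (fun _ => c2 _ 1 (-X (Sum.inr (Sum.inl ()))))
      (Sum.elim (fun _ => c2 _ (∑ i, X (Sum.inr (Sum.inr i))) 0)
        (Sum.elim (fun _ => c2 _ (X (Sum.inr (Sum.inr L.i0)) - 1) 0)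
          fun _ => c2 _ c.Q (cond L.dn (-(X (Sum.inl L.qd) * c.P)) 0))))

/-- The exponents of the special relations. -/
def LD.kx : Sc R → Tx R → Ix A R N → ℤ :=
  Sum.elim (fun i => x2 _ (gz A R N i.succ) (gz A R N 0))
    (Sum.elim (fun _ => x2 _ (EV 0 (Pi.single 0 (-1)) 1 0) 0)
      (Sum.elim (fun _ => x2 _ 0 0)
        (Sum.elim (fun _ => x2 _ 0 0)
          fun _ => x2 _ (EV 0 (Pi.single 0 (-2)) 2 0) (EV L.κd 0 0 0))))

/-- The leading terms of the special relations. -/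
def ks (R : ℕ) : Sc R → Tx R :=
  Sum.elim (fun _ => Sum.inr true)
    (Sum.elim (fun _ => Sum.inr false) fun _ => Sum.inr true)

end Defs

section Facts

theorem vlam [Algebra (ZMod p) (ResidueField V)] {x : ℤ} (hx : ¬ (p : ℤ) ∣ x) :
    V.valuation (x : K) = 1 := by
  rw [← resv_ne_zero_iff (LD.vint x), resv_intCast]
  exact zc_ne V hx

theorem lam_ne [Algebra (ZMod p) (ResidueField V)] {x : ℤ} (hx : ¬ (p : ℤ) ∣ x) :
    (x : K) ≠ 0 := by
  intro h
  have h1 := vlam (V := V) hx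
  rw [h, map_zero] at h1
  exact zero_ne_one h1

variable (L) [Algebra (ZMod p) (ResidueField V)]

/-- The residues of the forms are proportional to the exponents. -/
theorem resv_forms (hσ : V.valuation L.σ < 1) (i : Fin R) :
    (lam 0 : ResidueField V) * resv V (L.ζ i.succ) = lam i.succ * resv V (L.ζ 0) := by
  have h4 := (resv_aevalp V L.ζ L.vζ (MvPolynomial.C (lam 0 : ZMod p) * X i.succ -
    MvPolynomial.C (lam i.succ : ZMod p) * X 0)).2
  rw [map_sub, map_mul, map_mul, map_sub, map_mul, map_mul, aeval_C, aeval_C, aeval_X,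
    aeval_X, aeval_C, aeval_C, aeval_X, aeval_X, map_intCast, map_intCast, map_intCast,
    map_intCast, L.eqη] at h4
  have h5 : V.valuation (L.σ * L.η i) < 1 := by
    rw [map_mul]
    exact mul_lt_one_of_lt_of_le hσ (L.vη i)
  rw [(resv_eq_zero_iff h5.le).mpr h5] at h4
  exact (sub_eq_zero.mp h4.symm)

theorem vζ_zero (hσ : V.valuation L.σ < 1) : V.valuation (L.ζ 0) = 1 := by
  rw [← resv_ne_zero_iff (L.vζ 0)]
  intro h0
  have h1 : ∀ i : Fin (R + 1), resv V (L.ζ i) = 0 := by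
    intro i
    refine Fin.cases h0 (fun i => ?_) i
    have h2 := resv_forms L hσ i
    rw [h0, mul_zero] at h2
    exact (mul_eq_zero.mp h2).resolve_left (zc_ne V (L.lamp 0))
  have h2 := h1 L.m
  rw [L.ζm, resv_one] at h2
  exact one_ne_zero h2

theorem vζ_one (hσ : V.valuation L.σ < 1) (i : Fin (R + 1)) : V.valuation (L.ζ i) = 1 := by
  have h0 := vζ_zero L hσ
  refine Fin.cases h0 (fun i => ?_) i
  rw [← resv_ne_zero_iff (L.vζ _)] at h0 ⊢
  intro h1
  have h2 := resv_forms L hσ i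
  rw [h1, mul_zero] at h2
  rcases mul_eq_zero.mp h2.symm with h3 | h3
  · exact zc_ne V (L.lamp _) h3
  · exact h0 h3

theorem vω (hσ : V.valuation L.σ < 1) : V.valuation (L.σ / L.ζ 0) < 1 := by
  rw [map_div₀, vζ_zero L hσ, div_one]
  exact hσ

theorem vYC (hσ : V.valuation L.σ < 1) (θ : Tc R) : V.valuation (L.YC θ) ≤ 1 := by
  rcases θ with θ | i
  · exact (vω L hσ).le
  · exact L.vη i

theorem eq_form (i : Fin R) : (lam 0 : K) * L.ζ i.succ =
    L.ζ 0 * (lam i.succ + L.σ / L.ζ 0 * L.η i) := by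
  have h1 := L.eqη i
  have h2 := L.ζ0 0
  field_simp
  linear_combination h1

theorem sum_η : ∑ i, L.η i = 0 := by
  have h1 : L.σ * ∑ i, L.η i = 0 := by
    rw [Finset.mul_sum, ← Finset.sum_congr rfl fun i _ => L.eqη i, Finset.sum_sub_distrib,
      ← Finset.mul_sum, ← Finset.sum_mul]
    have h2 := L.ζs
    rw [Fin.sum_univ_succ] at h2
    have h3 : (lam 0 : K) + ∑ i : Fin R, (lam i.succ : K) = 0 := by
      have h4 := congrArg (Int.cast : ℤ → K) L.lams
      rw [Int.cast_sum, Int.cast_zero, Fin.sum_univ_succ] at h4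
      exact h4
    linear_combination (lam 0 : K) * h2 - L.ζ 0 * h3
  exact (mul_eq_zero.mp h1).resolve_left L.σ0

/-- The relation of the second order. -/
theorem rel_second (c : L.Ci) : (L.σ / L.ζ 0) ^ 2 * aeval (Sum.elim L.y L.YC) c.Q =
    cond L.dn (L.y L.qd * mon L.t L.κd) 0 * aeval (Sum.elim L.y L.YC) c.P := by
  obtain ⟨h1, h2⟩ := c.g K (Sum.elim L.y L.YC) (sum_η L)
  have hl : ∀ i, (lam i : K) ≠ 0 := fun i => lam_ne (V := V) (L.lamp i)
  have hu : ∀ i : Fin R, (lam i.succ : K) * (1 + L.σ / L.ζ 0 * L.η i * (lam i.succ : K)⁻¹) =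
      lam i.succ + L.σ / L.ζ 0 * L.η i := by
    intro i
    have h3 := hl i.succ
    field_simp
  have hu0 : ∀ i : Fin R, 1 + L.σ / L.ζ 0 * L.η i * (lam i.succ : K)⁻¹ ≠ 0 := by
    intro i h3
    have h4 := eq_form L i
    rw [← hu, h3, mul_zero, mul_zero] at h4
    exact mul_ne_zero (hl 0) (L.ζ0 _) h4
  have h3 := mon_circuit lam L.ζ (fun i => 1 + L.σ / L.ζ 0 * L.η i * (lam i.succ : K)⁻¹) hl
    (L.ζ0 0) hu0 L.lams fun i => by rw [hu]; exact eq_form L i
  rw [L.eqd] at h3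
  have hc0 : (∏ i, (lam i : K) ^ lam i) ≠ 0 :=
    Finset.prod_ne_zero_iff.mpr fun i _ => zpow_ne_zero _ (hl i)
  rw [mul_assoc] at h3
  have h4 := mul_left_cancel₀ hc0 h3
  refine h1.trans ?_
  rw [h2]
  show (∏ i : Fin R, (1 + L.σ / L.ζ 0 * L.η i * (lam i.succ : K)⁻¹) ^ (lam i.succ).toNat) -
    ∏ i : Fin R, (1 + L.σ / L.ζ 0 * L.η i * (lam i.succ : K)⁻¹) ^ (-lam i.succ).toNat = _ *
      ∏ i : Fin R, (1 + L.σ / L.ζ 0 * L.η i * (lam i.succ : K)⁻¹) ^ (-lam i.succ).toNat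
  rw [← h4]
  ring

end Facts

theorem kc_rel [Algebra (ZMod p) (ResidueField V)] (c : L.Ci) (j : Sc R) :
    ∑ s, aeval (Sum.elim L.y L.YC) (L.kc c j s) * mon L.τ (L.kx j s) = 0 := by
  rcases j with i | j | j | j | j
  · refine (rel_two (y := Sum.elim L.y L.YC) _ _ _ _).trans ?_
    rw [mon_gz, mon_gz, aeval_C, map_intCast, map_neg, map_add, aeval_C, map_intCast, map_mul,
      aeval_X, aeval_X]
    show (lam 0 : K) * L.ζ i.succ + -((lam i.succ : K) + L.σ / L.ζ 0 * L.η i) * L.ζ 0 = 0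
    linear_combination eq_form L i
  · refine (rel_two (y := Sum.elim L.y L.YC) _ _ _ _).trans ?_
    rw [L.mon_sz, zpow_one, mon_zero', map_one, map_neg, aeval_X]
    show 1 * (L.σ / L.ζ 0) + -(L.σ / L.ζ 0) * 1 = 0
    ring
  · refine (rel_two (y := Sum.elim L.y L.YC) _ _ _ _).trans ?_
    rw [map_zero, zero_mul, add_zero, map_sum]
    simp only [aeval_X]
    have h1 : ∑ i, Sum.elim L.y L.YC (Sum.inr (Sum.inr i)) = 0 := sum_η L
    rw [h1, zero_mul]
  · refine (rel_two (y := Sum.elim L.y L.YC) _ _ _ _).trans ?_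
    rw [map_zero, zero_mul, add_zero, map_sub, aeval_X, map_one]
    show (L.η L.i0 - 1) * _ = 0
    rw [L.ηi0, sub_self, zero_mul]
  · refine (rel_two (y := Sum.elim L.y L.YC) _ _ _ _).trans ?_
    rw [L.mon_sz, L.mon_t]
    have h1 := rel_second L c
    have h2 : (L.σ / L.ζ 0) ^ (2 : ℤ) = (L.σ / L.ζ 0) ^ 2 := zpow_natCast _ 2
    rw [h2]
    rcases Bool.eq_false_or_eq_true L.dn with h | h
    · rw [cond_t h] at h1 ⊢
      rw [map_neg, map_mul, aeval_X, Sum.elim_inl]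
      linear_combination h1
    · rw [cond_f h] at h1 ⊢
      rw [map_zero]
      linear_combination h1

theorem kx_mem {C : Cone (Ix A R N)} (h : Cx L M' C) (j : Sc R) (s : Tx R) :
    L.kx j s ∈ BX (Ix A R N) M' := by
  have h1 : |(1 : ℤ)| ≤ (M' : ℤ) := by
    rw [abs_one]
    exact_mod_cast (show 1 ≤ M' from (by decide : 1 ≤ 2).trans h.h2)
  have h1' : |(-1 : ℤ)| ≤ (M' : ℤ) := by rwa [abs_neg]
  have h2 : |(2 : ℤ)| ≤ (M' : ℤ) := by
    rw [show |(2 : ℤ)| = ((2 : ℕ) : ℤ) from rfl]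
    exact_mod_cast h.h2
  have h2' : |(-2 : ℤ)| ≤ (M' : ℤ) := by rwa [abs_neg]
  have h3 : ∀ x : ℤ, |x| ≤ M → |x| ≤ M' := fun x hx => hx.trans (by exact_mod_cast h.hM)
  rcases j with i | j | j | j | j <;> rcases s with s | _ | _
  · exact zero_mem_BX
  · exact gz_mem h.h2 _
  · exact gz_mem h.h2 _
  · exact zero_mem_BX
  · exact zero_mem_BX
  · exact EV_mem abs_fz_le (abs_single h1' _) h1 abs_fz_le
  · exact zero_mem_BX
  · exact zero_mem_BX
  · exact zero_mem_BX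
  · exact zero_mem_BX
  · exact zero_mem_BX
  · exact zero_mem_BX
  · exact zero_mem_BX
  · exact EV_mem (fun a => h3 _ (L.κdM a)) abs_fz_le abs_zero_le abs_fz_le
  · exact EV_mem abs_fz_le (abs_single h2' _) h2 abs_fz_le

end Pool.Agent.H96.Z
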