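import Pool.Agent.H96.Z.LC

/-!
# The charts at the critical point: regularity
-/

set_option autoImplicit false
set_option linter.unusedSectionVars false

namespace Pool.Agent.H96.Z

open MvPolynomial IsLocalRing Pool.Agent.H96.Reg Pool.Agent.H96.VL Pool.Agent.H96.W
open Pool.Agent.H96.W2 (BX mem_BX zero_mem_BX single_mem_BX single_one_mem_BX neg_mem_BX)
open Pool.Agent.H96.S (Va Ndg cond_t cond_f zc0 zc_ne resv_aevalp sum_single_eq sum_zero_eq)

variable {p : ℕ} [Fact p.Prime] {K : Type} [Field K] [Algebra (ZMod p) K]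
  {V : ValuationSubring K} {A : Type} [Fintype A] [DecidableEq A] {d R N : ℕ}
  {lam : Fin (R + 1) → ℤ} {Nw : Fin N → ℕ} {ew : Fin N → Fin (R + 1) → ℤ} {M M' : ℕ}
  {L : LD p V A d lam Nw ew M}

section Alg

variable {B : Type} [Field B]

/-- The criterion for the last block. -/
theorem crit (lam : Fin (R + 1) → ℤ) (hl : ∀ i, (lam i : B) ≠ 0) (hs : ∑ i, (lam i : B) = 0)
    (i0 : Fin R) (y : Fin R → B) (hy : ∑ i, y i = 0) (hy0 : y i0 = 1) (a b c E : B)
    (h1 : c * ∑ i, y i ^ 2 * (lam (Fin.succ i) : B)⁻¹ = 0)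
    (h2 : ∀ i, a + b * (if i = i0 then 1 else 0) + c * (E - y i * (lam (Fin.succ i) : B)⁻¹) = 0) :
    a = 0 ∧ b = 0 ∧ c = 0 := by
  classical
  have hs' : ∑ i : Fin R, (lam i.succ : B) = -lam 0 := by
    rw [Fin.sum_univ_succ] at hs
    linear_combination hs
  have hb : b = 0 := by
    have h3 : ∑ i, y i * (a + b * (if i = i0 then 1 else 0) +
        c * (E - y i * (lam (Fin.succ i) : B)⁻¹)) = 0 :=
      Finset.sum_eq_zero fun i _ => by rw [h2, mul_zero]
    have h4 : ∀ i, y i * (a + b * (if i = i0 then 1 else 0) +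
        c * (E - y i * (lam (Fin.succ i) : B)⁻¹)) = (a + c * E) * y i +
          (b * (if i = i0 then y i else 0) - c * (y i ^ 2 * (lam (Fin.succ i) : B)⁻¹)) := by
      intro i
      split_ifs <;> ring
    rw [Finset.sum_congr rfl fun i _ => h4 i, Finset.sum_add_distrib, Finset.sum_sub_distrib,
      ← Finset.mul_sum, ← Finset.mul_sum, ← Finset.mul_sum, hy, h1,
      Finset.sum_ite_eq' Finset.univ i0, if_pos (Finset.mem_univ _), hy0] at h3
    linear_combination h3
  have h3 : ∀ i, (lam (Fin.succ i) : B) * (a + c * E) = c * y i := by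
    intro i
    have h4 := h2 i
    rw [hb, zero_mul, add_zero] at h4
    have h5 := hl i.succ
    field_simp at h4
    linear_combination h4
  have h4 : a + c * E = 0 := by
    have h5 : ∑ i : Fin R, (lam (Fin.succ i) : B) * (a + c * E) = ∑ i, c * y i :=
      Finset.sum_congr rfl fun i _ => h3 i
    rw [← Finset.sum_mul, hs', ← Finset.mul_sum, hy, mul_zero] at h5
    rcases mul_eq_zero.mp h5 with h6 | h6
    · exact absurd (neg_eq_zero.mp h6) (hl 0)
    · exact h6
  have hc : c = 0 := by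
    have h5 := h3 i0
    rw [h4, mul_zero, hy0, mul_one] at h5
    exact h5.symm
  refine ⟨?_, hb, hc⟩
  rw [hc, zero_mul, add_zero] at h4
  exact h4

end Alg

variable [Algebra (ZMod p) (ResidueField V)]

section Res

variable (L)

/-- The point of the residue field. -/
noncomputable abbrev LD.yr : Va L.n d ⊕ Tc R → ResidueField V :=
  fun l => resv V (Sum.elim L.y L.YC l)

theorem yr_ω (hσ : V.valuation L.σ < 1) : L.yr (Sum.inr (Sum.inl ())) = 0 :=
  (resv_eq_zero_iff (vω L hσ).le).mpr (vω L hσ)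

theorem yr_sum : ∑ i, L.yr (Sum.inr (Sum.inr i)) = 0 := by
  have h4 := (resv_aevalp V L.η L.vη (∑ i, X i : MvPolynomial (Fin R) (ZMod p))).2
  rw [map_sum, map_sum] at h4
  simp only [aeval_X] at h4
  rw [sum_η L, resv_zero] at h4
  exact h4.symm

theorem yr_i0 : L.yr (Sum.inr (Sum.inr L.i0)) = 1 := by
  show resv V (L.η L.i0) = 1
  rw [L.ηi0, resv_one]

theorem lam_res (L : LD p V A d lam Nw ew M) (i : Fin (R + 1)) :
    (lam i : ResidueField V) ≠ 0 := zc_ne V (L.lamp i)

theorem lams_res (L : LD p V A d lam Nw ew M) : ∑ i, (lam i : ResidueField V) = 0 := by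
  rw [← Int.cast_sum, L.lams, Int.cast_zero]

theorem Q_ne (hσ : V.valuation L.σ < 1) (c : L.Ci) : c.Q ≠ 0 := by
  intro h
  obtain ⟨-, ⟨E, hE⟩, -, -⟩ := c.s _ L.yr (yr_ω L hσ) (yr_sum L)
  rw [h] at hE
  have h2 := (c.s _ L.yr (yr_ω L hσ) (yr_sum L)).1
  rw [h, map_zero, mul_zero] at h2
  have h1 := crit lam (lam_res L) (lams_res L) L.i0 (fun i => L.yr (Sum.inr (Sum.inr i)))
    (yr_sum L) (yr_i0 L) 0 0 1 E (by
      rw [one_mul]
      exact neg_eq_zero.mp h2.symm) (fun i => by
      have h3 := hE i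
      rw [map_zero, map_zero] at h3
      rw [zero_mul, add_zero, one_mul, zero_add, h3])
  exact one_ne_zero h1.2.2

theorem vyy (hσ : V.valuation L.σ < 1) (l : Va L.n d ⊕ Tc R) :
    V.valuation (Sum.elim L.y L.YC l) ≤ 1 := by
  rcases l with l | θ
  · exact L.vy l
  · exact vYC L hσ θ

theorem vP (hσ : V.valuation L.σ < 1) (c : L.Ci) :
    V.valuation (aeval (Sum.elim L.y L.YC) c.P) = 1 := by
  have h1 := resv_aevalp V (Sum.elim L.y L.YC) (vyy L hσ) c.P
  rw [← resv_ne_zero_iff h1.1, h1.2, (c.s _ L.yr (yr_ω L hσ) (yr_sum L)).2.2.1]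
  exact one_ne_zero

end Res

theorem ks_ok (hσ : V.valuation L.σ < 1) (c : L.Ci) (j : Sc R) :
    L.kc c j (ks R j) ≠ 0 ∨ ∀ s, L.kc c j s = 0 := by
  classical
  rcases j with i | j | j | j | j
  · left
    show MvPolynomial.C (lam 0 : ZMod p) ≠ 0
    rw [Ne, MvPolynomial.C_eq_zero, ZMod.intCast_zmod_eq_zero_iff_dvd]
    exact L.lamp 0
  · exact Or.inl (neg_ne_zero.mpr (X_ne_zero _))
  · left
    show (∑ i, X (Sum.inr (Sum.inr i)) : L.Po (Tc R)) ≠ 0
    intro h
    have h1 := congrArg (aeval (fun l => if l = (Sum.inr (Sum.inr L.i0) : Va L.n d ⊕ Tc R) then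
      (1 : ZMod p) else 0)) h
    rw [map_zero, map_sum] at h1
    simp only [aeval_X] at h1
    rw [Finset.sum_eq_single L.i0] at h1
    · rw [if_pos rfl] at h1
      exact one_ne_zero h1
    · intro i _ hi
      rw [if_neg (fun h => hi (Sum.inr_injective (Sum.inr_injective h)))]
    · intro h; exact absurd (Finset.mem_univ _) h
  · left
    show (X (Sum.inr (Sum.inr L.i0)) - 1 : L.Po (Tc R)) ≠ 0
    intro h
    have h1 := congrArg (aeval (fun _ => (0 : ZMod p))) h
    rw [map_zero, map_sub, aeval_X, map_one, zero_sub] at h1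
    exact one_ne_zero (neg_eq_zero.mp h1)
  · exact Or.inl (Q_ne L hσ c)

theorem ks_dom (hσ : V.valuation L.σ < 1) (c : L.Ci) (j : Sc R) (s : Tx R)
    (hs : L.kc c j s ≠ 0) :
    V.valuation (mon L.τ (L.kx j s)) ≤ V.valuation (mon L.τ (L.kx j (ks R j))) := by
  rcases j with i | j | j | j | j <;> rcases s with s | _ | _
  · exact absurd rfl hs
  · show V.valuation (mon L.τ (gz A R N 0)) ≤ V.valuation (mon L.τ (gz A R N i.succ))
    rw [mon_gz, mon_gz, vζ_one L hσ, vζ_one L hσ]
  · exact le_rfl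
  · exact absurd rfl hs
  · exact le_rfl
  · show V.valuation (mon L.τ (EV 0 (Pi.single 0 (-1)) 1 0)) ≤ V.valuation (mon L.τ 0)
    rw [L.mon_sz, zpow_one, mon_zero', map_one]
    exact (vω L hσ).le
  · exact absurd rfl hs
  · exact absurd rfl hs
  · exact le_rfl
  · exact absurd rfl hs
  · exact absurd rfl hs
  · exact le_rfl
  · exact absurd rfl hs
  · show V.valuation (mon L.τ (EV L.κd 0 0 0)) ≤
      V.valuation (mon L.τ (EV 0 (Pi.single 0 (-2)) 2 0))
    have h1 := rel_second L c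
    have h2 : L.dn = true := by
      rcases Bool.eq_false_or_eq_true L.dn with h | h
      · exact h
      · exfalso
        apply hs
        show cond L.dn _ (0 : L.Po (Tc R)) = 0
        rw [cond_f h]
    rw [cond_t h2] at h1
    have h3 := congrArg V.valuation h1
    rw [map_mul, map_mul, map_mul, L.vqd, one_mul, vP L hσ c, mul_one] at h3
    have h4 : (L.σ / L.ζ 0) ^ (2 : ℤ) = (L.σ / L.ζ 0) ^ 2 := zpow_natCast _ 2
    rw [L.mon_t, L.mon_sz, h4, ← h3]
    exact mul_le_of_le_one_right' (resv_aevalp V _ (vyy L hσ) c.Q).1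
  · exact le_rfl

/-- **The charts at the critical point are regular.** -/
theorem isRegular_C {C : Cone (Ix A R N)} (c : L.Ci)
    (h : Cx L M' C) (hσ : V.valuation L.σ < 1) (hR : 2 ≤ R)
    (halg : Algebra.IsAlgebraic (Algebra.adjoin (ZMod p)
      (Set.range (Sum.elim (fun j => mon L.τ (C.b j)) (Sum.elim L.y L.YC)))) K)
    (htr : ((d + (R - 2) : ℕ) : Cardinal.{0}) ≤ Algebra.trdeg (ZMod p) K) :
    IsRegularLocalRing (cring V L.τ (Sum.elim L.y L.YC) C) := by
  classical
  obtain ⟨hQ2, ⟨E, hE⟩, hP1, hPd⟩ := c.s _ L.yr (yr_ω L hσ) (yr_sum L)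
  -- the special relations
  have hZ : ∀ (i : Fin R) α, Ls V L.τ (Sum.elim L.y L.YC) (L.kc c (Sum.inl i)) (L.kx (Sum.inl i))
      (ks R (Sum.inl i)) α = (lam 0 : ResidueField V) * ((gz A R N i.succ α : ℤ) : ResidueField V) +
        (-(lam i.succ : ResidueField V)) * resv V (L.ζ 0 / L.ζ i.succ) *
          ((gz A R N 0 α : ℤ) : ResidueField V) := by
    intro i α
    refine (Ls_tt L.τ_ne_zero _ _ _ _ α).trans ?_
    have hω : resv V (Sum.elim L.y L.YC (Sum.inr (Sum.inl ()))) = 0 := yr_ω L hσ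
    rw [aeval_C, map_intCast, map_neg, map_add, aeval_C, map_intCast, map_mul, aeval_X,
      hω, zero_mul, add_zero, mon_gz, mon_gz]
  have hI : ∀ α, Ls V L.τ (Sum.elim L.y L.YC) (L.kc c (Sum.inr (Sum.inl ())))
      (L.kx (Sum.inr (Sum.inl ()))) (ks R (Sum.inr (Sum.inl ()))) α = 0 := by
    intro α
    refine Ls_V ?_ _ α
    rw [L.mon_sz, zpow_one]
    exact vω L hσ
  have hI' : ∀ l, Ds V L.τ (Sum.elim L.y L.YC) (L.kc c (Sum.inr (Sum.inl ())))
      (L.kx (Sum.inr (Sum.inl ()))) (ks R (Sum.inr (Sum.inl ()))) l =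
      if l = Sum.inr (Sum.inl ()) then (-1 : ResidueField V) else 0 := by
    intro l
    exact Ds_V _ l
  have hΛ : ∀ α, Ls V L.τ (Sum.elim L.y L.YC) (L.kc c (Sum.inr (Sum.inr (Sum.inl ()))))
      (L.kx (Sum.inr (Sum.inr (Sum.inl ())))) (ks R (Sum.inr (Sum.inr (Sum.inl ())))) α = 0 :=
    fun α => Ls_G _ _ α
  have hΛ' : ∀ i, Ds V L.τ (Sum.elim L.y L.YC) (L.kc c (Sum.inr (Sum.inr (Sum.inl ()))))
      (L.kx (Sum.inr (Sum.inr (Sum.inl ())))) (ks R (Sum.inr (Sum.inr (Sum.inl ()))))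
      (Sum.inr (Sum.inr i)) = 1 := by
    intro i
    refine (Ds_G _ _).trans ?_
    rw [map_sum, map_sum, Finset.sum_eq_single i]
    · rw [pderiv_X, Pi.single_eq_same, map_one]
    · intro j _ hj
      rw [pderiv_X, Pi.single_eq_of_ne (fun h => hj (Sum.inr_injective (Sum.inr_injective h))),
        map_zero]
    · intro h; exact absurd (Finset.mem_univ _) h
  have hX : ∀ α, Ls V L.τ (Sum.elim L.y L.YC) (L.kc c (Sum.inr (Sum.inr (Sum.inr (Sum.inl ())))))
      (L.kx (Sum.inr (Sum.inr (Sum.inr (Sum.inl ())))))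
      (ks R (Sum.inr (Sum.inr (Sum.inr (Sum.inl ()))))) α = 0 :=
    fun α => Ls_G _ _ α
  have hX' : ∀ i, Ds V L.τ (Sum.elim L.y L.YC) (L.kc c (Sum.inr (Sum.inr (Sum.inr (Sum.inl ())))))
      (L.kx (Sum.inr (Sum.inr (Sum.inr (Sum.inl ())))))
      (ks R (Sum.inr (Sum.inr (Sum.inr (Sum.inl ())))))
      (Sum.inr (Sum.inr i)) = if i = L.i0 then 1 else 0 := by
    intro i
    refine (Ds_G _ _).trans ?_
    rw [map_sub, ← MvPolynomial.C_1, pderiv_C, sub_zero, pderiv_X]
    by_cases hi : i = L.i0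
    · rw [if_pos hi, hi, Pi.single_eq_same, map_one]
    · rw [if_neg hi, Pi.single_eq_of_ne (fun h => hi (Sum.inr_injective (Sum.inr_injective
        h)).symm), map_zero]
  have hJ : ∀ α, Ls V L.τ (Sum.elim L.y L.YC) (L.kc c (Sum.inr (Sum.inr (Sum.inr (Sum.inr ())))))
      (L.kx (Sum.inr (Sum.inr (Sum.inr (Sum.inr ())))))
      (ks R (Sum.inr (Sum.inr (Sum.inr (Sum.inr ()))))) α =
      aeval L.yr c.Q * ((EV (A := A) (R := R) (N := N) 0 (Pi.single 0 (-2)) 2 0 α : ℤ) :
        ResidueField V) +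
      aeval L.yr (cond L.dn (-(X (Sum.inl L.qd) * c.P)) 0) *
        resv V (mon L.τ (EV L.κd 0 0 0) / mon L.τ (EV 0 (Pi.single 0 (-2)) 2 0)) *
        ((EV L.κd 0 0 0 α : ℤ) : ResidueField V) := by
    intro α
    exact Ls_tt L.τ_ne_zero _ _ _ _ α
  have hJ' : ∀ i, Ds V L.τ (Sum.elim L.y L.YC) (L.kc c (Sum.inr (Sum.inr (Sum.inr (Sum.inr ())))))
      (L.kx (Sum.inr (Sum.inr (Sum.inr (Sum.inr ())))))
      (ks R (Sum.inr (Sum.inr (Sum.inr (Sum.inr ())))))
      (Sum.inr (Sum.inr i)) = E - L.yr (Sum.inr (Sum.inr i)) * (lam i.succ : ResidueField V)⁻¹ := by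
    intro i
    refine (Ds_tt L.τ_ne_zero _ _ _ _ _).trans ?_
    rw [hE i]
    have h1 : aeval L.yr (pderiv (Sum.inr (Sum.inr i))
        (cond L.dn (-(X (Sum.inl L.qd) * c.P)) 0 : L.Po (Tc R))) = 0 := by
      rcases Bool.eq_false_or_eq_true L.dn with h | h
      · rw [cond_t h, map_neg, Derivation.leibniz, pderiv_X,
          Pi.single_eq_of_ne (show (Sum.inl L.qd : Va L.n d ⊕ Tc R) ≠ Sum.inr (Sum.inr i) from
            Sum.inl_ne_inr), smul_zero, add_zero, smul_eq_mul,
          map_neg, map_mul, hPd _ (fun h => Sum.inr_ne_inl (Sum.inr_injective h)), mul_zero,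
          neg_zero]
      · rw [cond_f h, map_zero, map_zero]
    rw [h1, zero_mul, add_zero]
  have hu : ∀ g : Unit → ResidueField V, ∑ u, g u = g () := fun g => by
    rw [Finset.univ_unique, Finset.sum_singleton]
  have hsum : ∀ g : Sc R → ResidueField V, ∑ j, g j = ∑ i, g (Sum.inl i) +
      (g (Sum.inr (Sum.inl ())) + (g (Sum.inr (Sum.inr (Sum.inl ()))) +
        (g (Sum.inr (Sum.inr (Sum.inr (Sum.inl ())))) +
          g (Sum.inr (Sum.inr (Sum.inr (Sum.inr ()))))))) := fun g => by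
    rw [Fintype.sum_sum_type, Fintype.sum_sum_type, Fintype.sum_sum_type, Fintype.sum_sum_type,
      hu, hu, hu, hu]
  refine isRegular_common (Θ := Tc R) h (Y := L.YC) (vYC L hσ) (L.kc c) L.kx (ks R) (kx_mem h)
    (kc_rel c) (ks_ok hσ c) (ks_dom hσ c) ?_ ?_ ?_ hR halg htr
  · rintro (i | j | j | j | j) c'
    · refine (hZ _ _).trans ?_
      rw [gz, gz, EV_w, EV_w, Pi.zero_apply, Int.cast_zero, mul_zero, mul_zero, add_zero]
    · exact hI _
    · exact hΛ _
    · exact hX _
    · refine (hJ _).trans ?_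
      rw [EV_w, EV_w, Pi.zero_apply, Int.cast_zero, mul_zero, mul_zero, add_zero]
  · intro aT a h1 h2 h3
    obtain ⟨aZ, haZ⟩ : ∃ f : Fin R → ResidueField V, f = fun i => a (Sum.inl i) := ⟨_, rfl⟩
    obtain ⟨aI, haI⟩ : ∃ f, f = a (Sum.inr (Sum.inl ())) := ⟨_, rfl⟩
    obtain ⟨aL, haL⟩ : ∃ f, f = a (Sum.inr (Sum.inr (Sum.inl ()))) := ⟨_, rfl⟩
    obtain ⟨aX, haX⟩ : ∃ f, f = a (Sum.inr (Sum.inr (Sum.inr (Sum.inl ())))) := ⟨_, rfl⟩
    obtain ⟨aJ, haJ⟩ : ∃ f, f = a (Sum.inr (Sum.inr (Sum.inr (Sum.inr ())))) := ⟨_, rfl⟩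
    -- the direction of `σ`
    have hS : aJ * (aeval L.yr c.Q * 2) = 0 := by
      rw [hsum] at h2
      simp only [hZ, hI, hΛ, hX, hJ] at h2
      rw [EV_s, EV_s] at h2
      have h4 : ∀ i : Fin (R + 1), gz A R N i (Sum.inr (Sum.inr (Sum.inl ()))) = 0 := fun _ => rfl
      simp only [h4, Int.cast_zero, mul_zero, add_zero, zero_add, Finset.sum_const_zero,
        Int.cast_ofNat] at h2
      rw [haJ]
      exact h2
    -- the directions of the forms
    have hzz : ∀ i, aT * (if i = L.m then 1 else 0) +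
        ∑ j, aZ j * ((lam 0 : ResidueField V) *
            ((gz A R N j.succ (Sum.inr (Sum.inl i)) : ℤ) : ResidueField V) +
          (-(lam j.succ : ResidueField V)) * resv V (L.ζ 0 / L.ζ j.succ) *
            ((gz A R N 0 (Sum.inr (Sum.inl i)) : ℤ) : ResidueField V)) = 0 := by
      intro i
      have h4 := h1 i
      rw [hsum] at h4
      simp only [hZ, hI, hΛ, hX, hJ] at h4
      rw [EV_z, EV_z, Pi.zero_apply, Int.cast_zero, mul_zero, mul_zero, mul_zero, mul_zero,
        add_zero, zero_add, zero_add, zero_add, ← haJ] at h4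
      have h5 : aJ * (aeval L.yr c.Q *
          (((Pi.single 0 (-2) : Fin (R + 1) → ℤ) i : ℤ) : ResidueField V)) = 0 := by
        rw [Pi.single_apply]
        split_ifs
        · rw [Int.cast_neg, Int.cast_ofNat]
          linear_combination -hS
        · rw [Int.cast_zero, mul_zero, mul_zero]
      rw [h5, add_zero] at h4
      rw [haZ]
      exact h4
    have hz1 : ∀ i : Fin R, aT * (if i.succ = L.m then 1 else 0) +
        aZ i * (lam 0 : ResidueField V) = 0 := by
      intro i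
      have h4 := hzz i.succ
      rw [Finset.sum_eq_single i] at h4
      · rw [gz, gz, EV_z, EV_z, Pi.single_eq_same, Pi.single_eq_of_ne (Fin.succ_ne_zero i),
          Int.cast_one, Int.cast_zero, mul_one, mul_zero, add_zero] at h4
        exact h4
      · intro j _ hj
        rw [gz, gz, EV_z, EV_z, Pi.single_eq_of_ne (fun h => hj (Fin.succ_injective _ h).symm),
          Pi.single_eq_of_ne (Fin.succ_ne_zero i), Int.cast_zero, mul_zero, mul_zero, add_zero,
          mul_zero]
      · intro h; exact absurd (Finset.mem_univ _) h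
    have hz0 : aT * (if 0 = L.m then 1 else 0) +
        ∑ j, aZ j * (-(lam j.succ : ResidueField V) * resv V (L.ζ 0 / L.ζ j.succ)) = 0 := by
      have h4 := hzz 0
      have h5 : ∀ j : Fin R, gz A R N j.succ (Sum.inr (Sum.inl 0)) = 0 := by
        intro j
        rw [gz, EV_z, Pi.single_eq_of_ne (Ne.symm (Fin.succ_ne_zero j))]
      have h6 : gz A R N 0 (Sum.inr (Sum.inl 0)) = 1 := by
        rw [gz, EV_z, Pi.single_eq_same]
      simp only [h5, h6, Int.cast_zero, Int.cast_one, mul_zero, mul_one, zero_add] at h4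
      exact h4
    have hl0 := lam_res L
    have hZT : (∀ i, aZ i = 0) ∧ aT = 0 := by
      rcases Fin.eq_zero_or_eq_succ L.m with hm | ⟨m, hm⟩
      · have h4 : ∀ i, aZ i = 0 := by
          intro i
          have h5 := hz1 i
          rw [if_neg (by rw [hm]; exact Fin.succ_ne_zero i), mul_zero, zero_add] at h5
          exact (mul_eq_zero.mp h5).resolve_right (hl0 0)
        refine ⟨h4, ?_⟩
        rw [if_pos hm.symm, mul_one, sum_zero_eq _ fun j => by rw [h4, zero_mul], add_zero] at hz0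
        exact hz0
      · have h4 : ∀ i, i ≠ m → aZ i = 0 := by
          intro i hi
          have h5 := hz1 i
          rw [if_neg (by rw [hm]; exact fun h => hi (Fin.succ_injective _ h)), mul_zero,
            zero_add] at h5
          exact (mul_eq_zero.mp h5).resolve_right (hl0 0)
        have h5 : aZ m = 0 := by
          rw [if_neg (by rw [hm]; exact Ne.symm (Fin.succ_ne_zero m)), mul_zero, zero_add,
            sum_single_eq _ m fun j hj => by rw [h4 j hj, zero_mul]] at hz0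
          refine (mul_eq_zero.mp hz0).resolve_right (mul_ne_zero (neg_ne_zero.mpr (hl0 _)) ?_)
          have h6 : V.valuation (L.ζ 0 / L.ζ m.succ) = 1 := by
            rw [map_div₀, vζ_one L hσ, vζ_one L hσ, div_one]
          exact (resv_ne_zero_iff h6.le).mpr h6
        refine ⟨fun i => ?_, ?_⟩
        · by_cases hi : i = m
          · rw [hi, h5]
          · exact h4 i hi
        · have h6 := hz1 m
          rw [if_pos hm.symm, h5, zero_mul, add_zero, mul_one] at h6
          exact h6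
    obtain ⟨hZ0, hT0⟩ := hZT
    -- the directions of the `y`
    have hy : ∀ i, aL + aX * (if i = L.i0 then 1 else 0) +
        aJ * (E - L.yr (Sum.inr (Sum.inr i)) * (lam i.succ : ResidueField V)⁻¹) = 0 := by
      intro i
      have h4 := h3 (Sum.inr i)
      have h5 : ∀ j, a (Sum.inl j) = 0 := fun j => by
        have := hZ0 j
        rwa [haZ] at this
      rw [hsum, sum_zero_eq _ fun j => by rw [h5, zero_mul], hI', hΛ', hX', hJ',
        if_neg (fun h => Sum.inr_ne_inl (Sum.inr_injective h)), mul_zero, zero_add, zero_add,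
        mul_one, ← haL, ← haX, ← haJ, ← add_assoc] at h4
      exact h4
    obtain ⟨hL0, hX0, hJ0⟩ := crit lam hl0 (lams_res L) L.i0
      (fun i => L.yr (Sum.inr (Sum.inr i))) (yr_sum L) (yr_i0 L) aL aX aJ E (by
        linear_combination -hS + aJ * hQ2) hy
    have hI0 : aI = 0 := by
      have h4 := h3 (Sum.inl ())
      have h5 : ∀ j, a (Sum.inl j) = 0 := fun j => by
        have := hZ0 j
        rwa [haZ] at this
      rw [hsum, sum_zero_eq _ fun j => by rw [h5, zero_mul], hI', if_pos rfl, ← haL, ← haX,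
        ← haJ, hL0, hX0, hJ0, zero_mul, zero_mul, zero_mul, add_zero, add_zero, add_zero,
        zero_add, ← haI, mul_neg, mul_one] at h4
      exact neg_eq_zero.mp h4
    refine ⟨hT0, ?_⟩
    rintro (i | j | j | j | j)
    · have := hZ0 i
      rwa [haZ] at this
    exacts [haI ▸ hI0, haL ▸ hL0, haX ▸ hX0, haJ ▸ hJ0]
  · rw [Fintype.card_sum, Fintype.card_sum, Fintype.card_sum, Fintype.card_sum, Fintype.card_sum,
      Fintype.card_fin, Fintype.card_unit]
    omega

end Pool.Agent.H96.Z
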