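import Pool.Agent.H96.Z.LB

/-!
# The charts away from the critical point
-/

set_option autoImplicit false
set_option linter.unusedSectionVars false

namespace Pool.Agent.H96.Z

open MvPolynomial IsLocalRing Pool.Agent.H96.Reg Pool.Agent.H96.VL Pool.Agent.H96.W
open Pool.Agent.H96.W2 (BX mem_BX zero_mem_BX single_mem_BX single_one_mem_BX neg_mem_BX)
open Pool.Agent.H96.S (Va Ndg cond_t cond_f zc0 zc_ne resv_aevalp sum_single_eq sum_zero_eq)

variable {p : ℕ} [Fact p.Prime] {K : Type} [Field K] [Algebra (ZMod p) K]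
  {V : ValuationSubring K} {A : Type} [Fintype A] [DecidableEq A] {d R N : ℕ}
  {lam : Fin (R + 1) → ℤ} {Nw : Fin N → ℕ} {ew : Fin N → Fin (R + 1) → ℤ} {M M' : ℕ}
  {L : LD p V A d lam Nw ew M}

/-- The exponent of a form. -/
def gz (A : Type) (R N : ℕ) (i : Fin (R + 1)) : Ix A R N → ℤ := EV 0 (Pi.single i 1) 0 0

theorem mon_gz (i : Fin (R + 1)) : mon L.τ (gz A R N i) = L.ζ i := L.mon_zi i

theorem gz_mem (h : 2 ≤ M') (i : Fin (R + 1)) : gz A R N i ∈ BX (Ix A R N) M' := by
  have h1 : |(1 : ℤ)| ≤ (M' : ℤ) := by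
    rw [abs_one]
    exact_mod_cast (show 1 ≤ M' from (by decide : 1 ≤ 2).trans h)
  exact EV_mem abs_fz_le (abs_single h1 _) abs_zero_le abs_fz_le

theorem sum_gz {B : Type} [CommRing B] (f : Fin (R + 1) → B) (i : Fin (R + 1)) :
    ∑ j, f j * ((gz A R N j (Sum.inr (Sum.inl i)) : ℤ) : B) = f i := by
  classical
  rw [Finset.sum_eq_single i]
  · rw [gz, EV_z, Pi.single_eq_same, Int.cast_one, mul_one]
  · intro j _ hj
    rw [gz, EV_z, Pi.single_eq_of_ne (Ne.symm hj), Int.cast_zero, mul_zero]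
  · intro h; exact absurd (Finset.mem_univ _) h

theorem sum_gz0 {B : Type} [CommRing B] (f : Fin (R + 1) → B) {α : Ix A R N}
    (hα : ∀ j, gz A R N j α = 0) :
    ∑ j, f j * ((gz A R N j α : ℤ) : B) = 0 :=
  Finset.sum_eq_zero fun j _ => by rw [hα, Int.cast_zero, mul_zero]

/-- The coefficients of the relation of the coordinate `σ`. -/
def cS (p : ℕ) {R : ℕ} (lam : Fin (R + 1) → ℤ) (i0 : Fin R) : Fin (R + 1) → ZMod p :=
  Fin.cons (lam i0.succ : ZMod p) (Pi.single i0 (-(lam 0 : ZMod p)))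

theorem sum_cS {B : Type} [Field B] [Algebra (ZMod p) B] (lam : Fin (R + 1) → ℤ) (i0 : Fin R)
    (f : Fin (R + 1) → B) : ∑ i, algebraMap (ZMod p) B (cS p lam i0 i) * f i =
      (lam i0.succ : B) * f 0 - (lam 0 : B) * f i0.succ := by
  rw [Fin.sum_univ_succ, Finset.sum_eq_single i0]
  · have h1 : cS p lam i0 0 = (lam i0.succ : ZMod p) := rfl
    have h2 : cS p lam i0 i0.succ = -(lam 0 : ZMod p) := by
      show (Pi.single i0 (-(lam 0 : ZMod p)) : Fin R → ZMod p) i0 = _
      rw [Pi.single_eq_same]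
    rw [h1, h2, map_neg, map_intCast, map_intCast]
    ring
  · intro j _ hj
    have h2 : cS p lam i0 j.succ = 0 := by
      show (Pi.single i0 (-(lam 0 : ZMod p)) : Fin R → ZMod p) j = _
      rw [Pi.single_eq_of_ne hj]
    rw [h2, map_zero, zero_mul]
  · intro h; exact absurd (Finset.mem_univ _) h

/-- The variables. -/
def YN : Empty → K := fun θ => θ.elim

section Defs

variable (L)

/-- The coefficients of the special relations. -/
noncomputable def LD.nc : Unit ⊕ (Unit ⊕ Unit) → Tx R → L.Po Empty :=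
  Sum.elim (fun _ => cl (fun _ => 1) 0)
    (Sum.elim (fun _ => c2 _ 1 (-X (Sum.inl L.qc))) fun _ => cl (cS p lam L.i0) 1)

/-- The exponents of the special relations. -/
def LD.nx : Unit ⊕ (Unit ⊕ Unit) → Tx R → Ix A R N → ℤ :=
  Sum.elim (fun _ => xl (gz A R N) 0)
    (Sum.elim (fun _ => x2 _ (EV 0 lam 0 0) (EV L.κc 0 0 0)) fun _ => xl (gz A R N) (EV 0 0 1 0))

/-- The leading terms of the special relations. -/
def LD.ns : Unit ⊕ (Unit ⊕ Unit) → Tx R :=
  Sum.elim (fun _ => Sum.inl L.m) fun _ => Sum.inr true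

end Defs

theorem nc_rel (j : Unit ⊕ (Unit ⊕ Unit)) :
    ∑ s, aeval (Sum.elim L.y YN) (L.nc j s) * mon L.τ (L.nx j s) = 0 := by
  rcases j with j | j | j
  · refine (rel_lin (y := Sum.elim L.y YN) _ _ _ _).trans ?_
    rw [map_zero, zero_mul, add_zero, ← L.ζs]
    refine Finset.sum_congr rfl fun i _ => ?_
    rw [map_one, one_mul, mon_gz]
  · refine (rel_two (y := Sum.elim L.y YN) _ _ _ _).trans ?_
    rw [L.mon_z, L.mon_t, L.eqc, map_one, map_neg, aeval_X, Sum.elim_inl]; ring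
  · refine (rel_lin (y := Sum.elim L.y YN) _ _ _ _).trans ?_
    have h1 := L.eqη L.i0
    rw [L.ηi0, mul_one] at h1
    simp only [mon_gz]
    rw [sum_cS lam L.i0 L.ζ, map_one, one_mul, L.mon_s, ← h1]
    ring

theorem nx_mem {C : Cone (Ix A R N)} (h : Cx L M' C) (j : Unit ⊕ (Unit ⊕ Unit)) (s : Tx R) :
    L.nx j s ∈ BX (Ix A R N) M' := by
  have h1 : |(1 : ℤ)| ≤ (M' : ℤ) := by
    rw [abs_one]
    exact_mod_cast (show 1 ≤ M' from (by decide : 1 ≤ 2).trans h.h2)
  have h3 : ∀ x : ℤ, |x| ≤ M → |x| ≤ M' := fun x hx => hx.trans (by exact_mod_cast h.hM)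
  rcases j with j | j | j <;> rcases s with s | _ | _
  · exact gz_mem h.h2 s
  · exact zero_mem_BX
  · exact zero_mem_BX
  · exact zero_mem_BX
  · exact EV_mem (fun a => h3 _ (L.κcM a)) abs_fz_le abs_zero_le abs_fz_le
  · exact EV_mem abs_fz_le (fun i => h3 _ (L.lamM i)) abs_zero_le abs_fz_le
  · exact gz_mem h.h2 s
  · exact zero_mem_BX
  · exact EV_mem abs_fz_le abs_fz_le h1 abs_fz_le

theorem ns_ok (j : Unit ⊕ (Unit ⊕ Unit)) : L.nc j (L.ns j) ≠ 0 ∨ ∀ s, L.nc j s = 0 := by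
  rcases j with j | j | j
  · left
    show MvPolynomial.C (1 : ZMod p) ≠ 0
    rw [MvPolynomial.C_1]
    exact one_ne_zero
  · exact Or.inl one_ne_zero
  · exact Or.inl one_ne_zero

theorem ns_dom (hσ : V.valuation L.σ = 1) (j : Unit ⊕ (Unit ⊕ Unit)) (s : Tx R)
    (hs : L.nc j s ≠ 0) :
    V.valuation (mon L.τ (L.nx j s)) ≤ V.valuation (mon L.τ (L.nx j (L.ns j))) := by
  rcases j with j | j | j <;> rcases s with s | _ | _
  · show V.valuation (mon L.τ (gz A R N s)) ≤ V.valuation (mon L.τ (gz A R N L.m))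
    rw [mon_gz, mon_gz, L.ζm, map_one]
    exact L.vζ s
  · exact absurd rfl hs
  · exact absurd rfl hs
  · exact absurd rfl hs
  · show V.valuation (mon L.τ (EV L.κc 0 0 0)) ≤ V.valuation (mon L.τ (EV 0 lam 0 0))
    rw [L.mon_z, L.mon_t, L.eqc, map_mul, L.vqc, one_mul]
  · exact le_rfl
  · show V.valuation (mon L.τ (gz A R N s)) ≤ V.valuation (mon L.τ (EV 0 0 1 0))
    rw [mon_gz, L.mon_s, hσ]
    exact L.vζ s
  · exact absurd rfl hs
  · exact le_rfl

/-- **The charts away from the critical point are regular.** -/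
theorem isRegular_N [Algebra (ZMod p) (ResidueField V)] {C : Cone (Ix A R N)}
    (h : Cx L M' C) (hσ : V.valuation L.σ = 1) (hR : 2 ≤ R)
    (halg : Algebra.IsAlgebraic (Algebra.adjoin (ZMod p)
      (Set.range (Sum.elim (fun j => mon L.τ (C.b j)) (Sum.elim L.y YN)))) K)
    (htr : ((d + (R - 2) : ℕ) : Cardinal.{0}) ≤ Algebra.trdeg (ZMod p) K) :
    IsRegularLocalRing (cring V L.τ (Sum.elim L.y YN) C) := by
  have hLL : ∀ α, Ls V L.τ (Sum.elim L.y YN) (L.nc (Sum.inl ())) (L.nx (Sum.inl ()))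
      (L.ns (Sum.inl ())) α = ∑ j, resv V (L.ζ j) * ((gz A R N j α : ℤ) : ResidueField V) := by
    intro α
    refine (Ls_lin _ _ _ _ _ α).trans ?_
    rw [map_zero, zero_mul, zero_mul, add_zero]
    refine Finset.sum_congr rfl fun j _ => ?_
    have h1 : xl (gz A R N) 0 (L.ns (Sum.inl ())) = gz A R N L.m := rfl
    rw [map_one, one_mul, h1, mon_gz, mon_gz, L.ζm, div_one]
  have hLM : ∀ α, Ls V L.τ (Sum.elim L.y YN) (L.nc (Sum.inr (Sum.inl ())))
      (L.nx (Sum.inr (Sum.inl ()))) (L.ns (Sum.inr (Sum.inl ()))) α =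
      ((EV (A := A) (N := N) 0 lam 0 0 α : ℤ) : ResidueField V) +
      aeval (fun l => resv V (Sum.elim L.y YN l)) (-X (Sum.inl L.qc) : L.Po Empty) *
        resv V (mon L.τ (EV L.κc 0 0 0) / mon L.τ (EV 0 lam 0 0)) *
          ((EV L.κc 0 0 0 α : ℤ) : ResidueField V) := by
    intro α
    refine (Ls_tt L.τ_ne_zero _ _ _ _ α).trans ?_
    rw [map_one, one_mul]
  have hLS : ∀ α, Ls V L.τ (Sum.elim L.y YN) (L.nc (Sum.inr (Sum.inr ())))
      (L.nx (Sum.inr (Sum.inr ()))) (L.ns (Sum.inr (Sum.inr ()))) α =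
      ∑ j, algebraMap (ZMod p) (ResidueField V) (cS p lam L.i0 j) * resv V (L.ζ j / L.σ) *
        ((gz A R N j α : ℤ) : ResidueField V) +
      ((EV (A := A) (R := R) (N := N) 0 0 1 0 α : ℤ) : ResidueField V) := by
    intro α
    refine (Ls_lin _ _ _ _ _ α).trans ?_
    have h1 : xl (gz A R N) (EV 0 0 1 0) (L.ns (Sum.inr (Sum.inr ()))) = EV 0 0 1 0 := rfl
    rw [h1, L.mon_s, div_self L.σ0, resv_one, map_one, one_mul, one_mul]
    congr 1
    refine Finset.sum_congr rfl fun j _ => ?_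
    rw [mon_gz]
  have hu : ∀ g : Unit → ResidueField V, ∑ u, g u = g () := fun g => by
    rw [Finset.univ_unique, Finset.sum_singleton]
  refine isRegular_common (Θ := Empty) h (Y := YN) (fun θ => θ.elim) L.nc L.nx L.ns (nx_mem h)
    nc_rel ns_ok (ns_dom hσ) ?_ ?_ ?_ hR halg htr
  · rintro (j | j | j) c'
    · exact (hLL _).trans (sum_gz0 _ fun _ => rfl)
    · refine (hLM _).trans ?_
      rw [EV_w, EV_w, Pi.zero_apply, Int.cast_zero, mul_zero, add_zero]
    · refine (hLS _).trans ?_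
      rw [sum_gz0 _ (fun _ => rfl), EV_w, Pi.zero_apply, Int.cast_zero, add_zero]
  · intro aT a h1 h2 _
    obtain ⟨aL, haL⟩ : ∃ f, f = a (Sum.inl ()) := ⟨_, rfl⟩
    obtain ⟨aM, haM⟩ : ∃ f, f = a (Sum.inr (Sum.inl ())) := ⟨_, rfl⟩
    obtain ⟨aS, haS⟩ : ∃ f, f = a (Sum.inr (Sum.inr ())) := ⟨_, rfl⟩
    have hS : aS = 0 := by
      rw [Fintype.sum_sum_type, Fintype.sum_sum_type, hu, hu, hu, hLL, hLM, hLS,
        sum_gz0 _ (fun _ => rfl), sum_gz0 _ (fun _ => rfl), EV_s, EV_s, EV_s, Int.cast_zero,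
        Int.cast_one, mul_zero, mul_zero, zero_add, add_zero, mul_zero, zero_add, zero_add,
        mul_one, ← haS] at h2
      exact h2
    have h3 : ∀ i, aT * (if i = L.m then 1 else 0) + (aL * resv V (L.ζ i) +
        aM * (lam i : ResidueField V)) = 0 := by
      intro i
      have h4 := h1 i
      rw [Fintype.sum_sum_type, Fintype.sum_sum_type, hu, hu, hu, hLL, hLM, ← haL, ← haM, ← haS,
        hS, zero_mul, add_zero, sum_gz, EV_z, EV_z, Pi.zero_apply, Int.cast_zero, mul_zero,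
        add_zero] at h4
      exact h4
    have hζs : ∑ i, resv V (L.ζ i) = 0 := by
      have h4 := (resv_aevalp V L.ζ L.vζ (∑ i, X i : MvPolynomial (Fin (R + 1)) (ZMod p))).2
      rw [map_sum, map_sum] at h4
      simp only [aeval_X] at h4
      rw [← h4, L.ζs]
      exact resv_zero
    have hlams : ∑ i, (lam i : ResidueField V) = 0 := by
      rw [← Int.cast_sum, L.lams, Int.cast_zero]
    have hT : aT = 0 := by
      have h4 : ∑ i, (aT * (if i = L.m then 1 else 0) + (aL * resv V (L.ζ i) +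
        aM * (lam i : ResidueField V))) = 0 := Finset.sum_eq_zero fun i _ => h3 i
      rw [Finset.sum_add_distrib, Finset.sum_add_distrib, ← Finset.mul_sum, ← Finset.mul_sum,
        ← Finset.mul_sum, hζs, hlams, mul_zero, mul_zero, add_zero, add_zero,
        Finset.sum_ite_eq' Finset.univ L.m, if_pos (Finset.mem_univ _), mul_one] at h4
      exact h4
    have h5 : ∀ i, aL * resv V (L.ζ i) + aM * (lam i : ResidueField V) = 0 := by
      intro i
      have h4 := h3 i
      rwa [hT, zero_mul, zero_add] at h4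
    have h6 : (lam 0 : ResidueField V) * resv V (L.ζ L.i0.succ) -
        lam L.i0.succ * resv V (L.ζ 0) = resv V L.σ := by
      have h4 := (resv_aevalp V L.ζ L.vζ (MvPolynomial.C (lam 0 : ZMod p) * X L.i0.succ -
        MvPolynomial.C (lam L.i0.succ : ZMod p) * X 0)).2
      rw [map_sub, map_mul, map_mul, map_sub, map_mul, map_mul, aeval_C, aeval_C, aeval_X,
        aeval_X, aeval_C, aeval_C, aeval_X, aeval_X, map_intCast, map_intCast, map_intCast,
        map_intCast, L.eqη, L.ηi0, mul_one] at h4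
      exact h4.symm
    have h7 : resv V L.σ ≠ 0 := (resv_ne_zero_iff hσ.le).mpr hσ
    have hL0 : aL = 0 := by
      have h8 : aL * resv V L.σ = 0 := by
        rw [← h6]
        linear_combination (lam 0 : ResidueField V) * h5 L.i0.succ -
          (lam L.i0.succ : ResidueField V) * h5 0
      exact (mul_eq_zero.mp h8).resolve_right h7
    have hM0 : aM = 0 := by
      have h8 := h5 0
      rw [hL0, zero_mul, zero_add] at h8
      exact (mul_eq_zero.mp h8).resolve_right (zc_ne V (L.lamp 0))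
    refine ⟨hT, ?_⟩
    rintro (j | j | j)
    exacts [haL ▸ hL0, haM ▸ hM0, haS ▸ hS]
  · rw [Fintype.card_sum, Fintype.card_sum, Fintype.card_unit, Fintype.card_empty]
    omega

end Pool.Agent.H96.Z
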