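import Pool.Agent.H96.W.LocB
import Pool.Agent.H96.Z.Abs

/-!
# The local criterion with normalized terms
-/

set_option autoImplicit false
set_option linter.unusedSectionVars false

namespace Pool.Agent.H96.Z

open MvPolynomial IsLocalRing Pool.Agent.H96.Reg Pool.Agent.H96.VL Pool.Agent.H96.W

variable {ι : Type} [Fintype ι] [DecidableEq ι] {A : Type} [CommRing A] {υ : Type} [Fintype υ]
  [DecidableEq υ] {T : Type} [Fintype T] {K : Type} [Field K]

/-- The residue of a term, normalized by the term `s₀`. -/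
noncomputable def rt (V : ValuationSubring K) (τ : ι → K) (x : T → ι → ℤ) (s₀ s : T) :
    ResidueField V := resv V (mon τ (x s) / mon τ (x s₀))

/-- The normalized logarithmic differential of a relation. -/
noncomputable def Ls (V : ValuationSubring K) [Algebra A (ResidueField V)] (τ : ι → K) (y : υ → K)
    (c : T → MvPolynomial υ A) (x : T → ι → ℤ) (s₀ : T) (α : ι) : ResidueField V :=
  ∑ s, aeval (fun l => resv V (y l)) (c s) * rt V τ x s₀ s * ((x s α : ℤ) : ResidueField V)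

/-- The normalized differential of a relation in the other variables. -/
noncomputable def Ds (V : ValuationSubring K) [Algebra A (ResidueField V)] (τ : ι → K) (y : υ → K)
    (c : T → MvPolynomial υ A) (x : T → ι → ℤ) (s₀ : T) (l : υ) : ResidueField V :=
  ∑ s, aeval (fun l => resv V (y l)) (pderiv l (c s)) * rt V τ x s₀ s

variable {V : ValuationSubring K} {τ : ι → K} {C : Cone ι} {c : T → MvPolynomial υ A}
  {x : T → ι → ℤ}

theorem ee_rt (hτ : ∀ α, τ α ≠ 0) (hC : IsCone C) (hb : ∀ j, V.valuation (mon τ (C.b j)) ≤ 1)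
    (h : ∀ s, c s ≠ 0 → ∀ s', c s' ≠ 0 → Sgn C (x s - x s')) {s₀ s : T} (hs₀ : c s₀ ≠ 0)
    (hs : c s ≠ 0) (hdom : V.valuation (mon τ (x s)) ≤ V.valuation (mon τ (x s₀))) :
    ee V τ C (mrel C c x) s = ee V τ C (mrel C c x) s₀ * rt V τ x s₀ s := by
  obtain ⟨s₁, hs₁, hE, h1⟩ := mrel_spec ⟨s, hs⟩ h
  have h2 : ∀ t, c t ≠ 0 → ∀ j, 0 ≤ C.r j ⬝ᵥ ((mrel C c x).x t - (mrel C c x).E) := by
    intro t ht
    rw [hE]; exact h1 t ht
  rw [ee_eq hτ hC hb (h2 s hs), ee_eq hτ hC hb (h2 s₀ hs₀), rt]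
  have h3 := val_mon_of_nonneg hτ hC hb (h2 s₀ hs₀)
  have h0 := mon_ne_zero hτ (x s₀)
  have h4 : V.valuation (mon τ (x s) / mon τ (x s₀)) ≤ 1 := by
    rw [map_div₀]
    have : 0 < V.valuation (mon τ (x s₀)) := by rw [Valuation.pos_iff]; exact h0
    exact (div_le_one₀ this).mpr hdom
  rw [← resv_mul h3 h4]
  congr 1
  show mon τ (x s - (mrel C c x).E) = mon τ (x s₀ - (mrel C c x).E) * (mon τ (x s) / mon τ (x s₀))
  rw [mon_sub hτ, mon_sub hτ]
  field_simp

theorem LL_Ls [Algebra A (ResidueField V)] {y : υ → K} (hτ : ∀ α, τ α ≠ 0) (hC : IsCone C)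
    (hb : ∀ j, V.valuation (mon τ (C.b j)) ≤ 1)
    (h : ∀ s, c s ≠ 0 → ∀ s', c s' ≠ 0 → Sgn C (x s - x s')) {s₀ : T} (hs₀ : c s₀ ≠ 0)
    (hdom : ∀ s, c s ≠ 0 → V.valuation (mon τ (x s)) ≤ V.valuation (mon τ (x s₀))) (α : ι) :
    ∑ s, aeval (fun l => resv V (y l)) (c s) * ee V τ C (mrel C c x) s *
      ((x s α : ℤ) : ResidueField V) =
      ee V τ C (mrel C c x) s₀ * Ls V τ y c x s₀ α := by
  rw [Ls, Finset.mul_sum]
  refine Finset.sum_congr rfl fun s _ => ?_
  by_cases hs : c s = 0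
  · rw [hs, map_zero]; ring
  · rw [ee_rt hτ hC hb h hs₀ hs (hdom s hs)]; ring

theorem TT_Ds [Algebra A (ResidueField V)] {y : υ → K} (hτ : ∀ α, τ α ≠ 0) (hC : IsCone C)
    (hb : ∀ j, V.valuation (mon τ (C.b j)) ≤ 1)
    (h : ∀ s, c s ≠ 0 → ∀ s', c s' ≠ 0 → Sgn C (x s - x s')) {s₀ : T} (hs₀ : c s₀ ≠ 0)
    (hdom : ∀ s, c s ≠ 0 → V.valuation (mon τ (x s)) ≤ V.valuation (mon τ (x s₀))) (l : υ) :
    ∑ s, aeval (fun l => resv V (y l)) (pderiv l (c s)) * ee V τ C (mrel C c x) s =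
      ee V τ C (mrel C c x) s₀ * Ds V τ y c x s₀ l := by
  rw [Ds, Finset.mul_sum]
  refine Finset.sum_congr rfl fun s _ => ?_
  by_cases hs : c s = 0
  · rw [hs, map_zero, map_zero]; ring
  · rw [ee_rt hτ hC hb h hs₀ hs (hdom s hs)]; ring

/-- **The local criterion** in terms of normalized terms. -/
theorem isRegular_of_terms [IsDomain A] [IsRegularRing A]
    (hA : Function.Surjective (Int.castRingHom A)) {κ : Type} [Fintype κ]
    [Algebra A K] [FaithfulSMul A K] (V : ValuationSubring K)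
    [Algebra A (ResidueField V)] {τ : ι → K} (hτ : ∀ α, τ α ≠ 0) {C : Cone ι} (hC : IsCone C)
    (hb : ∀ j, V.valuation (mon τ (C.b j)) ≤ 1) {y : υ → K} (hy : ∀ l, V.valuation (y l) ≤ 1)
    (halg : Algebra.IsAlgebraic (Algebra.adjoin A
      (Set.range (Sum.elim (fun j => mon τ (C.b j)) y))) K)
    (c : κ → T → MvPolynomial υ A) (x : κ → T → ι → ℤ) (s₀ : κ → T)
    (hSgn : ∀ j s s', Sgn C (x j s - x j s'))
    (hrel : ∀ j, ∑ s, aeval y (c j s) * mon τ (x j s) = 0)
    (hs₀ : ∀ j, c j (s₀ j) ≠ 0 ∨ ∀ s, c j s = 0)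
    (hdom : ∀ j s, c j s ≠ 0 → V.valuation (mon τ (x j s)) ≤ V.valuation (mon τ (x j (s₀ j))))
    (htr : (Fintype.card ι + Fintype.card υ : Cardinal.{0}) ≤
      Algebra.trdeg A K + Fintype.card κ)
    (hind : ∀ a : κ → ResidueField V,
      (∀ α, ∑ j, a j * Ls V τ y (c j) (x j) (s₀ j) α = 0) →
      (∀ l, ∑ j, a j * Ds V τ y (c j) (x j) (s₀ j) l = 0) → ∀ j, a j = 0) :
    IsRegularLocalRing (cring V τ y C) := by
  refine isRegular_of_mrel hA V hτ hC hb hy halg (fun j => mrel C (c j) (x j))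
    (fun j => mrel_ok fun s _ s' _ => hSgn j s s') hrel htr fun a h1 h2 => ?_
  have hex : ∀ j, ∃ e : ResidueField V, e ≠ 0 ∧
      (∀ α, ∑ s, aeval (fun l => resv V (y l)) (c j s) * ee V τ C (mrel C (c j) (x j)) s *
        ((x j s α : ℤ) : ResidueField V) = e * Ls V τ y (c j) (x j) (s₀ j) α) ∧
      ∀ l, ∑ s, aeval (fun l => resv V (y l)) (pderiv l (c j s)) *
        ee V τ C (mrel C (c j) (x j)) s = e * Ds V τ y (c j) (x j) (s₀ j) l := by
    intro j
    rcases hs₀ j with h0 | h0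
    · exact ⟨_, ee_ne_zero hτ hC hb (fun s _ s' _ => hSgn j s s') h0 (hdom j),
        LL_Ls hτ hC hb (fun s _ s' _ => hSgn j s s') h0 (hdom j),
        TT_Ds hτ hC hb (fun s _ s' _ => hSgn j s s') h0 (hdom j)⟩
    · refine ⟨1, one_ne_zero, fun α => ?_, fun l => ?_⟩
      · rw [Ls, one_mul]
        refine Finset.sum_congr rfl fun s _ => ?_
        rw [h0, map_zero, zero_mul, zero_mul, zero_mul, zero_mul]
      · rw [Ds, one_mul]
        refine Finset.sum_congr rfl fun s _ => ?_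
        rw [h0, map_zero, map_zero, zero_mul, zero_mul]
  choose e he0 he1 he2 using hex
  have h3 : ∀ j, a j * e j = 0 := by
    refine hind (fun j => a j * e j) (fun α => ?_) fun l => ?_
    · refine Eq.trans (Finset.sum_congr rfl fun j _ => ?_) (h1 α)
      rw [mul_assoc, ← he1 j α]
      rfl
    · refine Eq.trans (Finset.sum_congr rfl fun j _ => ?_) (h2 l)
      rw [mul_assoc, ← he2 j l]
      rfl
  intro j
  exact (mul_eq_zero.mp (h3 j)).resolve_right (he0 j)

section Two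

variable {I : Type} [Fintype I]

/-- The coefficients of a relation with two terms. -/
noncomputable def c2 (I : Type) (P Q : MvPolynomial υ A) : I ⊕ Bool → MvPolynomial υ A :=
  Sum.elim (fun _ => 0) fun b => cond b P Q

/-- The exponents of a relation with two terms. -/
def x2 (I : Type) (u v : ι → ℤ) : I ⊕ Bool → ι → ℤ := Sum.elim (fun _ => 0) fun b => cond b u v

theorem rel_two {y : υ → K} [Algebra A K] (P Q : MvPolynomial υ A) (u v : ι → ℤ) :
    ∑ s, aeval y (c2 I P Q s) * mon τ (x2 I u v s) =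
      aeval y P * mon τ u + aeval y Q * mon τ v := by
  rw [Fintype.sum_sum_type, Fintype.sum_bool, Finset.sum_eq_zero fun i _ => ?_, zero_add]
  · rfl
  · show aeval y (0 : MvPolynomial υ A) * _ = 0
    rw [map_zero, zero_mul]

theorem Ls_two [Algebra A (ResidueField V)] {y : υ → K} (P Q : MvPolynomial υ A) (u v : ι → ℤ)
    (s₀ : I ⊕ Bool) (α : ι) : Ls V τ y (c2 I P Q) (x2 I u v) s₀ α =
      aeval (fun l => resv V (y l)) P * resv V (mon τ u / mon τ (x2 I u v s₀)) *
        ((u α : ℤ) : ResidueField V) +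
      aeval (fun l => resv V (y l)) Q * resv V (mon τ v / mon τ (x2 I u v s₀)) *
        ((v α : ℤ) : ResidueField V) := by
  rw [Ls, Fintype.sum_sum_type, Fintype.sum_bool, Finset.sum_eq_zero fun i _ => ?_, zero_add]
  · rfl
  · show aeval _ (0 : MvPolynomial υ A) * _ * _ = 0
    rw [map_zero, zero_mul, zero_mul]

theorem Ds_two [Algebra A (ResidueField V)] {y : υ → K} (P Q : MvPolynomial υ A) (u v : ι → ℤ)
    (s₀ : I ⊕ Bool) (l : υ) : Ds V τ y (c2 I P Q) (x2 I u v) s₀ l =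
      aeval (fun l => resv V (y l)) (pderiv l P) * resv V (mon τ u / mon τ (x2 I u v s₀)) +
      aeval (fun l => resv V (y l)) (pderiv l Q) * resv V (mon τ v / mon τ (x2 I u v s₀)) := by
  rw [Ds, Fintype.sum_sum_type, Fintype.sum_bool, Finset.sum_eq_zero fun i _ => ?_, zero_add]
  · rfl
  · show aeval _ (pderiv l (0 : MvPolynomial υ A)) * _ = 0
    rw [map_zero, map_zero, zero_mul]

end Two

end Pool.Agent.H96.Z
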