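import Pool.Agent.H96.Z.Reg
import Pool.Agent.H96.S.LReg

/-!
# The shapes of the relations
-/

set_option autoImplicit false
set_option linter.unusedSectionVars false

namespace Pool.Agent.H96.Z

open MvPolynomial IsLocalRing Pool.Agent.H96.Reg Pool.Agent.H96.VL Pool.Agent.H96.W

variable {ι : Type} [Fintype ι] [DecidableEq ι] {A : Type} [Field A] {υ : Type} [Fintype υ]
  [DecidableEq υ] {I : Type} [Fintype I] {K : Type} [Field K] {V : ValuationSubring K}
  [Algebra A K] [Algebra A (ResidueField V)] {τ : ι → K} {y : υ → K}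

theorem mon_zero' (τ : ι → K) : mon τ (0 : ι → ℤ) = 1 := mon_zero

section Two

theorem Ls_tt (hτ : ∀ α, τ α ≠ 0) (P Q : MvPolynomial υ A) (u v : ι → ℤ) (α : ι) :
    Ls V τ y (c2 I P Q) (x2 I u v) (Sum.inr true) α =
      aeval (fun l => resv V (y l)) P * ((u α : ℤ) : ResidueField V) +
      aeval (fun l => resv V (y l)) Q * resv V (mon τ v / mon τ u) *
        ((v α : ℤ) : ResidueField V) := by
  rw [Ls_two]
  have h1 : x2 I u v (Sum.inr true) = u := rfl
  rw [h1, div_self (mon_ne_zero hτ u), resv_one, mul_one]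

theorem Ds_tt (hτ : ∀ α, τ α ≠ 0) (P Q : MvPolynomial υ A) (u v : ι → ℤ) (l : υ) :
    Ds V τ y (c2 I P Q) (x2 I u v) (Sum.inr true) l =
      aeval (fun l => resv V (y l)) (pderiv l P) +
      aeval (fun l => resv V (y l)) (pderiv l Q) * resv V (mon τ v / mon τ u) := by
  rw [Ds_two]
  have h1 : x2 I u v (Sum.inr true) = u := rfl
  rw [h1, div_self (mon_ne_zero hτ u), resv_one, mul_one]

theorem Ls_ff (hτ : ∀ α, τ α ≠ 0) (P Q : MvPolynomial υ A) (u v : ι → ℤ) (α : ι) :
    Ls V τ y (c2 I P Q) (x2 I u v) (Sum.inr false) α =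
      aeval (fun l => resv V (y l)) P * resv V (mon τ u / mon τ v) *
        ((u α : ℤ) : ResidueField V) +
      aeval (fun l => resv V (y l)) Q * ((v α : ℤ) : ResidueField V) := by
  rw [Ls_two]
  have h1 : x2 I u v (Sum.inr false) = v := rfl
  rw [h1, div_self (mon_ne_zero hτ v), resv_one, mul_one]

theorem Ds_ff (hτ : ∀ α, τ α ≠ 0) (P Q : MvPolynomial υ A) (u v : ι → ℤ) (l : υ) :
    Ds V τ y (c2 I P Q) (x2 I u v) (Sum.inr false) l =
      aeval (fun l => resv V (y l)) (pderiv l P) * resv V (mon τ u / mon τ v) +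
      aeval (fun l => resv V (y l)) (pderiv l Q) := by
  rw [Ds_two]
  have h1 : x2 I u v (Sum.inr false) = v := rfl
  rw [h1, div_self (mon_ne_zero hτ v), resv_one, mul_one]

end Two

section One

/-- A relation between the variables. -/
theorem Ls_G (P : MvPolynomial υ A) (s₀ : I ⊕ Bool) (α : ι) :
    Ls V τ y (c2 I P 0) (x2 I 0 0) s₀ α = 0 := by
  rw [Ls_two, Pi.zero_apply, Int.cast_zero, mul_zero, mul_zero, add_zero]

theorem Ds_G (P : MvPolynomial υ A) (l : υ) :
    Ds V τ y (c2 I P 0) (x2 I (0 : ι → ℤ) 0) (Sum.inr true) l =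
      aeval (fun l => resv V (y l)) (pderiv l P) := by
  rw [Ds_two]
  have h1 : x2 I (0 : ι → ℤ) 0 (Sum.inr true) = 0 := rfl
  rw [h1, mon_zero', div_one, resv_one, mul_one, map_zero, map_zero, zero_mul, add_zero]

/-- A monomial equal to `1`. -/
theorem Ls_U (hτ : ∀ α, τ α ≠ 0) {u : ι → ℤ} (α : ι) :
    Ls V τ y (c2 I 1 (-1 : MvPolynomial υ A)) (x2 I u 0) (Sum.inr true) α = ((u α : ℤ) : ResidueField V) := by
  rw [Ls_tt hτ, Pi.zero_apply, Int.cast_zero, mul_zero, add_zero, map_one, one_mul]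

theorem Ds_U (hτ : ∀ α, τ α ≠ 0) {u : ι → ℤ} (l : υ) :
    Ds V τ y (c2 I 1 (-1 : MvPolynomial υ A)) (x2 I u 0) (Sum.inr true) l = 0 := by
  rw [Ds_tt hτ, map_neg, ← MvPolynomial.C_1, pderiv_C, map_zero, neg_zero, map_zero, zero_mul,
    add_zero]

/-- A monomial equal to a variable which vanishes. -/
theorem Ls_V {u : ι → ℤ} (hu : V.valuation (mon τ u) < 1) (x : υ) (α : ι) :
    Ls V τ y (c2 I 1 (-X x : MvPolynomial υ A)) (x2 I u 0) (Sum.inr false) α = 0 := by
  rw [Ls_two]
  have h1 : x2 I u (0 : ι → ℤ) (Sum.inr false) = 0 := rfl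
  rw [h1, mon_zero', div_one, div_one, (resv_eq_zero_iff hu.le).mpr hu, Pi.zero_apply,
    Int.cast_zero, mul_zero, mul_zero, zero_mul, add_zero]

theorem Ds_V {u : ι → ℤ} (x l : υ) :
    Ds V τ y (c2 I 1 (-X x : MvPolynomial υ A)) (x2 I u 0) (Sum.inr false) l =
      if l = x then (-1 : ResidueField V) else 0 := by
  rw [Ds_two]
  have h1 : x2 I u (0 : ι → ℤ) (Sum.inr false) = 0 := rfl
  rw [h1, mon_zero', div_one, div_one, resv_one, mul_one, ← MvPolynomial.C_1, pderiv_C, map_zero,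
    zero_mul, zero_add, map_neg, pderiv_X, Pi.single_apply]
  by_cases h : l = x
  · rw [if_pos h.symm, if_pos h, map_neg, map_one]
  · rw [if_neg (Ne.symm h), if_neg h, neg_zero, map_zero]

end One

section Lin

/-- The coefficients of a linear relation. -/
noncomputable def cl (f : I → A) (P : MvPolynomial υ A) : I ⊕ Bool → MvPolynomial υ A :=
  Sum.elim (fun i => MvPolynomial.C (f i)) fun b => cond b P 0

/-- The exponents of a linear relation. -/
def xl (g : I → ι → ℤ) (u : ι → ℤ) : I ⊕ Bool → ι → ℤ := Sum.elim g fun b => cond b u 0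

theorem rel_lin (f : I → A) (P : MvPolynomial υ A) (g : I → ι → ℤ) (u : ι → ℤ) :
    ∑ s, aeval y (cl f P s) * mon τ (xl g u s) =
      ∑ i, algebraMap A K (f i) * mon τ (g i) + aeval y P * mon τ u := by
  rw [Fintype.sum_sum_type, Fintype.sum_bool]
  congr 1
  · refine Finset.sum_congr rfl fun i _ => ?_
    show aeval y (MvPolynomial.C (f i)) * mon τ (g i) = _
    rw [aeval_C]
  · show aeval y P * mon τ u + aeval y (0 : MvPolynomial υ A) * _ = _
    rw [map_zero, zero_mul, add_zero]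

theorem Ls_lin (f : I → A) (P : MvPolynomial υ A) (g : I → ι → ℤ) (u : ι → ℤ) (s₀ : I ⊕ Bool)
    (α : ι) : Ls V τ y (cl f P) (xl g u) s₀ α =
      ∑ i, algebraMap A (ResidueField V) (f i) * resv V (mon τ (g i) / mon τ (xl g u s₀)) *
        ((g i α : ℤ) : ResidueField V) +
      aeval (fun l => resv V (y l)) P * resv V (mon τ u / mon τ (xl g u s₀)) *
        ((u α : ℤ) : ResidueField V) := by
  rw [Ls, Fintype.sum_sum_type, Fintype.sum_bool]
  congr 1
  · refine Finset.sum_congr rfl fun i _ => ?_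
    show aeval _ (MvPolynomial.C (f i)) * rt V τ (xl g u) s₀ (Sum.inl i) * _ = _
    rw [aeval_C]
    rfl
  · show aeval _ P * rt V τ (xl g u) s₀ (Sum.inr true) * _ +
      aeval _ (0 : MvPolynomial υ A) * _ * _ = _
    rw [map_zero, zero_mul, zero_mul, add_zero]
    rfl

theorem Ds_lin (f : I → A) (P : MvPolynomial υ A) (g : I → ι → ℤ) (u : ι → ℤ) (s₀ : I ⊕ Bool)
    (l : υ) (hP : pderiv l P = 0) : Ds V τ y (cl f P) (xl g u) s₀ l = 0 := by
  rw [Ds, Fintype.sum_sum_type, Fintype.sum_bool, Finset.sum_eq_zero fun i _ => ?_, zero_add]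
  · show aeval _ (pderiv l P) * _ + aeval _ (pderiv l (0 : MvPolynomial υ A)) * _ = _
    rw [hP, map_zero, map_zero, zero_mul, map_zero, zero_mul, add_zero]
  · show aeval _ (pderiv l (MvPolynomial.C (f i))) * _ = 0
    rw [pderiv_C, map_zero, zero_mul]

end Lin

end Pool.Agent.H96.Z
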